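import Pool.Agent.Lib.MP_c7b0ca_fe.Defs

/-!
Elementary facts about the group algebra and the data `Setup`.
-/

open scoped Pointwise commutatorElement

namespace Pool.Agent.Lib.MP_c7b0ca_fe

section algebra
variable {G : Type*} [Group G]

@[simp] theorem St_o (x : G) : St (o x) = o x⁻¹ := by
  simp [St, o]

/-- the elements `o x` span -/
theorem SA_induction {p : SA G → Prop} (h0 : p 0) (h1 : ∀ x : G, p (o x))
    (h2 : ∀ a b, p a → p b → p (a + b)) (a : SA G) : p a := by
  induction a using MonoidAlgebra.induction_on with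
  | of x => exact h1 x
  | add a b ha hb => exact h2 a b ha hb
  | smul r a ha =>
    have hr : ∀ r : ZMod 2, r = 0 ∨ r = 1 := by decide
    rcases hr r with rfl | rfl
    · rw [zero_smul]; exact h0
    · rw [one_smul]; exact ha

theorem SA_two (a : SA G) : a + a = 0 := by
  have h : (2 : ZMod 2) • a = a + a := two_smul _ a
  rw [← h, show (2 : ZMod 2) = 0 from by decide, zero_smul]

theorem St_mul (a b : SA G) : St (a * b) = St b * St a := by
  induction a using SA_induction with
  | h0 => simp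
  | h2 a a' ha ha' => rw [add_mul, map_add, map_add, mul_add, ha, ha']
  | h1 x =>
    induction b using SA_induction with
    | h0 => simp
    | h2 b b' hb hb' => rw [mul_add, map_add, map_add, add_mul, hb, hb']
    | h1 y => rw [← map_mul, St_o, St_o, St_o, mul_inv_rev, map_mul]

@[simp] theorem St_one : St (1 : SA G) = 1 := by
  rw [← map_one (o (G := G)), St_o, inv_one]

@[simp] theorem St_St (a : SA G) : St (St a) = a := by
  induction a using SA_induction with
  | h0 => simp
  | h2 a a' ha ha' => rw [map_add, map_add, ha, ha']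
  | h1 x => rw [St_o, St_o, inv_inv]

@[simp] theorem aug_o (x : G) : aug (o x) = 1 := by
  simp [aug, o]

open Classical in
theorem comp_o (N : Subgroup G) (h : G ⧸ N) (x : G) :
    comp N h (o x) = if (x : G ⧸ N) = h then o x else 0 := by
  ext y
  by_cases hy : (y : G ⧸ N) = h
  · by_cases hx : (x : G ⧸ N) = h
    · simp [comp, hx, Finsupp.filter_apply_pos (fun x : G => (x : G ⧸ N) = h) _ hy, o]
    · have : x ≠ y := by rintro rfl; exact hx hy
      simp [comp, hx, Finsupp.filter_apply_pos (fun x : G => (x : G ⧸ N) = h) _ hy, o, this]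
  · by_cases hx : (x : G ⧸ N) = h
    · have : x ≠ y := by rintro rfl; exact hy hx
      simp [comp, hx, Finsupp.filter_apply_neg (fun x : G => (x : G ⧸ N) = h) _ hy, o, this]
    · simp [comp, hx, Finsupp.filter_apply_neg (fun x : G => (x : G ⧸ N) = h) _ hy, o]

/-- every element is the sum of its components (over any finite set of cosets that is large
enough) -/
theorem sum_comp (N : Subgroup G) (c : SA G) :
    ∃ F : Finset (G ⧸ N), ∀ F' : Finset (G ⧸ N), F ⊆ F' → ∑ h ∈ F', comp N h c = c := by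
  classical
  induction c using SA_induction with
  | h0 => exact ⟨∅, fun F' _ => by simp⟩
  | h1 x =>
    refine ⟨{(x : G ⧸ N)}, fun F' hF' => ?_⟩
    simp_rw [comp_o]
    rw [Finset.sum_ite_eq, if_pos (hF' (Finset.mem_singleton_self _))]
  | h2 a b ha hb =>
    obtain ⟨F, hF⟩ := ha
    obtain ⟨F1, hF1⟩ := hb
    refine ⟨F ∪ F1, fun F' hF' => ?_⟩
    simp_rw [map_add]
    rw [Finset.sum_add_distrib, hF F' (Finset.union_subset_left hF'),
      hF1 F' (Finset.union_subset_right hF')]

/-- components of products with group elements -/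
theorem comp_o_mul (N : Subgroup G) [N.Normal] (h : G ⧸ N) (x : G) (c : SA G) :
    comp N h (o x * c) = o x * comp N ((x : G ⧸ N)⁻¹ * h) c := by
  classical
  induction c using SA_induction with
  | h0 => simp
  | h2 a b ha hb => rw [mul_add, map_add, map_add, mul_add, ha, hb]
  | h1 y =>
    rw [← map_mul, comp_o, comp_o]
    have : ((x * y : G) : G ⧸ N) = h ↔ (y : G ⧸ N) = (x : G ⧸ N)⁻¹ * h := by
      rw [QuotientGroup.mk_mul, eq_inv_mul_iff_mul_eq]
    by_cases hh : (y : G ⧸ N) = (x : G ⧸ N)⁻¹ * h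
    · rw [if_pos (this.mpr hh), if_pos hh, map_mul]
    · rw [if_neg (fun h' => hh (this.mp h')), if_neg hh, mul_zero]

theorem comp_mul_o (N : Subgroup G) [N.Normal] (h : G ⧸ N) (x : G) (c : SA G) :
    comp N h (c * o x) = comp N (h * (x : G ⧸ N)⁻¹) c * o x := by
  classical
  induction c using SA_induction with
  | h0 => simp
  | h2 a b ha hb => rw [add_mul, map_add, map_add, add_mul, ha, hb]
  | h1 y =>
    rw [← map_mul, comp_o, comp_o]
    have : ((y * x : G) : G ⧸ N) = h ↔ (y : G ⧸ N) = h * (x : G ⧸ N)⁻¹ := by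
      rw [QuotientGroup.mk_mul, eq_mul_inv_iff_mul_eq]
    by_cases hh : (y : G ⧸ N) = h * (x : G ⧸ N)⁻¹
    · rw [if_pos (this.mpr hh), if_pos hh, map_mul]
    · rw [if_neg (fun h' => hh (this.mp h')), if_neg hh, zero_mul]

theorem comp_St (N : Subgroup G) [N.Normal] (h : G ⧸ N) (c : SA G) :
    comp N h (St c) = St (comp N h⁻¹ c) := by
  classical
  induction c using SA_induction with
  | h0 => simp
  | h2 a b ha hb => rw [map_add, map_add, map_add, map_add, ha, hb]
  | h1 y =>
    rw [St_o, comp_o, comp_o]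
    have : ((y⁻¹ : G) : G ⧸ N) = h ↔ (y : G ⧸ N) = h⁻¹ := by
      rw [QuotientGroup.mk_inv, inv_eq_iff_eq_inv]
    by_cases hh : (y : G ⧸ N) = h⁻¹
    · rw [if_pos (this.mpr hh), if_pos hh, St_o]
    · rw [if_neg (fun h' => hh (this.mp h')), if_neg hh, map_zero]

theorem comp_comp (N : Subgroup G) (h : G ⧸ N) (c : SA G) : comp N h (comp N h c) = comp N h c := by
  classical
  induction c using SA_induction with
  | h0 => simp
  | h2 a b ha hb => rw [map_add, map_add, ha, hb]
  | h1 y =>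
    rw [comp_o]
    by_cases hh : (y : G ⧸ N) = h
    · rw [if_pos hh, comp_o, if_pos hh]
    · rw [if_neg hh, map_zero]

/-- components of a product -/
theorem comp_mul (N : Subgroup G) [N.Normal] (h : G ⧸ N) (c c' : SA G) :
    ∃ F : Finset (G ⧸ N), ∀ F' : Finset (G ⧸ N), F ⊆ F' →
      comp N h (c * c') = ∑ k ∈ F', comp N k c * comp N (k⁻¹ * h) c' := by
  classical
  induction c using SA_induction with
  | h0 => exact ⟨∅, fun F' _ => by simp⟩
  | h1 x =>
    refine ⟨{(x : G ⧸ N)}, fun F' hF' => ?_⟩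
    simp_rw [comp_o, ite_mul, zero_mul]
    rw [Finset.sum_ite_eq, if_pos (hF' (Finset.mem_singleton_self _)), comp_o_mul]
  | h2 a b ha hb =>
    obtain ⟨F, hF⟩ := ha
    obtain ⟨F1, hF1⟩ := hb
    refine ⟨F ∪ F1, fun F' hF' => ?_⟩
    rw [add_mul, map_add, hF F' (Finset.union_subset_left hF'),
      hF1 F' (Finset.union_subset_right hF'), ← Finset.sum_add_distrib]
    exact Finset.sum_congr rfl fun k _ => by rw [map_add, add_mul]

end algebra

namespace Setup

variable {G V : Type*} [Group G] [AddCommGroup V] [Module (ZMod 2) V] (s : Setup G V)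

@[simp] theorem act_o (x : G) : s.act (o x) = s.ρ x := by
  simp [act, o]

theorem act_mul_apply (a b : SA G) (v : V) : s.act (a * b) v = s.act a (s.act b v) := by
  rw [map_mul]; rfl

theorem V_two (v : V) : v + v = 0 := by
  have h : (2 : ZMod 2) • v = v + v := two_smul _ v
  rw [← h, show (2 : ZMod 2) = 0 from by decide, zero_smul]

theorem cl_one : s.cl 1 = 0 := by
  have h := s.cl_mul 1 1
  rw [mul_one] at h
  exact left_eq_add.mp h

/-- the form is alternating -/
theorem b_self (v : V) : s.b v v = 0 := by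
  obtain ⟨r, rfl⟩ := s.cl_surj v
  have h := s.b_cl r r
  rw [commutatorElement_self] at h
  exact Additive.toMul.injective (Subtype.ext h)

theorem b_two (v v' : V) : s.b v v' + s.b v v' = 0 := by
  rw [← map_add, V_two, map_zero]

theorem b_symm (v v' : V) : s.b v v' = s.b v' v := by
  have h := s.b_self (v + v')
  simp only [map_add, AddMonoidHom.add_apply, b_self, zero_add, add_zero] at h
  have h2 := b_two s v v'
  have h3 : s.b v' v + s.b v v' = 0 := h
  have h1 : s.b v' v = - s.b v v' := eq_neg_of_add_eq_zero_left h3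
  rw [h1]
  exact eq_neg_of_add_eq_zero_left h2

/-- the form is invariant -/
theorem b_ρ (x : G) (v v' : V) : s.b (s.ρ x v) (s.ρ x v') = s.b v v' := by
  obtain ⟨r, rfl⟩ := s.cl_surj v
  obtain ⟨r', rfl⟩ := s.cl_surj v'
  have h1 := s.cl_conj x r ⟨x * r * x⁻¹, s.hR.conj_mem _ r.2 x⟩ rfl
  have h2 := s.cl_conj x r' ⟨x * r' * x⁻¹, s.hR.conj_mem _ r'.2 x⟩ rfl
  rw [← h1, ← h2]
  refine Additive.toMul.injective (Subtype.ext ?_)
  rw [s.b_cl, s.b_cl]
  have hc : ⁅(r : G), (r' : G)⁆ ∈ Subgroup.center G := by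
    rw [← s.b_cl]; exact Subtype.coe_prop _
  have h3 : ⁅x * (r : G) * x⁻¹, x * (r' : G) * x⁻¹⁆ = x * ⁅(r : G), (r' : G)⁆ * x⁻¹ := by
    rw [commutatorElement_def, commutatorElement_def]; group
  show ⁅x * (r : G) * x⁻¹, x * (r' : G) * x⁻¹⁆ = _
  rw [h3, (Subgroup.mem_center_iff.mp hc x), mul_inv_cancel_right]

theorem ρ_inv_left (x : G) (v : V) : s.ρ x⁻¹ (s.ρ x v) = v := by
  rw [← Module.End.mul_apply, ← map_mul, inv_mul_cancel, map_one]; rfl

/-- the adjoint -/
theorem b_act (c : SA G) (v v' : V) : s.b (s.act c v) v' = s.b v (s.act (St c) v') := by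
  induction c using SA_induction with
  | h0 => simp
  | h2 a a' ha ha' =>
    rw [map_add, LinearMap.add_apply, map_add, AddMonoidHom.add_apply, ha, ha', map_add, map_add,
      LinearMap.add_apply, map_add]
  | h1 x =>
    rw [St_o, act_o, act_o]
    have h := s.b_ρ x⁻¹ (s.ρ x v) v'
    rw [ρ_inv_left] at h
    exact h.symm

theorem b_act' (c : SA G) (v v' : V) : s.b v (s.act c v') = s.b (s.act (St c) v) v' := by
  rw [b_act, St_St]

theorem cl_inv (r : s.R) : s.cl r⁻¹ = s.cl r := by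
  have h := s.cl_mul r⁻¹ r
  rw [inv_mul_cancel, cl_one] at h
  have h1 : s.cl r⁻¹ = - s.cl r := by
    rw [eq_neg_iff_add_eq_zero]; exact h.symm
  rw [h1, neg_eq_iff_add_eq_zero]
  exact V_two _

/-- `R` acts trivially -/
theorem ρ_R {x : G} (hx : x ∈ s.R) : s.ρ x = 1 := by
  ext v
  obtain ⟨r, rfl⟩ := s.cl_surj v
  have h1 := s.cl_conj x r (⟨x, hx⟩ * r * ⟨x, hx⟩⁻¹) rfl
  rw [← h1, s.cl_mul, s.cl_mul, cl_inv, add_comm (s.cl ⟨x, hx⟩), add_assoc, V_two, add_zero]
  rfl

/-- the values of the form are commutators -/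
theorem b_mem (v v' : V) : ((s.b v v').toMul : G) ∈ commutatorSet G := by
  obtain ⟨r, rfl⟩ := s.cl_surj v
  obtain ⟨r', rfl⟩ := s.cl_surj v'
  rw [s.b_cl]
  exact ⟨r, r', rfl⟩

theorem clx_of {x : G} (hx : x ∈ s.R) : s.clx x = s.cl ⟨x, hx⟩ := by
  simp [clx, hx]

theorem clx_one : s.clx 1 = 0 := by
  rw [s.clx_of s.R.one_mem]
  exact s.cl_one

theorem clx_mul {x y : G} (hx : x ∈ s.R) (hy : y ∈ s.R) : s.clx (x * y) = s.clx x + s.clx y := by
  rw [s.clx_of hx, s.clx_of hy, s.clx_of (s.R.mul_mem hx hy), ← s.cl_mul]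
  rfl

theorem clx_inv {x : G} (hx : x ∈ s.R) : s.clx x⁻¹ = s.clx x := by
  rw [s.clx_of hx, s.clx_of (s.R.inv_mem hx), ← s.cl_inv ⟨x, hx⟩]
  rfl

theorem clx_conj (x : G) {y : G} (hy : y ∈ s.R) : s.clx (x * y * x⁻¹) = s.ρ x (s.clx y) := by
  rw [s.clx_of hy, s.clx_of (s.hR.conj_mem _ hy x)]
  exact s.cl_conj x ⟨y, hy⟩ _ rfl

theorem clx_surj (v : V) : ∃ x ∈ s.R, s.clx x = v := by
  obtain ⟨r, rfl⟩ := s.cl_surj v
  exact ⟨r, r.2, s.clx_of r.2⟩

/-- the form in terms of commutators -/
theorem b_clx {x y : G} (hx : x ∈ s.R) (hy : y ∈ s.R) :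
    ((s.b (s.clx x) (s.clx y)).toMul : G) = ⁅x, y⁆ := by
  rw [s.clx_of hx, s.clx_of hy, s.b_cl]

@[simp] theorem ev_nil : s.ev [] = 1 := by simp [ev]

@[simp] theorem ev_cons (x : Fin s.d) (w : List (Fin s.d)) : s.ev (x :: w) = s.g x * s.ev w := by
  simp [ev]

@[simp] theorem ev_append (w w' : List (Fin s.d)) : s.ev (w ++ w') = s.ev w * s.ev w' := by
  simp [ev]

/-- every group element is the value of a word -/
theorem ev_surj (x : G) : ∃ w : List (Fin s.d), s.ev w = x := by
  have hx : x ∈ Subgroup.closure (Set.range s.g) := by rw [s.gen]; exact Subgroup.mem_top x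
  induction hx using Subgroup.closure_induction'' with
  | mem x hx =>
    obtain ⟨i, rfl⟩ := hx
    exact ⟨[i], by simp⟩
  | inv_mem x hx =>
    obtain ⟨i, rfl⟩ := hx
    obtain ⟨j, hj⟩ := s.inv i
    exact ⟨[j], by simp [hj]⟩
  | one => exact ⟨[], by simp⟩
  | mul x y _ _ hx hy =>
    obtain ⟨w, rfl⟩ := hx
    obtain ⟨w', rfl⟩ := hy
    exact ⟨w ++ w', by simp⟩

theorem D_append (w w' : List (Fin s.d)) (j : Fin s.d) :
    s.D (w ++ w') j = s.D w j * o (s.ev w') + s.D w' j := by
  induction w with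
  | nil => simp [D]
  | cons x w ih =>
    rw [List.cons_append, D, D, ih, ev_append, add_mul, map_mul]
    by_cases h : j = x
    · rw [if_pos h, if_pos h]; abel
    · rw [if_neg h, if_neg h]; simp

theorem clw_append {w w' : List (Fin s.d)} (hw : s.ev w ∈ s.R) (hw' : s.ev w' ∈ s.R) :
    s.clw (w ++ w') = s.clw w + s.clw w' := by
  unfold clw
  rw [ev_append, s.clx_mul hw hw']

end Setup

end Pool.Agent.Lib.MP_c7b0ca_fe
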