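import Mathlib

/-!
ROW CL: the closure lemma (abstract, downward induction on the degree).
-/

namespace Pool.Agent.Lib.MP_c7b0ca_fe

private theorem closure_aux {E W : Type*} [AddCommGroup W] (z : E → W) (deg : E → ℕ)
    (S : List E → W) (Err : AddSubgroup W) (M : ℕ) (hS : ∀ L, S L + S L = 0)
    (hrec : ∀ e L, (∀ e' ∈ e :: L, deg e' < M) →
      S (e :: L) + S L + z e ∈
        AddSubgroup.closure {t | ∃ e', (deg e < deg e' ∧ deg e' < 2 * M) ∧ z e' = t})
    (herr : ∀ e, M ≤ deg e → deg e < 2 * M → z e ∈ Err) (k : ℕ) :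
    ∀ n : ℕ, 2 * M ≤ n + k → ∀ t ∈ AddSubgroup.closure {t | ∃ e, (n ≤ deg e ∧ deg e < 2 * M) ∧ z e = t},
      ∀ L : List E, (∀ e ∈ L, deg e < M) →
        ∃ L' : List E, (∀ e ∈ L', deg e < M) ∧ t + S L' + S L ∈ Err := by
  induction k with
  | zero =>
    intro n hn t ht L hL
    have hempty : {t | ∃ e, (n ≤ deg e ∧ deg e < 2 * M) ∧ z e = t} = (∅ : Set W) := by
      ext t
      constructor
      · rintro ⟨e, ⟨h1, h2⟩, _⟩; omega
      · intro h; exact absurd h (Set.notMem_empty t)
    rw [hempty, AddSubgroup.closure_empty, AddSubgroup.mem_bot] at ht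
    refine ⟨L, hL, ?_⟩
    rw [ht, zero_add, hS]
    exact Err.zero_mem
  | succ k ih =>
    intro n hn t ht
    induction ht using AddSubgroup.closure_induction with
    | mem t h =>
      intro L hL
      obtain ⟨e, ⟨h1, h2⟩, rfl⟩ := h
      rcases Nat.lt_or_ge (deg e) M with hlt | hge
      · have hL' : ∀ e' ∈ e :: L, deg e' < M := by
          intro e' he'
          rcases List.mem_cons.1 he' with rfl | he'
          · exact hlt
          · exact hL e' he'
        have hr := hrec e L hL'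
        have hr' : S (e :: L) + S L + z e ∈
            AddSubgroup.closure {t | ∃ e, (n + 1 ≤ deg e ∧ deg e < 2 * M) ∧ z e = t} := by
          refine AddSubgroup.closure_mono ?_ hr
          rintro t ⟨e', ⟨h3, h4⟩, rfl⟩
          exact ⟨e', ⟨by omega, h4⟩, rfl⟩
        obtain ⟨L', h5, h6⟩ := ih (n + 1) (by omega) _ hr' (e :: L) hL'
        refine ⟨L', h5, ?_⟩
        have e7 : z e + S L' + S L = S (e :: L) + S L + z e + S L' + S (e :: L) := by
          have := hS (e :: L)
          calc z e + S L' + S L = z e + S L' + S L + (S (e :: L) + S (e :: L)) := by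
                rw [this, add_zero]
            _ = _ := by abel
        rw [e7]; exact h6
      · refine ⟨L, hL, ?_⟩
        rw [add_assoc, hS, add_zero]
        exact herr e hge h2
    | zero =>
      intro L hL
      refine ⟨L, hL, ?_⟩
      rw [zero_add, hS]
      exact Err.zero_mem
    | add t₁ t₂ _ _ h1 h2 =>
      intro L hL
      obtain ⟨L1, h3, h4⟩ := h1 L hL
      obtain ⟨L2, h5, h6⟩ := h2 L1 h3
      refine ⟨L2, h5, ?_⟩
      have e7 : t₁ + t₂ + S L2 + S L = (t₁ + S L1 + S L) + (t₂ + S L2 + S L1) := by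
        have := hS L1
        calc t₁ + t₂ + S L2 + S L = t₁ + t₂ + S L2 + S L + (S L1 + S L1) := by
              rw [this, add_zero]
          _ = _ := by abel
      rw [e7]
      exact Err.add_mem h4 h6
    | neg t _ h1 =>
      intro L hL
      obtain ⟨L1, h3, h4⟩ := h1 L hL
      refine ⟨L1, h3, ?_⟩
      have n1 : - S L1 = S L1 := neg_eq_of_add_eq_zero_left (hS L1)
      have n2 : - S L = S L := neg_eq_of_add_eq_zero_left (hS L)
      have e7 : -t + S L1 + S L = -(t + S L1 + S L) := by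
        rw [neg_add, neg_add, n1, n2]
      rw [e7]
      exact Err.neg_mem h4

theorem closure_lemma {E W : Type*} [AddCommGroup W] (z : E → W) (deg : E → ℕ) (S : List E → W)
    (Err : AddSubgroup W) (M : ℕ) (h0 : S [] = 0) (hz : ∀ e, z e + z e = 0)
    (hS : ∀ L, S L + S L = 0)
    (hrec : ∀ e L, (∀ e' ∈ e :: L, deg e' < M) →
      S (e :: L) + S L + z e ∈
        AddSubgroup.closure {t | ∃ e', (deg e < deg e' ∧ deg e' < 2 * M) ∧ z e' = t})
    (herr : ∀ e, M ≤ deg e → deg e < 2 * M → z e ∈ Err) (t : W)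
    (ht : t ∈ AddSubgroup.closure {t | ∃ e, deg e < 2 * M ∧ z e = t}) :
    ∃ L : List E, (∀ e ∈ L, deg e < M) ∧ t + S L ∈ Err := by
  have ht' : t ∈ AddSubgroup.closure {t | ∃ e, (0 ≤ deg e ∧ deg e < 2 * M) ∧ z e = t} := by
    refine AddSubgroup.closure_mono ?_ ht
    rintro t ⟨e, h, rfl⟩
    exact ⟨e, ⟨Nat.zero_le _, h⟩, rfl⟩
  obtain ⟨L', h1, h2⟩ := closure_aux z deg S Err M hS hrec herr (2 * M) 0 (by omega) t ht' []
    (by intro e he; exact absurd he (List.not_mem_nil))
  refine ⟨L', h1, ?_⟩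
  rwa [h0, add_zero] at h2

end Pool.Agent.Lib.MP_c7b0ca_fe
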