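import Pool.Agent.Lib.MP_c7b0ca_fe.B0

/-!
ROW TT: word balls `T m`, the subgroups `Nb m`, positions `q x`, supports.
-/

open scoped Pointwise commutatorElement

namespace Pool.Agent.Lib.MP_c7b0ca_fe

theorem comp_mem_Sp {G : Type*} [Group G] (N : Subgroup G) (h : G ⧸ N) {X : Set G} {c : SA G}
    (hc : c ∈ Sp X) : comp N h c ∈ Sp (X ∩ {x | (x : G ⧸ N) = h}) := by
  classical
  refine Submodule.span_induction
    (p := fun c _ => comp N h c ∈ Sp (X ∩ {x | (x : G ⧸ N) = h})) ?_ ?_ ?_ ?_ hc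
  · rintro _ ⟨x, hx, rfl⟩
    rw [comp_o]
    split_ifs with h1
    · exact Submodule.subset_span ⟨x, ⟨hx, h1⟩, rfl⟩
    · exact Submodule.zero_mem _
  · rw [map_zero]
    exact Submodule.zero_mem _
  · intro a b _ _ ha hb
    rw [map_add]
    exact Submodule.add_mem _ ha hb
  · intro r a _ ha
    rw [ZMod.map_smul]
    exact Submodule.smul_mem _ _ ha

theorem Sp_mono {G : Type*} [Group G] {X Y : Set G} (h : X ⊆ Y) : Sp X ≤ Sp Y :=
  Submodule.span_mono fun _ ⟨x, hx, e⟩ => ⟨x, h hx, e⟩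

theorem Sp_mul {G : Type*} [Group G] {X Y Z : Set G} (h : ∀ x ∈ X, ∀ y ∈ Y, x * y ∈ Z)
    {a b : SA G} (ha : a ∈ Sp X) (hb : b ∈ Sp Y) : a * b ∈ Sp Z := by
  have h1 : a * b ∈ Sp X * Sp Y := Submodule.mul_mem_mul ha hb
  unfold Sp at h1
  rw [Submodule.span_mul_span] at h1
  refine Submodule.span_le.2 ?_ h1
  rintro _ ⟨_, ⟨x, hx, rfl⟩, _, ⟨y, hy, rfl⟩, rfl⟩
  refine Submodule.subset_span ⟨x * y, h x hx y hy, ?_⟩
  show o x * o y = o (x * y)
  rw [map_mul]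

theorem St_mem_Sp {G : Type*} [Group G] {X Y : Set G} (h : ∀ x ∈ X, x⁻¹ ∈ Y)
    {a : SA G} (ha : a ∈ Sp X) : St a ∈ Sp Y := by
  have h1 : Sp X ≤ (Sp Y).comap St := by
    refine Submodule.span_le.2 ?_
    rintro _ ⟨x, hx, rfl⟩
    show St (o x) ∈ Sp Y
    rw [St_o]
    exact Submodule.subset_span ⟨_, h x hx, rfl⟩
  exact h1 ha

private theorem o_mem_Sp {G : Type*} [Group G] {X : Set G} {x : G} (hx : x ∈ X) : o x ∈ Sp X :=
  Submodule.subset_span ⟨x, hx, rfl⟩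

private theorem prod_add_of_comm {Q : Type*} [Group Q] (hQ : ∀ x y : Q, x * y = y * x) {d : ℕ}
    (f : Fin d → Q) (x y : Fin d → ℤ) :
    (List.ofFn fun i => f i ^ (x + y) i).prod =
      (List.ofFn fun i => f i ^ x i).prod * (List.ofFn fun i => f i ^ y i).prod := by
  let _ : CommGroup Q := { ‹Group Q› with mul_comm := hQ }
  rw [List.prod_ofFn, List.prod_ofFn, List.prod_ofFn, ← Finset.prod_mul_distrib]
  exact Finset.prod_congr rfl fun i _ => zpow_add _ _ _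

private theorem prod_single_of_comm {Q : Type*} [Group Q] (hQ : ∀ x y : Q, x * y = y * x) {d : ℕ}
    (f : Fin d → Q) (j : Fin d) :
    (List.ofFn fun i => f i ^ (Pi.single j 1 : Fin d → ℤ) i).prod = f j := by
  let _ : CommGroup Q := { ‹Group Q› with mul_comm := hQ }
  rw [List.prod_ofFn, Finset.prod_eq_single j]
  · simp
  · intro i _ hij
    simp [hij]
  · intro h
    exact absurd (Finset.mem_univ j) h

private theorem add_aug_mem {G : Type*} [Group G] (K : Subgroup G) {c : SA G}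
    (hc : c ∈ Sp (K : Set G)) :
    c + algebraMap (ZMod 2) (SA G) (aug c) ∈
      Submodule.span (ZMod 2) {c : SA G | ∃ x ∈ K, c = o x + 1} := by
  refine Submodule.span_induction
    (p := fun c _ => c + algebraMap (ZMod 2) (SA G) (aug c) ∈
      Submodule.span (ZMod 2) {c : SA G | ∃ x ∈ K, c = o x + 1}) ?_ ?_ ?_ ?_ hc
  · rintro _ ⟨x, hx, rfl⟩
    rw [aug_o, map_one]
    exact Submodule.subset_span ⟨x, hx, rfl⟩
  · rw [map_zero, map_zero, add_zero]
    exact Submodule.zero_mem _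
  · intro a b _ _ ha hb
    have e : a + b + algebraMap (ZMod 2) (SA G) (aug (a + b)) =
        (a + algebraMap (ZMod 2) (SA G) (aug a)) + (b + algebraMap (ZMod 2) (SA G) (aug b)) := by
      rw [map_add, map_add]
      abel
    rw [e]
    exact Submodule.add_mem _ ha hb
  · intro r a _ ha
    have e : r • a + algebraMap (ZMod 2) (SA G) (aug (r • a)) =
        r • (a + algebraMap (ZMod 2) (SA G) (aug a)) := by
      rw [map_smul, smul_add, smul_eq_mul, map_mul, Algebra.smul_def r (algebraMap _ _ _)]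
    rw [e]
    exact Submodule.smul_mem _ _ ha

namespace Setup

variable {G V : Type*} [Group G] [AddCommGroup V] [Module (ZMod 2) V] (s : Setup G V)

theorem T_mono {m n : ℕ} (h : m ≤ n) : s.T m ⊆ s.T n :=
  fun _ ⟨w, hw, e⟩ => ⟨w, hw.trans h, e⟩

theorem one_mem_T (m : ℕ) : (1 : G) ∈ s.T m := ⟨[], Nat.zero_le _, s.ev_nil⟩

theorem mul_mem_T {m n : ℕ} {x y : G} (hx : x ∈ s.T m) (hy : y ∈ s.T n) : x * y ∈ s.T (m + n) := by
  obtain ⟨w, hw, rfl⟩ := hx
  obtain ⟨w', hw', rfl⟩ := hy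
  refine ⟨w ++ w', ?_, s.ev_append w w'⟩
  rw [List.length_append]
  omega

private theorem exists_inv_word (w : List (Fin s.d)) :
    ∃ w' : List (Fin s.d), w'.length = w.length ∧ s.ev w' = (s.ev w)⁻¹ := by
  induction w with
  | nil => exact ⟨[], rfl, by simp⟩
  | cons x w ih =>
    obtain ⟨w', h1, h2⟩ := ih
    obtain ⟨j, hj⟩ := s.inv x
    refine ⟨w' ++ [j], by simp [h1], ?_⟩
    rw [ev_append, h2, ev_cons, ev_cons, ev_nil, mul_one, hj, mul_inv_rev]

theorem inv_mem_T {m : ℕ} {x : G} (hx : x ∈ s.T m) : x⁻¹ ∈ s.T m := by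
  obtain ⟨w, hw, rfl⟩ := hx
  obtain ⟨w', h1, h2⟩ := s.exists_inv_word w
  exact ⟨w', by omega, h2⟩

theorem g_mem_T (i : Fin s.d) : s.g i ∈ s.T 1 := ⟨[i], by simp, by simp⟩

theorem ev_mem_T (w : List (Fin s.d)) : s.ev w ∈ s.T w.length := ⟨w, le_rfl, rfl⟩

private theorem pow_mem_T {x : G} (hx : x ∈ s.T 1) (n : ℕ) : x ^ n ∈ s.T n := by
  induction n with
  | zero => rw [pow_zero]; exact s.one_mem_T 0
  | succ n ih => rw [pow_succ]; exact s.mul_mem_T ih hx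

private theorem zpow_mem_T {x : G} (hx : x ∈ s.T 1) {n : ℤ} {m : ℕ} (h : |n| ≤ (m : ℤ)) :
    x ^ n ∈ s.T m := by
  obtain ⟨k, rfl | rfl⟩ := n.eq_nat_or_neg
  · rw [zpow_natCast]
    refine s.T_mono ?_ (s.pow_mem_T hx k)
    rw [Nat.abs_cast] at h
    exact_mod_cast h
  · rw [zpow_neg, zpow_natCast]
    refine s.T_mono ?_ (s.inv_mem_T (s.pow_mem_T hx k))
    rw [abs_neg, Nat.abs_cast] at h
    exact_mod_cast h

private theorem prod_mem_T {m : ℕ} (l : List G) (h : ∀ x ∈ l, x ∈ s.T m) :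
    l.prod ∈ s.T (l.length * m) := by
  induction l with
  | nil => exact s.one_mem_T _
  | cons x l ih =>
    rw [List.prod_cons, List.length_cons]
    have h1 := s.mul_mem_T (h x (by simp)) (ih fun y hy => h y (by simp [hy]))
    refine s.T_mono (le_of_eq ?_) h1
    ring

theorem q_mem_T {x : Fin s.d → ℤ} {m : ℕ} (hx : ∀ i, |x i| ≤ (m : ℤ)) : s.q x ∈ s.T (s.d * m) := by
  have h := s.prod_mem_T (m := m) (List.ofFn fun i => s.g i ^ x i) (by
    intro y hy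
    rw [List.mem_ofFn] at hy
    obtain ⟨i, rfl⟩ := hy
    exact s.zpow_mem_T (s.g_mem_T i) (hx i))
  rw [List.length_ofFn] at h
  exact h

theorem Nb_mono {m n : ℕ} (h : m ≤ n) : s.Nb m ≤ s.Nb n :=
  Subgroup.closure_mono (Set.inter_subset_inter_right _ (s.T_mono h))

theorem mem_Nb {m : ℕ} {x : G} (hN : x ∈ s.N) (hx : x ∈ s.T m) : x ∈ s.Nb m :=
  Subgroup.subset_closure ⟨hN, hx⟩

theorem Nb_le (m : ℕ) : s.Nb m ≤ s.N :=
  (Subgroup.closure_le _).2 Set.inter_subset_left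

theorem conj_mem_Nb {m n : ℕ} {t y : G} (ht : t ∈ s.T n) (hy : y ∈ s.Nb m) :
    t * y * t⁻¹ ∈ s.Nb (m + 2 * n) := by
  refine Subgroup.closure_induction (p := fun y _ => t * y * t⁻¹ ∈ s.Nb (m + 2 * n))
    ?_ ?_ ?_ ?_ hy
  · intro x hx
    refine s.mem_Nb (s.hN.conj_mem x hx.1 t) ?_
    refine s.T_mono (le_of_eq ?_) (s.mul_mem_T (s.mul_mem_T ht hx.2) (s.inv_mem_T ht))
    ring
  · rw [mul_one, mul_inv_cancel]
    exact Subgroup.one_mem _
  · intro x y _ _ hx hy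
    have e : t * (x * y) * t⁻¹ = (t * x * t⁻¹) * (t * y * t⁻¹) := by group
    rw [e]
    exact Subgroup.mul_mem _ hx hy
  · intro x _ hx
    have e : t * x⁻¹ * t⁻¹ = (t * x * t⁻¹)⁻¹ := by group
    rw [e]
    exact Subgroup.inv_mem _ hx

theorem quot_comm (x y : G ⧸ s.N) : x * y = y * x := by
  obtain ⟨x, rfl⟩ := QuotientGroup.mk_surjective x
  obtain ⟨y, rfl⟩ := QuotientGroup.mk_surjective y
  rw [← QuotientGroup.mk_mul, ← QuotientGroup.mk_mul, QuotientGroup.eq]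
  have e : (x * y)⁻¹ * (y * x) = ⁅y⁻¹, x⁻¹⁆ := by
    rw [commutatorElement_def]
    group
  rw [e]
  exact s.comm (Subgroup.commutator_mem_commutator (Subgroup.mem_top _) (Subgroup.mem_top _))

theorem q_zero : s.q 0 = 1 := by
  simp [q, List.ofFn_const]

private theorem mk_q (x : Fin s.d → ℤ) :
    (s.q x : G ⧸ s.N) = (List.ofFn fun i => (s.g i : G ⧸ s.N) ^ x i).prod := by
  have h := map_list_prod (QuotientGroup.mk' s.N) (List.ofFn fun i => s.g i ^ x i)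
  rw [List.map_ofFn] at h
  exact h

theorem q_add (x y : Fin s.d → ℤ) :
    (s.q (x + y) : G ⧸ s.N) = (s.q x : G ⧸ s.N) * (s.q y : G ⧸ s.N) := by
  rw [mk_q, mk_q, mk_q]
  exact prod_add_of_comm s.quot_comm _ x y

theorem q_neg (x : Fin s.d → ℤ) : (s.q (-x) : G ⧸ s.N) = (s.q x : G ⧸ s.N)⁻¹ := by
  refine eq_inv_of_mul_eq_one_right ?_
  rw [← q_add, add_neg_cancel, q_zero]
  rfl

private theorem exists_pos_word (w : List (Fin s.d)) :
    ∃ y : Fin s.d → ℤ, (∀ i, |y i| ≤ (w.length : ℤ)) ∧ (s.q y : G ⧸ s.N) = (s.ev w : G ⧸ s.N) := by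
  induction w with
  | nil => exact ⟨0, fun i => by simp, by rw [q_zero, ev_nil]⟩
  | cons x w ih =>
    obtain ⟨y, h1, h2⟩ := ih
    refine ⟨Pi.single x 1 + y, ?_, ?_⟩
    · intro i
      have h3 : |(Pi.single x 1 : Fin s.d → ℤ) i| ≤ 1 := by
        by_cases hi : i = x
        · subst hi
          simp
        · simp [hi]
      have h4 := abs_add_le ((Pi.single x 1 : Fin s.d → ℤ) i) (y i)
      have h5 := h1 i
      rw [List.length_cons]
      push_cast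
      rw [Pi.add_apply]
      linarith
    · rw [q_add, h2, ev_cons, QuotientGroup.mk_mul, mk_q,
        prod_single_of_comm s.quot_comm (fun i => (s.g i : G ⧸ s.N)) x]

theorem exists_pos {m : ℕ} {t : G} (ht : t ∈ s.T m) :
    ∃ y : Fin s.d → ℤ, (∀ i, |y i| ≤ (m : ℤ)) ∧ (s.q y : G ⧸ s.N) = (t : G ⧸ s.N) := by
  obtain ⟨w, hw, rfl⟩ := ht
  obtain ⟨y, h1, h2⟩ := s.exists_pos_word w
  exact ⟨y, fun i => (h1 i).trans (by exact_mod_cast hw), h2⟩

theorem D_mem_Sp (w : List (Fin s.d)) (j : Fin s.d) : s.D w j ∈ Sp (s.T w.length) := by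
  induction w with
  | nil => exact Submodule.zero_mem _
  | cons x w ih =>
    show s.D w j + (if j = x then o (s.ev w) else 0) ∈ Sp (s.T (w.length + 1))
    have h1 : Sp (s.T w.length) ≤ Sp (s.T (w.length + 1)) := Sp_mono (s.T_mono (Nat.le_succ _))
    refine Submodule.add_mem _ (h1 ih) ?_
    split_ifs
    · exact h1 (o_mem_Sp (s.ev_mem_T w))
    · exact Submodule.zero_mem _

theorem theta_mem_Sp (j l : Fin s.d) : s.θ j l ∈ Sp (s.T 2) := by
  have h1 : (1 : SA G) ∈ Sp (s.T 1) := by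
    rw [← map_one (o : G →* SA G)]
    exact o_mem_Sp (s.one_mem_T 1)
  have h2 : ∀ x ∈ s.T 1, 1 + o x ∈ Sp (s.T 1) := fun x hx =>
    Submodule.add_mem _ h1 (o_mem_Sp hx)
  have h3 : 1 + o (s.g j)⁻¹ ∈ Sp (s.T 1) := h2 _ (s.inv_mem_T (s.g_mem_T j))
  have h4 : 1 + o (s.g l) ∈ Sp (s.T 1) := h2 _ (s.g_mem_T l)
  have h5 : (1 + o (s.g j)⁻¹) * (1 + o (s.g l)) ∈ Sp (s.T (1 + 1)) :=
    Sp_mul (X := s.T 1) (Y := s.T 1) (Z := s.T (1 + 1)) (fun x hx y hy => s.mul_mem_T hx hy) h3 h4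
  have h6 : 1 + o (s.g j)⁻¹ ∈ Sp (s.T 2) := Sp_mono (s.T_mono one_le_two) h3
  unfold θ
  split_ifs
  · exact h5
  · exact h6
  · exact Submodule.zero_mem _

theorem eta_mem_Sp (w : List (Fin s.d)) : s.η w ∈ Sp (s.T (2 * w.length + 2)) := by
  induction w with
  | nil => exact Submodule.zero_mem _
  | cons x w ih =>
    show s.η w + ∑ j, St (s.D w j) * s.θ j x * o (s.ev w) ∈ Sp (s.T (2 * (w.length + 1) + 2))
    refine Submodule.add_mem _ (Sp_mono (s.T_mono (by omega)) ih) ?_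
    refine Submodule.sum_mem _ fun j _ => ?_
    have h1 : St (s.D w j) ∈ Sp (s.T w.length) :=
      St_mem_Sp (fun y hy => s.inv_mem_T hy) (s.D_mem_Sp w j)
    have h2 : St (s.D w j) * s.θ j x ∈ Sp (s.T (w.length + 2)) :=
      Sp_mul (fun x hx y hy => s.mul_mem_T hx hy) h1 (s.theta_mem_Sp j x)
    have h3 : St (s.D w j) * s.θ j x * o (s.ev w) ∈ Sp (s.T (w.length + 2 + w.length)) :=
      Sp_mul (fun x hx y hy => s.mul_mem_T hx hy) h2 (o_mem_Sp (s.ev_mem_T w))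
    exact Sp_mono (s.T_mono (by omega)) h3

theorem factor {c : SA G} {m m' : ℕ} {t : G} (ht : t ∈ s.T m')
    (hc : c ∈ Sp (s.T m ∩ {x | (x : G ⧸ s.N) = (t : G ⧸ s.N)})) (ha : aug c = 0) :
    ∃ δ ∈ Dl (s.Nb (m + m')) 1, c = δ * o t := by
  have h1 : c * o t⁻¹ ∈ Sp ((s.Nb (m + m') : Subgroup G) : Set G) := by
    refine Sp_mul (Y := {t⁻¹}) ?_ hc (o_mem_Sp (Set.mem_singleton _))
    rintro x ⟨hx, hxt⟩ y hy
    rw [Set.mem_singleton_iff] at hy
    rw [hy]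
    refine s.mem_Nb ?_ (s.mul_mem_T hx (s.inv_mem_T ht))
    have hxt' : (x : G ⧸ s.N) = (t : G ⧸ s.N) := hxt
    rw [← QuotientGroup.eq_one_iff, QuotientGroup.mk_mul, hxt', ← QuotientGroup.mk_mul,
      mul_inv_cancel]
    rfl
  have h2 : aug (c * o t⁻¹) = 0 := by
    rw [map_mul, ha, zero_mul]
  have h3 := add_aug_mem _ h1
  rw [h2, map_zero, add_zero] at h3
  refine ⟨c * o t⁻¹, ?_, ?_⟩
  · unfold Dl
    rw [pow_one]
    have h4 := Submodule.mul_mem_mul h3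
      (o_mem_Sp (Subgroup.one_mem (s.Nb (m + m'))) : o (1 : G) ∈ Sp ((s.Nb (m + m') : Set G)))
    rw [map_one, mul_one] at h4
    exact h4
  · rw [mul_assoc, ← map_mul, inv_mul_cancel, map_one, mul_one]

end Setup

end Pool.Agent.Lib.MP_c7b0ca_fe
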