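import Pool.Agent.Lib.MP_c7b0ca_fe.DL
import Pool.Agent.Lib.MP_c7b0ca_fe.TT

/-!
ROW CO (core lemma): a good coefficient between two elements of the same label gives elements of
degree `e.n + e'.n`.

PROOF. `b_symm`, `b_act` and the symmetry of `Gd` under `St` (below, `Gd_St`) allow to assume
`e'.n ≤ e.n`: `b (v, c v') = b (St c v, v') = b (v', St c v)`.
By additivity (`AddSubgroup.closure_induction`; `Gd` is a closure) let `c = m * o (q y)`,
`m ∈ Dl (Nb M) 1`, `|y i| ≤ L`. With `C = e.a * o (q x)`, `C' = e'.a * o (q x')`: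
`b (e.v, c e'.v) = b (St C l, c (St C') l') = b (l, C c (St C') l')` and, `x'' = x + y - x'`,
`C c St C' = [a * (o q_x * m * o q_x⁻¹) * o n₃ * (o q_{x''} * St a' * o q_{x''}⁻¹)] * o q_{x''}`,
`n₃ = q_x * q_y * q_{x'}⁻¹ * q_{x''}⁻¹ ∈ N` (`q_add`, `q_neg`, `quot_comm`).
Same label: `|x i - x' i| ≤ 2 L`, so `|x'' i| ≤ 3 L`. Radii: `q_x ∈ T (3 d L)`, conj. of `m` is in
`Dl (Nb (M + 6 d L)) 1`, `n₃ ∈ Nb (10 d L)`, the last factor in `Dl (Nb (r n' + 6 d L)) (n'-1)`;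
`M + 6 d L ≤ m1`, `10 d L ≤ m1` (`Par.hm1`), `r n' + 6 d L ≤ r (n + n')` since
`Nat.log 2 (n + n') ≥ Nat.log 2 (2 n') = Nat.log 2 n' + 1`. The bracket is in
`Dl (Nb (r (n+n'))) (n - 1 + 1 + 0 + (n' - 1))` and `n - 1 + 1 + (n' - 1) = n + n' - 1`.
The new element is `(l := e.l, w := e'.l, a := [..], x := x'', n := n + n')`, its value is
`b (clw e.l) (act ([..] * o q_{x''}) (clw e'.l))`.
`Gd_St`: `St (m * o q_y) = o q_y⁻¹ * St m = (o q_y⁻¹ * St m * o q_y) * o (q_y⁻¹ * q_{-y}⁻¹) * o q_{-y}`; the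
radius grows, so prove the core lemma for `e'.n ≤ e.n` for the larger class of coefficients
`m * o (q y)` with `m ∈ Dl (Nb (M + 4 d L)) 1`, to which `St Gd` belongs
(`M + 4 d L + 6 d L ≤ m1` is still true).
-/

open scoped Pointwise commutatorElement

namespace Pool.Agent.Lib.MP_c7b0ca_fe

variable {G V : Type*} [Group G] [AddCommGroup V] [Module (ZMod 2) V] {s : Setup G V}

private theorem co_rmono (P : Par s) {m n : ℕ} (h : m ≤ n) : P.r m ≤ P.r n := by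
  unfold Par.r
  exact Nat.add_le_add_left (Nat.mul_le_mul_left _ (Nat.log_mono_right h)) _

private theorem co_m1 (P : Par s) (n : ℕ) : P.m1 ≤ P.r n := Nat.le_add_right _ _

private theorem co_rad (P : Par s) : P.M + 4 * (s.d * P.L) + 6 * (s.d * P.L) ≤ P.m1 := by
  refine le_trans ?_ P.hm1
  unfold Par.M Par.L
  have h : s.d * (2 * P.L0 + 2) = 2 * (s.d * (P.L0 + 1)) := by ring
  rw [h]
  have h2 : 10 * (s.d + 1) * (P.L0 + 1) = 10 * (s.d * (P.L0 + 1)) + 10 * (P.L0 + 1) := by ring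
  have h3 : 100 * (s.d + 1) * (P.L0 + 1) = 100 * (s.d * (P.L0 + 1)) + 100 * (P.L0 + 1) := by ring
  rw [h2, h3]
  omega

private theorem co_log (P : Par s) {n n' : ℕ} (hn' : 1 ≤ n') (h : n' ≤ n) :
    P.r n' + 6 * (s.d * P.L) ≤ P.r (n + n') := by
  unfold Par.r
  have h1 : Nat.log 2 n' + 1 ≤ Nat.log 2 (n + n') := by
    have h2 : Nat.log 2 (n' * 2) = Nat.log 2 n' + 1 := Nat.log_mul_base (by norm_num) (by omega)
    rw [← h2]
    exact Nat.log_mono_right (by omega)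
  have h3 := Nat.mul_le_mul_left (6 * s.d * P.L) h1
  have h4 : 6 * s.d * P.L * (Nat.log 2 n' + 1) = 6 * s.d * P.L * Nat.log 2 n' + 6 * (s.d * P.L) := by
    ring
  rw [h4] at h3
  omega

private theorem co_lab (P : Par s) {x x' : Fin s.d → ℤ} (hx : ∀ i, |x i| ≤ 3 * P.L)
    (hx' : ∀ i, |x' i| ≤ 3 * P.L) (h : s.lab P.L x = s.lab P.L x') (i : Fin s.d) :
    |x i - x' i| ≤ 2 * P.L := by
  have h1 := congrFun h i
  unfold Setup.lab at h1
  have h2 := abs_le.1 (hx i)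
  have h3 := abs_le.1 (hx' i)
  rw [abs_le]
  split_ifs at h1 <;> first
    | (exact absurd h1 (by decide))
    | (constructor <;> omega)

private theorem co_core (P : Par s) (e e' : Elt P) (h : e.lb = e'.lb) (hle : e'.n ≤ e.n)
    {m : SA G} (hm : m ∈ Dl (s.Nb (P.M + 4 * (s.d * P.L))) 1) {y : Fin s.d → ℤ}
    (hy : ∀ i, |y i| ≤ (P.L : ℤ)) :
    s.b e.v (s.act (m * o (s.q y)) e'.v) ∈ ZZ P (fun m => m = e.n + e'.n) := by
  obtain ⟨x'', hx''⟩ : ∃ x'' : Fin s.d → ℤ, x'' = e.x + y - e'.x := ⟨_, rfl⟩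
  obtain ⟨n₃, hn₃⟩ : ∃ n₃ : G, n₃ = s.q e.x * s.q y * (s.q e'.x)⁻¹ * (s.q x'')⁻¹ := ⟨_, rfl⟩
  have hx3 : ∀ i, |x'' i| ≤ 3 * P.L := by
    intro i
    have h1 := abs_le.1 (co_lab P e.hx e'.hx h i)
    have h2 := abs_le.1 (hy i)
    rw [hx'', abs_le]
    simp only [Pi.sub_apply, Pi.add_apply]
    constructor <;> omega
  -- positions in the balls
  have hqx : s.q e.x ∈ s.T (3 * (s.d * P.L)) := by
    have := s.q_mem_T (x := e.x) (m := 3 * P.L) (by intro i; push_cast; exact e.hx i)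
    rwa [show s.d * (3 * P.L) = 3 * (s.d * P.L) by ring] at this
  have hqx' : s.q e'.x ∈ s.T (3 * (s.d * P.L)) := by
    have := s.q_mem_T (x := e'.x) (m := 3 * P.L) (by intro i; push_cast; exact e'.hx i)
    rwa [show s.d * (3 * P.L) = 3 * (s.d * P.L) by ring] at this
  have hqx'' : s.q x'' ∈ s.T (3 * (s.d * P.L)) := by
    have := s.q_mem_T (x := x'') (m := 3 * P.L) (by intro i; push_cast; exact hx3 i)
    rwa [show s.d * (3 * P.L) = 3 * (s.d * P.L) by ring] at this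
  have hqy : s.q y ∈ s.T (s.d * P.L) := s.q_mem_T hy
  have hn₃N : n₃ ∈ s.N := by
    rw [← QuotientGroup.eq_one_iff, hn₃]
    have hq : ((s.q x'' : G) : G ⧸ s.N) = (s.q e.x : G ⧸ s.N) * (s.q y : G ⧸ s.N) *
        (s.q e'.x : G ⧸ s.N)⁻¹ := by
      rw [hx'', sub_eq_add_neg, s.q_add, s.q_add, s.q_neg]
    rw [QuotientGroup.mk_mul, QuotientGroup.mk_inv, hq, QuotientGroup.mk_mul, QuotientGroup.mk_inv,
      QuotientGroup.mk_mul, mul_inv_cancel]
  have hn₃T : n₃ ∈ s.T (10 * (s.d * P.L)) := by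
    rw [hn₃]
    have := s.mul_mem_T (s.mul_mem_T (s.mul_mem_T hqx hqy) (s.inv_mem_T hqx')) (s.inv_mem_T hqx'')
    rwa [show 3 * (s.d * P.L) + s.d * P.L + 3 * (s.d * P.L) + 3 * (s.d * P.L) =
      10 * (s.d * P.L) by ring] at this
  -- the coefficient
  obtain ⟨R, hR⟩ : ∃ R, R = P.r (e.n + e'.n) := ⟨_, rfl⟩
  have hm1 := co_m1 P (e.n + e'.n)
  have hrad := co_rad P
  have ha : e.a ∈ Dl (s.Nb R) (e.n - 1) := by
    refine Dl_mono (s.Nb_mono ?_) _ e.ha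
    rw [hR]
    exact co_rmono P (Nat.le_add_right _ _)
  have hmc : o (s.q e.x) * m * o (s.q e.x)⁻¹ ∈ Dl (s.Nb R) 1 := by
    refine conj_mem_Dl (s.q e.x) ?_ hm
    intro z hz
    refine s.Nb_mono ?_ (s.conj_mem_Nb hqx hz)
    rw [hR]
    omega
  have hno : o n₃ ∈ Dl (s.Nb R) 0 := by
    refine o_mem_Dl (s.Nb_mono ?_ (s.mem_Nb hn₃N hn₃T))
    rw [hR]
    omega
  have hac : o (s.q x'') * St e'.a * o (s.q x'')⁻¹ ∈ Dl (s.Nb R) (e'.n - 1) := by
    refine conj_mem_Dl (s.q x'') ?_ (St_mem_Dl e'.ha)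
    intro z hz
    refine s.Nb_mono ?_ (s.conj_mem_Nb hqx'' hz)
    rw [hR]
    have := co_log P e'.hn hle
    omega
  have hn := e.hn
  have hn' := e'.hn
  obtain ⟨A, hA⟩ : ∃ A : SA G, A = e.a * (o (s.q e.x) * m * o (s.q e.x)⁻¹) * o n₃ *
      (o (s.q x'') * St e'.a * o (s.q x'')⁻¹) := ⟨_, rfl⟩
  have hAD : A ∈ Dl (s.Nb (P.r (e.n + e'.n))) (e.n + e'.n - 1) := by
    have h1 := Dl_mul (Dl_mul (Dl_mul ha hmc) hno) hac
    rw [← hA, hR] at h1
    rwa [show e.n - 1 + 1 + 0 + (e'.n - 1) = e.n + e'.n - 1 by omega] at h1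
  have hAe : e.a * o (s.q e.x) * (m * o (s.q y) * St (e'.a * o (s.q e'.x))) = A * o (s.q x'') := by
    have e1 : o (s.q e.x) * o (s.q y) * o (s.q e'.x)⁻¹ = o n₃ * o (s.q x'') := by
      rw [← map_mul, ← map_mul, ← map_mul, hn₃, inv_mul_cancel_right]
    have e2 : (o (s.q x'')⁻¹ : SA G) * o (s.q x'') = 1 := by
      rw [← map_mul, inv_mul_cancel, map_one]
    have e3 : (o (s.q e.x)⁻¹ : SA G) * o (s.q e.x) = 1 := by
      rw [← map_mul, inv_mul_cancel, map_one]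
    rw [St_mul, St_o, hA]
    calc e.a * o (s.q e.x) * (m * o (s.q y) * (o (s.q e'.x)⁻¹ * St e'.a))
        = e.a * (o (s.q e.x) * m) * (1 * (o (s.q y) * o (s.q e'.x)⁻¹)) * St e'.a := by
          simp only [mul_assoc, one_mul]
      _ = e.a * (o (s.q e.x) * m) * (o (s.q e.x)⁻¹ * (o (s.q e.x) * o (s.q y) *
            o (s.q e'.x)⁻¹)) * St e'.a := by
          rw [← e3]
          simp only [mul_assoc]
      _ = e.a * (o (s.q e.x) * m) * (o (s.q e.x)⁻¹ * (o n₃ * o (s.q x''))) * St e'.a * 1 := by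
          rw [e1, mul_one]
      _ = _ := by
          rw [← e2]
          simp only [mul_assoc]
  refine AddSubgroup.subset_closure ⟨⟨e.l, e'.l, A, x'', e.n + e'.n, e.hl, e'.hl, by omega, hAD,
    hx3⟩, rfl, ?_⟩
  change s.b (s.clw e.l) (s.act (A * o (s.q x'')) (s.clw e'.l)) = _
  unfold Elt.v
  rw [s.b_act, St_St, ← s.act_mul_apply, ← s.act_mul_apply, ← hAe, mul_assoc (e.a * o (s.q e.x))]

private theorem co_St (P : Par s) {m : SA G} (hm : m ∈ Dl (s.Nb P.M) 1) {y : Fin s.d → ℤ}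
    (hy : ∀ i, |y i| ≤ (P.L : ℤ)) : ∃ m' ∈ Dl (s.Nb (P.M + 4 * (s.d * P.L))) 1,
      St (m * o (s.q y)) = m' * o (s.q (-y)) := by
  have hqy : s.q y ∈ s.T (s.d * P.L) := s.q_mem_T hy
  have hqny : s.q (-y) ∈ s.T (s.d * P.L) := s.q_mem_T (by
    intro i
    rw [Pi.neg_apply, abs_neg]
    exact hy i)
  have hN : (s.q y)⁻¹ * (s.q (-y))⁻¹ ∈ s.N := by
    rw [← QuotientGroup.eq_one_iff, QuotientGroup.mk_mul, QuotientGroup.mk_inv,
      QuotientGroup.mk_inv, s.q_neg, inv_inv, inv_mul_cancel]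
  have hT : (s.q y)⁻¹ * (s.q (-y))⁻¹ ∈ s.T (s.d * P.L + s.d * P.L) :=
    s.mul_mem_T (s.inv_mem_T hqy) (s.inv_mem_T hqny)
  have h1 : o (s.q y)⁻¹ * St m * o (s.q y)⁻¹⁻¹ ∈ Dl (s.Nb (P.M + 4 * (s.d * P.L))) 1 := by
    refine conj_mem_Dl (s.q y)⁻¹ ?_ (St_mem_Dl hm)
    intro z hz
    refine s.Nb_mono ?_ (s.conj_mem_Nb (s.inv_mem_T hqy) hz)
    omega
  have h2 : o ((s.q y)⁻¹ * (s.q (-y))⁻¹) ∈ Dl (s.Nb (P.M + 4 * (s.d * P.L))) 0 :=
    o_mem_Dl (s.Nb_mono (by omega) (s.mem_Nb hN hT))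
  have h3 := Dl_mul h1 h2
  rw [add_zero] at h3
  refine ⟨o (s.q y)⁻¹ * St m * o (s.q y)⁻¹⁻¹ * o ((s.q y)⁻¹ * (s.q (-y))⁻¹), h3, ?_⟩
  rw [St_mul, St_o, inv_inv]
  have e2 : (o ((s.q y)⁻¹ * (s.q (-y))⁻¹) : SA G) * o (s.q (-y)) = o (s.q y)⁻¹ := by
    rw [← map_mul, inv_mul_cancel_right]
  rw [mul_assoc _ _ (o (s.q (-y))), e2]
  have e3 : (o (s.q y) : SA G) * o (s.q y)⁻¹ = 1 := by
    rw [← map_mul, mul_inv_cancel, map_one]
  rw [mul_assoc _ (o (s.q y)) _, e3, mul_one]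

theorem core (P : Par s) (e e' : Elt P) (h : e.lb = e'.lb) {c : SA G} (hc : c ∈ P.Gd) :
    s.b e.v (s.act c e'.v) ∈ ZZ P (fun m => m = e.n + e'.n) := by
  unfold Par.Gd at hc
  induction hc using AddSubgroup.closure_induction with
  | mem c hc =>
    obtain ⟨m, hm, y, hy, rfl⟩ := hc
    rcases le_total e'.n e.n with hle | hle
    · exact co_core P e e' h hle (Dl_mono (s.Nb_mono (Nat.le_add_right _ _)) _ hm) hy
    · obtain ⟨m', hm', he⟩ := co_St P hm hy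
      rw [s.b_act', s.b_symm, he]
      have h1 := co_core P e' e h.symm hle hm' (y := -y) (by
        intro i
        rw [Pi.neg_apply, abs_neg]
        exact hy i)
      rwa [add_comm e'.n e.n] at h1
  | zero =>
    rw [map_zero, LinearMap.zero_apply, map_zero]
    exact AddSubgroup.zero_mem _
  | add a b _ _ ha hb =>
    rw [map_add, LinearMap.add_apply, map_add]
    exact AddSubgroup.add_mem _ ha hb
  | neg a _ ha =>
    rw [map_neg, LinearMap.neg_apply, map_neg]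
    exact AddSubgroup.neg_mem _ ha

end Pool.Agent.Lib.MP_c7b0ca_fe
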