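import Pool.Agent.Lib.MP_c7b0ca_fe.B0

/-!
ROW DL: calculus of the spaces `Dl K n = span{x+1}^n * span K` (`K` a subgroup).

HINTS. Write `A = span {o x + 1 | x ∈ K}`, `B = Sp K`. `B * B = B`, `A ≤ B`, `B * A = A * B = A`
(`y (x + 1) = (y x + 1) + (y + 1)` in characteristic 2), `Submodule.span_mul_span`. `A * B ≤ B`,
`Dl K (n+1) = A^n * (A * B) ≤ A^n * B`. For the product: `A^m * B * (A^n * B) = A^(m+n) * B`.
`St` maps `A` to `A`, `B` to `B` and reverses products. Conjugation by `o x` is an algebra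
automorphism mapping `A_K`, `B_K` into `A_K'`, `B_K'`. `aug_mem`: for `c = Σ_{x ∈ X} o x` (a finite
set or list of elements of `K`) `c = Σ (o x + 1) + |X|·1`, `aug c = |X|`.
-/

open scoped Pointwise commutatorElement

namespace Pool.Agent.Lib.MP_c7b0ca_fe

variable {G : Type*} [Group G]

/-- the span of the elements `x + 1` -/
private noncomputable def dlA (K : Subgroup G) : Submodule (ZMod 2) (SA G) :=
  Submodule.span (ZMod 2) {c : SA G | ∃ x ∈ K, c = o x + 1}

private theorem dl_eq (K : Subgroup G) (n : ℕ) : Dl K n = dlA K ^ n * Sp (K : Set G) := rfl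

private theorem dl_memA {K : Subgroup G} {x : G} (hx : x ∈ K) : o x + 1 ∈ dlA K :=
  Submodule.subset_span ⟨x, hx, rfl⟩

private theorem dl_memB {K : Subgroup G} {x : G} (hx : x ∈ K) : o x ∈ Sp (K : Set G) :=
  Submodule.subset_span ⟨x, hx, rfl⟩

private theorem dl_oneB (K : Subgroup G) : (1 : SA G) ∈ Sp (K : Set G) := by
  have h := dl_memB K.one_mem
  rwa [map_one] at h

private theorem dl_AB (K : Subgroup G) : dlA K ≤ Sp (K : Set G) := by
  refine Submodule.span_le.2 ?_
  rintro c ⟨x, hx, rfl⟩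
  exact Submodule.add_mem _ (dl_memB hx) (dl_oneB K)

private theorem dl_A_mul_B (K : Subgroup G) : dlA K * Sp (K : Set G) ≤ dlA K := by
  unfold dlA Sp
  rw [Submodule.span_mul_span]
  refine Submodule.span_le.2 ?_
  rintro c ⟨a, ⟨x, hx, rfl⟩, b, ⟨y, hy, rfl⟩, rfl⟩
  have h1 := Submodule.add_mem _ (dl_memA (K.mul_mem hx hy)) (dl_memA (K := K) hy)
  have h2 : (o x + 1) * o y = (o (x * y) + 1) + (o y + 1) := by
    have h3 : (1 : SA G) + 1 = 0 := SA_two 1
    calc (o x + 1) * o y = o (x * y) + o y := by rw [add_mul, one_mul, map_mul]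
      _ = o (x * y) + o y + (1 + 1) := by rw [h3, add_zero]
      _ = (o (x * y) + 1) + (o y + 1) := by abel
  change (o x + 1) * o y ∈ _
  rw [h2]
  exact h1

private theorem dl_B_mul_A (K : Subgroup G) : Sp (K : Set G) * dlA K ≤ dlA K := by
  unfold dlA Sp
  rw [Submodule.span_mul_span]
  refine Submodule.span_le.2 ?_
  rintro c ⟨a, ⟨x, hx, rfl⟩, b, ⟨y, hy, rfl⟩, rfl⟩
  have h1 := Submodule.add_mem _ (dl_memA (K.mul_mem hx hy)) (dl_memA (K := K) hx)
  have h2 : o x * (o y + 1) = (o (x * y) + 1) + (o x + 1) := by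
    have h3 : (1 : SA G) + 1 = 0 := SA_two 1
    calc o x * (o y + 1) = o (x * y) + o x := by rw [mul_add, mul_one, map_mul]
      _ = o (x * y) + o x + (1 + 1) := by rw [h3, add_zero]
      _ = (o (x * y) + 1) + (o x + 1) := by abel
  change o x * (o y + 1) ∈ _
  rw [h2]
  exact h1

private theorem dl_B_mul_B (K : Subgroup G) : Sp (K : Set G) * Sp (K : Set G) ≤ Sp (K : Set G) := by
  unfold Sp
  rw [Submodule.span_mul_span]
  refine Submodule.span_le.2 ?_
  rintro c ⟨a, ⟨x, hx, rfl⟩, b, ⟨y, hy, rfl⟩, rfl⟩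
  change o x * o y ∈ _
  rw [← map_mul]
  exact dl_memB (K.mul_mem hx hy)

private theorem dl_le_mul_B (K : Subgroup G) (P : Submodule (ZMod 2) (SA G)) :
    P ≤ P * Sp (K : Set G) := by
  intro p hp
  have h := Submodule.mul_mem_mul hp (dl_oneB K)
  rwa [mul_one] at h

private theorem dl_B_mul_pow (K : Subgroup G) (n : ℕ) :
    Sp (K : Set G) * dlA K ^ n ≤ dlA K ^ n * Sp (K : Set G) := by
  induction n with
  | zero => rw [pow_zero, mul_one, one_mul]
  | succ n ih =>
    calc Sp (K : Set G) * dlA K ^ (n + 1) = (Sp (K : Set G) * dlA K ^ n) * dlA K := by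
          rw [pow_succ, mul_assoc]
      _ ≤ (dlA K ^ n * Sp (K : Set G)) * dlA K := mul_le_mul' ih le_rfl
      _ = dlA K ^ n * (Sp (K : Set G) * dlA K) := by rw [mul_assoc]
      _ ≤ dlA K ^ n * dlA K := mul_le_mul' le_rfl (dl_B_mul_A K)
      _ = dlA K ^ (n + 1) := by rw [pow_succ]
      _ ≤ dlA K ^ (n + 1) * Sp (K : Set G) := dl_le_mul_B K _

private theorem dl_pow_mono {P Q : Submodule (ZMod 2) (SA G)} (h : P ≤ Q) (n : ℕ) :
    P ^ n ≤ Q ^ n := by
  induction n with
  | zero => rw [pow_zero, pow_zero]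
  | succ n ih => rw [pow_succ, pow_succ]; exact mul_le_mul' ih h

/-- maps that reverse products -/
private theorem dl_rev (f : SA G →+ SA G) (hf : ∀ a b, f (a * b) = f b * f a) (h1 : f 1 = 1)
    (hs : ∀ (r : ZMod 2) (a : SA G), f (r • a) = r • f a)
    {P Q : Submodule (ZMod 2) (SA G)} (h : ∀ a ∈ P, f a ∈ Q) (n : ℕ) :
    ∀ a ∈ P ^ n, f a ∈ Q ^ n := by
  induction n with
  | zero =>
    intro a ha
    rw [pow_zero] at ha ⊢
    obtain ⟨r, rfl⟩ := Submodule.mem_one.1 ha
    rw [Algebra.algebraMap_eq_smul_one, hs, h1, ← Algebra.algebraMap_eq_smul_one]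
    exact Submodule.algebraMap_mem r
  | succ n ih =>
    intro a ha
    rw [pow_succ] at ha
    rw [pow_succ']
    induction ha using Submodule.mul_induction_on' with
    | mem_mul_mem x hx y hy => rw [hf]; exact Submodule.mul_mem_mul (h y hy) (ih x hx)
    | add x _ y _ hx hy => rw [map_add]; exact Submodule.add_mem _ hx hy

/-- maps that respect products -/
private theorem dl_hom (f : SA G →+ SA G) (hf : ∀ a b, f (a * b) = f a * f b) (h1 : f 1 = 1)
    (hs : ∀ (r : ZMod 2) (a : SA G), f (r • a) = r • f a)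
    {P Q : Submodule (ZMod 2) (SA G)} (h : ∀ a ∈ P, f a ∈ Q) (n : ℕ) :
    ∀ a ∈ P ^ n, f a ∈ Q ^ n := by
  induction n with
  | zero =>
    intro a ha
    rw [pow_zero] at ha ⊢
    obtain ⟨r, rfl⟩ := Submodule.mem_one.1 ha
    rw [Algebra.algebraMap_eq_smul_one, hs, h1, ← Algebra.algebraMap_eq_smul_one]
    exact Submodule.algebraMap_mem r
  | succ n ih =>
    intro a ha
    rw [pow_succ] at ha ⊢
    induction ha using Submodule.mul_induction_on' with
    | mem_mul_mem x hx y hy => rw [hf]; exact Submodule.mul_mem_mul (ih x hx) (h y hy)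
    | add x _ y _ hx hy => rw [map_add]; exact Submodule.add_mem _ hx hy

theorem Dl_mono {K K' : Subgroup G} (h : K ≤ K') (n : ℕ) : Dl K n ≤ Dl K' n := by
  refine mul_le_mul' (dl_pow_mono (Submodule.span_mono ?_) n) (Submodule.span_mono ?_)
  · rintro c ⟨x, hx, rfl⟩
    exact ⟨x, h hx, rfl⟩
  · rintro c ⟨x, hx, rfl⟩
    exact ⟨x, h hx, rfl⟩

theorem Dl_anti (K : Subgroup G) {m n : ℕ} (h : m ≤ n) : Dl K n ≤ Dl K m := by
  induction n, h using Nat.le_induction with
  | base => exact le_rfl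
  | succ n _ ih =>
    refine le_trans ?_ ih
    rw [dl_eq, dl_eq, pow_succ, mul_assoc]
    exact mul_le_mul' le_rfl ((dl_A_mul_B K).trans (dl_AB K))

theorem Dl_mul {K : Subgroup G} {m n : ℕ} {a b : SA G} (ha : a ∈ Dl K m) (hb : b ∈ Dl K n) :
    a * b ∈ Dl K (m + n) := by
  have h : Dl K m * Dl K n ≤ Dl K (m + n) := by
    rw [dl_eq, dl_eq, dl_eq]
    calc dlA K ^ m * Sp (K : Set G) * (dlA K ^ n * Sp (K : Set G))
        = dlA K ^ m * (Sp (K : Set G) * dlA K ^ n) * Sp (K : Set G) := by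
          simp only [mul_assoc]
      _ ≤ dlA K ^ m * (dlA K ^ n * Sp (K : Set G)) * Sp (K : Set G) :=
          mul_le_mul' (mul_le_mul' le_rfl (dl_B_mul_pow K n)) le_rfl
      _ = dlA K ^ (m + n) * (Sp (K : Set G) * Sp (K : Set G)) := by
          rw [pow_add]
          simp only [mul_assoc]
      _ ≤ dlA K ^ (m + n) * Sp (K : Set G) := mul_le_mul' le_rfl (dl_B_mul_B K)
  exact h (Submodule.mul_mem_mul ha hb)

theorem St_mem_Dl {K : Subgroup G} {n : ℕ} {a : SA G} (ha : a ∈ Dl K n) : St a ∈ Dl K n := by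
  have hA : ∀ c ∈ dlA K, St c ∈ dlA K := by
    intro c hc
    have h : dlA K ≤ (dlA K).comap St := by
      refine Submodule.span_le.2 ?_
      rintro c ⟨x, hx, rfl⟩
      change St (o x + 1) ∈ dlA K
      rw [map_add, St_o, St_one]
      exact dl_memA (K.inv_mem hx)
    exact h hc
  have hB : ∀ c ∈ Sp (K : Set G), St c ∈ Sp (K : Set G) := by
    intro c hc
    have h : Sp (K : Set G) ≤ (Sp (K : Set G)).comap St := by
      refine Submodule.span_le.2 ?_
      rintro c ⟨x, hx, rfl⟩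
      change St (o x) ∈ Sp (K : Set G)
      rw [St_o]
      exact dl_memB (K.inv_mem hx)
    exact h hc
  have hP := dl_rev (St (G := G)).toAddMonoidHom (fun a b => St_mul a b) St_one
    (fun r a => map_smul St r a) hA n
  rw [dl_eq] at ha
  refine dl_B_mul_pow K n ?_
  induction ha using Submodule.mul_induction_on' with
  | mem_mul_mem x hx y hy => rw [St_mul]; exact Submodule.mul_mem_mul (hB y hy) (hP x hx)
  | add x _ y _ hx hy => rw [map_add]; exact Submodule.add_mem _ hx hy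

theorem conj_mem_Dl {K K' : Subgroup G} (x : G) (h : ∀ y ∈ K, x * y * x⁻¹ ∈ K') {n : ℕ} {a : SA G}
    (ha : a ∈ Dl K n) : o x * a * o x⁻¹ ∈ Dl K' n := by
  have hx1 : o x⁻¹ * o x = (1 : SA G) := by rw [← map_mul, inv_mul_cancel, map_one]
  have hx2 : o x * o x⁻¹ = (1 : SA G) := by rw [← map_mul, mul_inv_cancel, map_one]
  set f : SA G →ₗ[ZMod 2] SA G := (LinearMap.mulRight (ZMod 2) (o x⁻¹)) ∘ₗ
    (LinearMap.mulLeft (ZMod 2) (o x)) with hf
  have hfa : ∀ a, f a = o x * a * o x⁻¹ := fun a => rfl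
  have hmul : ∀ a b, f (a * b) = f a * f b := by
    intro a b
    rw [hfa, hfa, hfa]
    calc o x * (a * b) * o x⁻¹ = o x * a * 1 * b * o x⁻¹ := by rw [mul_one]; simp only [mul_assoc]
      _ = o x * a * (o x⁻¹ * o x) * b * o x⁻¹ := by rw [hx1]
      _ = o x * a * o x⁻¹ * (o x * b * o x⁻¹) := by simp only [mul_assoc]
  have hA : ∀ c ∈ dlA K, f c ∈ dlA K' := by
    intro c hc
    have h : dlA K ≤ (dlA K').comap f := by
      refine Submodule.span_le.2 ?_
      rintro c ⟨y, hy, rfl⟩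
      change f (o y + 1) ∈ dlA K'
      have h2 : f (o y + 1) = o (x * y * x⁻¹) + 1 := by
        rw [hfa, mul_add, add_mul, mul_one, hx2, map_mul, map_mul]
      rw [h2]
      exact dl_memA (h y hy)
    exact h hc
  have hB : ∀ c ∈ Sp (K : Set G), f c ∈ Sp (K' : Set G) := by
    intro c hc
    have h : Sp (K : Set G) ≤ (Sp (K' : Set G)).comap f := by
      refine Submodule.span_le.2 ?_
      rintro c ⟨y, hy, rfl⟩
      change f (o y) ∈ Sp (K' : Set G)
      rw [hfa, ← map_mul, ← map_mul]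
      exact dl_memB (h y hy)
    exact h hc
  have hP := dl_hom f.toAddMonoidHom (fun a b => hmul a b)
    (by change o x * 1 * o x⁻¹ = 1; rw [mul_one, hx2]) (fun r a => map_smul f r a) hA n
  rw [← hfa]
  rw [dl_eq] at ha ⊢
  induction ha using Submodule.mul_induction_on' with
  | mem_mul_mem x hx y hy => rw [hmul]; exact Submodule.mul_mem_mul (hP x hx) (hB y hy)
  | add x _ y _ hx hy => rw [map_add]; exact Submodule.add_mem _ hx hy

theorem o_mem_Dl {K : Subgroup G} {x : G} (hx : x ∈ K) : o x ∈ Dl K 0 := by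
  rw [dl_eq, pow_zero, one_mul]
  exact dl_memB hx

theorem one_mem_Dl (K : Subgroup G) : (1 : SA G) ∈ Dl K 0 := by
  rw [dl_eq, pow_zero, one_mul]
  exact dl_oneB K

theorem one_add_mem_Dl {K : Subgroup G} {x : G} (hx : x ∈ K) : 1 + o x ∈ Dl K 1 := by
  rw [dl_eq, pow_one, add_comm]
  exact dl_le_mul_B K _ (dl_memA hx)

theorem aug_mem_Dl {K : Subgroup G} {c : SA G} (hc : c ∈ Sp (K : Set G)) (ha : aug c = 0) :
    c ∈ Dl K 1 := by
  have h : ∀ c ∈ Sp (K : Set G), c + aug c • (1 : SA G) ∈ dlA K := by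
    intro c hc
    unfold Sp at hc
    induction hc using Submodule.span_induction with
    | mem c hc =>
      obtain ⟨x, hx, rfl⟩ := hc
      rw [aug_o, one_smul]
      exact dl_memA hx
    | zero => rw [map_zero, zero_smul, add_zero]; exact Submodule.zero_mem _
    | add a b _ _ ha hb =>
      have h2 : a + b + aug (a + b) • (1 : SA G) = (a + aug a • 1) + (b + aug b • 1) := by
        rw [map_add, add_smul]
        abel
      rw [h2]
      exact Submodule.add_mem _ ha hb
    | smul r a _ ha =>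
      have h2 : r • a + aug (r • a) • (1 : SA G) = r • (a + aug a • 1) := by
        rw [map_smul, smul_add, smul_assoc]
      rw [h2]
      exact Submodule.smul_mem _ r ha
  have h1 := h c hc
  rw [ha, zero_smul, add_zero] at h1
  rw [dl_eq, pow_one]
  exact dl_le_mul_B K _ h1

end Pool.Agent.Lib.MP_c7b0ca_fe
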