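import Mathlib

/-!
MP_c7b0ca_al, finite commutator width, definitions for the collecting argument in characteristic 2.
-/

open scoped Pointwise commutatorElement

namespace Pool.Agent.Lib.MP_c7b0ca_fe

/-- the group algebra over the field with two elements -/
abbrev SA (G : Type*) [Group G] := MonoidAlgebra (ZMod 2) G

instance centerCommGroup (G : Type*) [Group G] : CommGroup (Subgroup.center G) :=
  { (inferInstance : Group (Subgroup.center G)) with mul_comm := mul_comm' }

/-- the centre, written additively -/
abbrev WA (G : Type*) [Group G] := Additive (Subgroup.center G)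

/-- the embedding of the group into the group algebra -/
noncomputable def o {G : Type*} [Group G] : G →* SA G := MonoidAlgebra.of (ZMod 2) G

/-- the anti-involution of the group algebra inverting the group elements -/
noncomputable def St {G : Type*} [Group G] : SA G →ₗ[ZMod 2] SA G :=
  (MulOpposite.opLinearEquiv (ZMod 2)).symm.toLinearMap ∘ₗ
    (MonoidAlgebra.lift (ZMod 2) (SA G)ᵐᵒᵖ G
      { toFun := fun x => MulOpposite.op (o x⁻¹)
        map_one' := by simp
        map_mul' := by intro x y; simp [mul_inv_rev] }).toLinearMap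

/-- the augmentation -/
noncomputable def aug {G : Type*} [Group G] : SA G →ₐ[ZMod 2] ZMod 2 :=
  MonoidAlgebra.lift (ZMod 2) (ZMod 2) G 1

open Classical in
/-- the component of an element of the group algebra over a coset of `N` -/
noncomputable def comp {G : Type*} [Group G] (N : Subgroup G) (h : G ⧸ N) :
    SA G →+ SA G where
  toFun c := MonoidAlgebra.ofCoeff (c.coeff.filter (fun x => (x : G ⧸ N) = h))
  map_zero' := by
    ext x
    by_cases hx : (x : G ⧸ N) = h
    · simp [Finsupp.filter_apply_pos (fun x : G => (x : G ⧸ N) = h) _ hx]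
    · simp [Finsupp.filter_apply_neg (fun x : G => (x : G ⧸ N) = h) _ hx]
  map_add' a b := by
    ext x
    by_cases hx : (x : G ⧸ N) = h
    · simp [Finsupp.filter_apply_pos (fun x : G => (x : G ⧸ N) = h) _ hx]
    · simp [Finsupp.filter_apply_neg (fun x : G => (x : G ⧸ N) = h) _ hx]

/-- the span of a set of group elements -/
noncomputable def Sp {G : Type*} [Group G] (X : Set G) : Submodule (ZMod 2) (SA G) :=
  Submodule.span (ZMod 2) {c : SA G | ∃ x ∈ X, c = o x}

/-- `Δ^(n)(K)`: the span of the products `(x₁+1)⋯(x_n+1) y` with `x_i, y ∈ K` -/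
noncomputable def Dl {G : Type*} [Group G] (K : Subgroup G) (n : ℕ) : Submodule (ZMod 2) (SA G) :=
  (Submodule.span (ZMod 2) {c : SA G | ∃ x ∈ K, c = o x + 1}) ^ n * Sp (K : Set G)

/-- the lower central series of a subgroup, inside the group -/
def lcN {G : Type*} [Group G] (N : Subgroup G) : ℕ → Subgroup G
  | 0 => N
  | i + 1 => ⁅lcN N i, N⁆

/-- The data of the collecting argument: a symmetric finite generating family `g` of `G`, normal
subgroups `R ≤ N` with `G/N` abelian, and a quotient `V` of `R` of exponent 2 on which `G` acts,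
with the commutator form `b` of `R` (values in the centre of `G`). -/
structure Setup (G V : Type*) [Group G] [AddCommGroup V] [Module (ZMod 2) V] where
  /-- number of generators -/
  d : ℕ
  /-- generators -/
  g : Fin d → G
  gen : Subgroup.closure (Set.range g) = ⊤
  inv : ∀ i, ∃ j, g j = (g i)⁻¹
  /-- the subgroup with central commutators -/
  R : Subgroup G
  /-- the larger normal subgroup -/
  N : Subgroup G
  hR : R.Normal
  hN : N.Normal
  le : R ≤ N
  comm : commutator G ≤ N
  /-- the action of `G` on `V` -/
  ρ : G →* Module.End (ZMod 2) V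
  /-- the class map `R → V` -/
  cl : R → V
  cl_mul : ∀ r r' : R, cl (r * r') = cl r + cl r'
  cl_surj : Function.Surjective cl
  cl_conj : ∀ (x : G) (r r' : R), (r' : G) = x * r * x⁻¹ → cl r' = ρ x (cl r)
  /-- the commutator form -/
  b : V →+ V →+ WA G
  b_cl : ∀ r r' : R, (((b (cl r) (cl r')).toMul : Subgroup.center G) : G) = ⁅(r : G), (r' : G)⁆

namespace Setup

variable {G V : Type*} [Group G] [AddCommGroup V] [Module (ZMod 2) V] (s : Setup G V)

instance : s.R.Normal := s.hR
instance : s.N.Normal := s.hN

/-- the action of the group algebra on `V` -/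
noncomputable def act : SA G →ₐ[ZMod 2] Module.End (ZMod 2) V :=
  MonoidAlgebra.lift (ZMod 2) (Module.End (ZMod 2) V) G s.ρ

open Classical in
/-- the class of a group element (0 outside `R`) -/
noncomputable def clx (x : G) : V := if h : x ∈ s.R then s.cl ⟨x, h⟩ else 0

/-- the value of a word -/
def ev (w : List (Fin s.d)) : G := (w.map s.g).prod

/-- the class of the value of a word -/
noncomputable def clw (w : List (Fin s.d)) : V := s.clx (s.ev w)

/-- the (right to left) Fox derivatives of a word: the sum of the suffixes following the letter -/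
noncomputable def D : List (Fin s.d) → Fin s.d → SA G
  | [], _ => 0
  | x :: w, j => D w j + if j = x then o (s.ev w) else 0

/-- the coefficients of the form `β` -/
noncomputable def θ (j l : Fin s.d) : SA G :=
  if l < j then (1 + o (s.g j)⁻¹) * (1 + o (s.g l)) else
    if l = j then 1 + o (s.g j)⁻¹ else 0

/-- the self interaction of a word -/
noncomputable def η : List (Fin s.d) → SA G
  | [] => 0
  | x :: w => η w + ∑ j, St (s.D w j) * s.θ j x * o (s.ev w)

/-- the bilinear form `β` on `V^d` -/
noncomputable def β (X Y : Fin s.d → V) : WA G :=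
  ∑ j, ∑ l, s.b (X j) (s.act (s.θ j l) (Y l))

/-- the vector of a list of pairs `(v, w)` -/
noncomputable def vc : List (V × List (Fin s.d)) → Fin s.d → V
  | [], _ => 0
  | p :: L, j => vc L j + s.act (s.D p.2 j) p.1

/-- the collecting function of a list of pairs `(v, w)` -/
noncomputable def Ψ : List (V × List (Fin s.d)) → WA G
  | [] => 0
  | p :: L => Ψ L + s.b p.1 (s.clw p.2) + s.b p.1 (s.act (s.η p.2) p.1) +
      s.β (fun j => s.act (s.D p.2 j) p.1) (s.vc L)

/-- the word ball of radius `m` -/
def T (m : ℕ) : Set G := {x | ∃ w : List (Fin s.d), w.length ≤ m ∧ s.ev w = x}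

/-- the subgroup generated by the elements of `N` in the ball of radius `m` -/
def Nb (m : ℕ) : Subgroup G := Subgroup.closure ((s.N : Set G) ∩ s.T m)

/-- the ordered product of powers of generators -/
def q (x : Fin s.d → ℤ) : G := (List.ofFn fun i => s.g i ^ x i).prod

/-- a word is balanced if its Fox derivatives vanish in the group algebra of `G/N` -/
def Bal (w : List (Fin s.d)) : Prop := ∀ j (h : G ⧸ s.N), aug (comp s.N h (s.D w j)) = 0

/-- the label of a position -/
def lab (K : ℕ) (x : Fin s.d → ℤ) (i : Fin s.d) : Fin 3 :=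
  if x i ≤ -(K : ℤ) then 0 else if x i ≤ (K : ℤ) then 1 else 2

end Setup

/-- The parameters of the elements: a finite set `LL` of words, the size `L` of the boxes of the
labels (positions have coordinates of absolute value at most `3L`), the radius function `r`, and
the finite set `I` of nontrivial involutions of `G/N` with their representatives `y`. -/
structure Par {G V : Type*} [Group G] [AddCommGroup V] [Module (ZMod 2) V] (s : Setup G V) where
  LL : Finset (List (Fin s.d))
  bal : ∀ w ∈ LL, s.Bal w
  evR : ∀ w ∈ LL, s.ev w ∈ s.R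
  I : Finset (G ⧸ s.N)
  mI : ∀ h, h ∈ I ↔ h ≠ 1 ∧ h * h = 1
  y : G ⧸ s.N → Fin s.d → ℤ
  hy : ∀ h ∈ I, (s.q (y h) : G ⧸ s.N) = h
  L0 : ℕ
  len : ∀ w ∈ LL, w.length ≤ L0
  ylen : ∀ h ∈ I, ∀ i, |y h i| ≤ L0
  /-- the radius in degree 1 -/
  m1 : ℕ
  hm1 : 100 * (s.d + 1) * (L0 + 1) ≤ m1

namespace Par

variable {G V : Type*} [Group G] [AddCommGroup V] [Module (ZMod 2) V] {s : Setup G V} (P : Par s)

/-- the size of the boxes -/
def L : ℕ := 2 * P.L0 + 2

/-- the radius of the good coefficients -/
def M : ℕ := 10 * (s.d + 1) * (P.L0 + 1)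

/-- the good coefficients: sums of `m q_y` with `m ∈ Δ^(1)(N_M)` and `y` in the box -/
noncomputable def Gd : AddSubgroup (SA G) :=
  AddSubgroup.closure {c | ∃ m ∈ Dl (s.Nb P.M) 1, ∃ y : Fin s.d → ℤ,
    (∀ i, |y i| ≤ (P.L : ℤ)) ∧ c = m * o (s.q y)}

/-- the radius in degree `n` -/
def r (n : ℕ) : ℕ := P.m1 + 6 * s.d * P.L * Nat.log 2 n

end Par

/-- an element: a home leg `l`, another leg `w`, a coefficient `a q_x` and a degree `n` -/
structure Elt {G V : Type*} [Group G] [AddCommGroup V] [Module (ZMod 2) V] {s : Setup G V}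
    (P : Par s) where
  l : List (Fin s.d)
  w : List (Fin s.d)
  a : SA G
  x : Fin s.d → ℤ
  n : ℕ
  hl : l ∈ P.LL
  hw : w ∈ P.LL
  hn : 1 ≤ n
  ha : a ∈ Dl (s.Nb (P.r n)) (n - 1)
  hx : ∀ i, |x i| ≤ 3 * P.L

namespace Elt

variable {G V : Type*} [Group G] [AddCommGroup V] [Module (ZMod 2) V] {s : Setup G V} {P : Par s}

/-- the value of an element -/
noncomputable def z (e : Elt P) : WA G := s.b (s.clw e.l) (s.act (e.a * o (s.q e.x)) (s.clw e.w))

/-- the vector of `V` of an element -/
noncomputable def v (e : Elt P) : V := s.act (St (e.a * o (s.q e.x))) (s.clw e.l)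

/-- the label of an element -/
def lb (e : Elt P) : Fin s.d → Fin 3 := s.lab P.L e.x

end Elt

/-- the span of the values of the elements whose degree satisfies `p` -/
def ZZ {G V : Type*} [Group G] [AddCommGroup V] [Module (ZMod 2) V] {s : Setup G V}
    (P : Par s) (p : ℕ → Prop) : AddSubgroup (WA G) :=
  AddSubgroup.closure {t | ∃ e : Elt P, p e.n ∧ e.z = t}

/-- the parity of the component of `η(w)` over an involution -/
noncomputable def ε {G V : Type*} [Group G] [AddCommGroup V] [Module (ZMod 2) V] (s : Setup G V)
    (h : G ⧸ s.N) (w : List (Fin s.d)) : ZMod 2 := aug (comp s.N h (s.η w))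

open Classical in
/-- the bounded function of a list of elements -/
noncomputable def SS {G V : Type*} [Group G] [AddCommGroup V] [Module (ZMod 2) V] {s : Setup G V}
    (P : Par s) (L : List (Elt P)) : WA G :=
  ∑ χ : Fin s.d → Fin 3,
    (s.Ψ ((L.filter (fun e => e.lb = χ)).map (fun e => (e.v, e.w))) +
      ∑ h ∈ P.I,
        s.b (((L.filter (fun e => e.lb = χ)).map (fun e => ε s h e.w • e.v)).sum)
          (s.ρ (s.q (P.y h))
            ((L.filter (fun e => e.lb = χ)).map (fun e => ε s h e.w • e.v)).sum))

end Pool.Agent.Lib.MP_c7b0ca_fe
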