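import Pool.Agent.Lib.MP_c7b0ca_fe.Defs

/-!
ROW EX: a nilpotent group of class `≤ c` generated by elements of exponent `e` has exponent `e^c`.
-/

open scoped Pointwise commutatorElement

namespace Pool.Agent.Lib.MP_c7b0ca_fe

private theorem lcN_top_normal {K : Type*} [Group K] (i : ℕ) : (lcN (⊤ : Subgroup K) i).Normal := by
  induction i with
  | zero => exact (inferInstance : (⊤ : Subgroup K).Normal)
  | succ i ih =>
    have := ih
    exact Subgroup.commutator_normal _ _

private theorem lcN_top_map {K Q : Type*} [Group K] [Group Q] (f : K →* Q)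
    (hf : Function.Surjective f) (i : ℕ) :
    (lcN (⊤ : Subgroup K) i).map f = lcN (⊤ : Subgroup Q) i := by
  induction i with
  | zero => exact Subgroup.map_top_of_surjective f hf
  | succ i ih =>
    show (⁅lcN (⊤ : Subgroup K) i, (⊤ : Subgroup K)⁆ : Subgroup K).map f =
      ⁅lcN (⊤ : Subgroup Q) i, (⊤ : Subgroup Q)⁆
    rw [Subgroup.map_commutator, ih, Subgroup.map_top_of_surjective f hf]

private theorem comm_mul_right {K : Type*} [Group K] (x y y' : K)
    (h : ⁅x, y'⁆ ∈ Subgroup.center K) : ⁅x, y * y'⁆ = ⁅x, y⁆ * ⁅x, y'⁆ := by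
  have h1 : y * ⁅x, y'⁆ = ⁅x, y'⁆ * y := Subgroup.mem_center_iff.1 h y
  have h2 : ⁅x, y * y'⁆ = ⁅x, y⁆ * (y * ⁅x, y'⁆ * y⁻¹) := by
    simp only [commutatorElement_def]; group
  rw [h2, h1, mul_inv_cancel_right]

theorem nilpotent_exponent {K : Type*} [Group K] (c e : ℕ) (X : Set K)
    (hX : Subgroup.closure X = ⊤) (he : ∀ x ∈ X, x ^ e = 1)
    (hc : lcN (⊤ : Subgroup K) c = ⊥) (y : K) : y ^ (e ^ c) = 1 := by
  induction c generalizing K with
  | zero =>
    have hy : y ∈ lcN (⊤ : Subgroup K) 0 := Subgroup.mem_top y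
    rw [hc, Subgroup.mem_bot] at hy
    rw [hy, one_pow]
  | succ c ih =>
    -- the last term is central
    have hcen : lcN (⊤ : Subgroup K) c ≤ Subgroup.center K := by
      have h1 : ⁅lcN (⊤ : Subgroup K) c, (⊤ : Subgroup K)⁆ = ⊥ := hc
      intro z hz
      rw [Subgroup.mem_center_iff]
      intro g
      have h2 : ⁅z, g⁆ ∈ ⁅lcN (⊤ : Subgroup K) c, (⊤ : Subgroup K)⁆ :=
        Subgroup.commutator_mem_commutator hz (Subgroup.mem_top g)
      rw [h1, Subgroup.mem_bot, commutatorElement_eq_one_iff_mul_comm] at h2
      exact h2.symm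
    -- exponent of the last term
    have hexp : ∀ z ∈ lcN (⊤ : Subgroup K) c, z ^ e = 1 := by
      cases c with
      | zero =>
        have hcomm : ∀ a b : K, a * b = b * a := fun a b =>
          (Subgroup.mem_center_iff.1 (hcen (Subgroup.mem_top b)) a)
        intro z hz0
        clear hz0
        have hz : z ∈ Subgroup.closure X := by rw [hX]; exact Subgroup.mem_top z
        induction hz using Subgroup.closure_induction with
        | mem x hx => exact he x hx
        | one => exact one_pow e
        | mul a b _ _ ha hb =>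
          rw [(show Commute a b from hcomm a b).mul_pow, ha, hb, one_mul]
        | inv a _ ha => rw [inv_pow, ha, inv_one]
      | succ c =>
        have hcom : ∀ x ∈ lcN (⊤ : Subgroup K) c, ∀ y : K, ⁅x, y⁆ ∈ Subgroup.center K := by
          intro x hx y
          exact hcen (Subgroup.commutator_mem_commutator hx (Subgroup.mem_top y))
        have hone : ∀ x ∈ lcN (⊤ : Subgroup K) c, ∀ y : K, ⁅x, y⁆ ^ e = 1 := by
          intro x hx y
          let φ : K →* Subgroup.center K :=
            { toFun := fun y => ⟨⁅x, y⁆, hcom x hx y⟩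
              map_one' := by ext; simp
              map_mul' := by
                intro a b
                ext
                exact comm_mul_right x a b (hcom x hx b) }
          have h1 : (powMonoidHom e).comp φ = 1 := by
            refine MonoidHom.eq_of_eqOn_dense hX ?_
            intro y hy
            show (φ y) ^ e = 1
            rw [← map_pow, he y hy, map_one]
          have h2 : (φ y) ^ e = 1 := DFunLike.congr_fun h1 y
          have h3 := congrArg (Subtype.val) h2
          exact h3
        intro z hz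
        have hz' : z ∈ Subgroup.closure {g | ∃ g₁ ∈ lcN (⊤ : Subgroup K) c, ∃ g₂ ∈ (⊤ : Subgroup K),
            ⁅g₁, g₂⁆ = g} := hz
        have key : z ∈ Subgroup.center K ∧ z ^ e = 1 := by
          clear hz
          induction hz' using Subgroup.closure_induction with
          | mem x hx =>
            obtain ⟨a, ha, b, _, rfl⟩ := hx
            exact ⟨hcom a ha b, hone a ha b⟩
          | one => exact ⟨Subgroup.one_mem _, one_pow e⟩
          | mul a b _ _ ha hb =>
            refine ⟨Subgroup.mul_mem _ ha.1 hb.1, ?_⟩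
            have hab : Commute a b := (Subgroup.mem_center_iff.1 hb.1 a)
            rw [hab.mul_pow, ha.2, hb.2, one_mul]
          | inv a _ ha => exact ⟨Subgroup.inv_mem _ ha.1, by rw [inv_pow, ha.2, inv_one]⟩
        exact key.2
    -- the quotient
    have : (lcN (⊤ : Subgroup K) c).Normal := lcN_top_normal c
    have hsurj := QuotientGroup.mk'_surjective (lcN (⊤ : Subgroup K) c)
    have h1 : lcN (⊤ : Subgroup (K ⧸ lcN (⊤ : Subgroup K) c)) c = ⊥ := by
      rw [← lcN_top_map _ hsurj c, Subgroup.map_eq_bot_iff, QuotientGroup.ker_mk']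
    have h2 := ih ((QuotientGroup.mk' (lcN (⊤ : Subgroup K) c)) '' X) (by
      rw [← MonoidHom.map_closure, hX, Subgroup.map_top_of_surjective _ hsurj]) (by
      rintro _ ⟨x, hx, rfl⟩
      rw [← map_pow, he x hx, map_one]) h1 (QuotientGroup.mk' _ y)
    rw [← map_pow, ← MonoidHom.mem_ker, QuotientGroup.ker_mk'] at h2
    rw [pow_succ, pow_mul]
    exact hexp _ h2

end Pool.Agent.Lib.MP_c7b0ca_fe
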