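import Mathlib

/-!
ROW G1: bounded products of commutators, elementary facts. `(commutatorSet G) ^ n` is the
pointwise power of the set of commutators; `1` is a commutator, inverses and conjugates of
commutators are commutators, homomorphisms map commutators to commutators and surjective ones lift
them.
-/

open scoped Pointwise commutatorElement

namespace Pool.Agent.Lib.MP_c7b0ca_fe

variable {G : Type*} [Group G]

private theorem g1_one : (1 : G) ∈ commutatorSet G := ⟨1, 1, commutatorElement_self 1⟩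

theorem cs_mono {m n : ℕ} (h : m ≤ n) : (commutatorSet G) ^ m ⊆ (commutatorSet G) ^ n := by
  induction n, h using Nat.le_induction with
  | base => exact subset_rfl
  | succ n _ ih =>
    refine ih.trans fun x hx => ?_
    rw [pow_succ]
    exact Set.mem_mul.2 ⟨x, hx, 1, g1_one, mul_one x⟩

theorem cs_mul {m n : ℕ} {x y : G} (hx : x ∈ (commutatorSet G) ^ m)
    (hy : y ∈ (commutatorSet G) ^ n) : x * y ∈ (commutatorSet G) ^ (m + n) := by
  rw [pow_add]
  exact Set.mul_mem_mul hx hy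

theorem cs_inv {n : ℕ} {x : G} (hx : x ∈ (commutatorSet G) ^ n) : x⁻¹ ∈ (commutatorSet G) ^ n := by
  induction n generalizing x with
  | zero =>
    rw [pow_zero, Set.mem_one] at hx ⊢
    rw [hx, inv_one]
  | succ n ih =>
    rw [pow_succ] at hx
    obtain ⟨a, ha, b, ⟨c, d, rfl⟩, rfl⟩ := Set.mem_mul.1 hx
    rw [pow_succ']
    exact Set.mem_mul.2 ⟨⁅c, d⁆⁻¹, ⟨d, c, (commutatorElement_inv c d).symm⟩, a⁻¹, ih ha,
      (mul_inv_rev a _).symm⟩

theorem cs_map {G' : Type*} [Group G'] (f : G →* G') {n : ℕ} {x : G}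
    (hx : x ∈ (commutatorSet G) ^ n) : f x ∈ (commutatorSet G') ^ n := by
  induction n generalizing x with
  | zero =>
    rw [pow_zero, Set.mem_one] at hx ⊢
    rw [hx, map_one]
  | succ n ih =>
    rw [pow_succ] at hx ⊢
    obtain ⟨a, ha, b, ⟨c, d, rfl⟩, rfl⟩ := Set.mem_mul.1 hx
    exact Set.mem_mul.2 ⟨f a, ih ha, f ⁅c, d⁆, ⟨f c, f d, (map_commutatorElement f c d).symm⟩,
      (map_mul f _ _).symm⟩

theorem cs_le {n : ℕ} : (commutatorSet G) ^ n ⊆ (commutator G : Set G) := by
  induction n with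
  | zero =>
    intro x hx
    rw [pow_zero, Set.mem_one] at hx
    rw [hx]
    exact (commutator G).one_mem
  | succ n ih =>
    intro x hx
    rw [pow_succ] at hx
    obtain ⟨a, ha, b, hb, rfl⟩ := Set.mem_mul.1 hx
    refine (commutator G).mul_mem (ih ha) ?_
    rw [commutator_eq_closure]
    exact Subgroup.subset_closure hb

/-- lifting through a quotient -/
theorem cs_lift (K : Subgroup G) [K.Normal] {m n : ℕ} (hK : ∀ x ∈ K, x ∈ (commutatorSet G) ^ m)
    {x : G} (hx : (x : G ⧸ K) ∈ (commutatorSet (G ⧸ K)) ^ n) : x ∈ (commutatorSet G) ^ (n + m) := by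
  have key : ∀ (n : ℕ) (z : G ⧸ K), z ∈ (commutatorSet (G ⧸ K)) ^ n →
      ∃ y ∈ (commutatorSet G) ^ n, (y : G ⧸ K) = z := by
    intro n
    induction n with
    | zero =>
      intro z hz
      rw [pow_zero, Set.mem_one] at hz
      refine ⟨1, ?_, ?_⟩
      · rw [pow_zero, Set.mem_one]
      · rw [hz]; rfl
    | succ n ih =>
      intro z hz
      rw [pow_succ] at hz
      obtain ⟨a, ha, b, ⟨c, d, rfl⟩, rfl⟩ := Set.mem_mul.1 hz
      obtain ⟨y, hy, rfl⟩ := ih a ha
      obtain ⟨c, rfl⟩ := QuotientGroup.mk_surjective c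
      obtain ⟨d, rfl⟩ := QuotientGroup.mk_surjective d
      refine ⟨y * ⁅c, d⁆, ?_, rfl⟩
      rw [pow_succ]
      exact Set.mul_mem_mul hy ⟨c, d, rfl⟩
  obtain ⟨y, hy, hyx⟩ := key n _ hx
  have h1 : y⁻¹ * x ∈ K := QuotientGroup.eq.1 hyx
  have h2 := cs_mul hy (hK _ h1)
  rwa [mul_inv_cancel_left] at h2

end Pool.Agent.Lib.MP_c7b0ca_fe
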