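import Mathlib

/-!
ROW GR: a polynomial in `log M` is eventually smaller than `M`.
HINT: `Nat.log 2 (2 * M) ≤ Nat.log 2 M + 1`; take `M = 2 ^ t` and use that exponentials beat
polynomials (e.g. `tendsto_pow_const_div_const_pow_of_one_lt`), or an elementary induction.
-/

namespace Pool.Agent.Lib.MP_c7b0ca_fe

theorem growth (A B C k : ℕ) :
    ∃ M : ℕ, 1 ≤ M ∧ C * (A + B * Nat.log 2 (2 * M) + 1) ^ k + 1 ≤ M := by
  have h1 := tendsto_pow_const_div_const_pow_of_one_lt k (r := (2 : ℝ)) (by norm_num)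
  set D : ℕ := C * (A + B + 1) ^ k with hD
  have hpos : (0 : ℝ) < 1 / (2 * ((D : ℝ) + 1)) := by positivity
  have h2 := (h1.eventually (gt_mem_nhds hpos)).and (Filter.eventually_ge_atTop 1)
  obtain ⟨n, hn, hn1⟩ := h2.exists
  obtain ⟨t, rfl⟩ : ∃ t, n = t + 1 := ⟨n - 1, by omega⟩
  refine ⟨2 ^ t, Nat.one_le_two_pow, ?_⟩
  have hlog : Nat.log 2 (2 * 2 ^ t) = t + 1 := by
    rw [← pow_succ', Nat.log_pow (by norm_num)]
  rw [hlog]
  have h3 : A + B * (t + 1) + 1 ≤ (A + B + 1) * (t + 1) := by nlinarith [Nat.zero_le A, Nat.zero_le t, Nat.mul_le_mul (Nat.zero_le A) (Nat.zero_le t)]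
  have h4 : C * (A + B * (t + 1) + 1) ^ k ≤ D * (t + 1) ^ k := by
    rw [hD, mul_assoc, ← mul_pow]
    exact Nat.mul_le_mul_left _ (Nat.pow_le_pow_left h3 k)
  have h5 : 1 ≤ (t + 1) ^ k := Nat.one_le_pow _ _ (by omega)
  have h6 : (D + 1) * (t + 1) ^ k ≤ 2 ^ t := by
    have h7 : (((t + 1 : ℕ) : ℝ)) ^ k < 1 / (2 * ((D : ℝ) + 1)) * 2 ^ (t + 1) := by
      rwa [div_lt_iff₀ (by positivity)] at hn
    have h8 : ((D : ℝ) + 1) * ((t + 1 : ℕ) : ℝ) ^ k < 2 ^ t := by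
      have h9 : 1 / (2 * ((D : ℝ) + 1)) * 2 ^ (t + 1) = 2 ^ t / ((D : ℝ) + 1) := by
        field_simp; ring
      rw [h9, lt_div_iff₀ (by positivity)] at h7
      linarith
    have h10 : (((D + 1) * (t + 1) ^ k : ℕ) : ℝ) < ((2 ^ t : ℕ) : ℝ) := by
      push_cast
      push_cast at h8
      exact h8
    exact le_of_lt (by exact_mod_cast h10)
  calc C * (A + B * (t + 1) + 1) ^ k + 1 ≤ D * (t + 1) ^ k + (t + 1) ^ k := add_le_add h4 h5
    _ = (D + 1) * (t + 1) ^ k := by ring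
    _ ≤ 2 ^ t := h6

end Pool.Agent.Lib.MP_c7b0ca_fe
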