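import Mathlib

/-!
ROW G2: a normal subgroup with abelian quotient of a finitely generated group is the normal closure
of a finite set.

PROOF. The image of `N` in the abelianization of `G` is finitely generated (`ℤ` Noetherian): choose
finitely many `n_i ∈ N` whose classes generate it. `X` = the commutators of the generators and the
`n_i`. Modulo `N₁ = normalClosure X ≤ N` the generators commute, so `commutator G ≤ N₁`; every
element of `N` is a word in the `n_i` modulo `commutator G`, so it is in `N₁`.
-/

open scoped Pointwise commutatorElement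

namespace Pool.Agent.Lib.MP_c7b0ca_fe

/-- if the generators commute modulo a normal subgroup then it contains the commutator subgroup -/
private theorem G2_comm_le {G : Type*} [Group G] (S : Set G) (hS : Subgroup.closure S = ⊤)
    (N : Subgroup G) [N.Normal] (h : ∀ a ∈ S, ∀ b ∈ S, ⁅a, b⁆ ∈ N) : commutator G ≤ N := by
  have h1 : ∀ a ∈ S, ∀ b : G, ⁅a, b⁆ ∈ N := by
    intro a ha b
    have hb : b ∈ Subgroup.closure S := by rw [hS]; exact Subgroup.mem_top b
    induction hb using Subgroup.closure_induction with
    | mem x hx => exact h a ha x hx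
    | one => simp [N.one_mem]
    | mul x y _ _ hx hy =>
      have e : ⁅a, x * y⁆ = ⁅a, x⁆ * (x * ⁅a, y⁆ * x⁻¹) := by
        simp only [commutatorElement_def]; group
      rw [e]
      exact N.mul_mem hx ((inferInstance : N.Normal).conj_mem _ hy x)
    | inv x _ hx =>
      have e : ⁅a, x⁻¹⁆ = x⁻¹ * (⁅a, x⁆)⁻¹ * x⁻¹⁻¹ := by
        simp only [commutatorElement_def]; group
      rw [e]
      exact (inferInstance : N.Normal).conj_mem _ (N.inv_mem hx) x⁻¹
  have h2 : ∀ a b : G, ⁅a, b⁆ ∈ N := by
    intro a b
    have ha : a ∈ Subgroup.closure S := by rw [hS]; exact Subgroup.mem_top a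
    induction ha using Subgroup.closure_induction with
    | mem x hx => exact h1 x hx b
    | one => simp [N.one_mem]
    | mul x y _ _ hx hy =>
      have e : ⁅x * y, b⁆ = (x * ⁅y, b⁆ * x⁻¹) * ⁅x, b⁆ := by
        simp only [commutatorElement_def]; group
      rw [e]
      exact N.mul_mem ((inferInstance : N.Normal).conj_mem _ hy x) hx
    | inv x _ hx =>
      have e : ⁅x⁻¹, b⁆ = x⁻¹ * (⁅x, b⁆)⁻¹ * x⁻¹⁻¹ := by
        simp only [commutatorElement_def]; group
      rw [e]
      exact (inferInstance : N.Normal).conj_mem _ (N.inv_mem hx) x⁻¹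
  rw [commutator_def, Subgroup.commutator_le]
  intro a _ b _
  exact h2 a b

/-- a subgroup of a finitely generated commutative group is finitely generated -/
private theorem G2_fg {A : Type*} [CommGroup A] [Group.FG A] (H : Subgroup A) : H.FG := by
  have : AddGroup.FG (Additive A) := inferInstance
  have : Module.Finite ℤ (Additive A) := Module.Finite.iff_addGroup_fg.2 inferInstance
  have : IsNoetherian ℤ (Additive A) := inferInstance
  have h1 : (AddSubgroup.toIntSubmodule (Subgroup.toAddSubgroup H)).FG := IsNoetherian.noetherian _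
  rw [Submodule.fg_iff_addSubgroup_fg] at h1
  rw [Subgroup.fg_iff_add_fg]
  simpa using h1

theorem fg_normalClosure {G : Type*} [Group G] [Group.FG G] (N : Subgroup G) [N.Normal]
    (hN : commutator G ≤ N) :
    ∃ X : Finset G, Subgroup.normalClosure (X : Set G) = N := by
  classical
  obtain ⟨S, hS⟩ := Group.fg_def.1 (inferInstance : Group.FG G)
  have : Group.FG (Abelianization G) :=
    Group.fg_of_surjective (f := (Abelianization.of : G →* Abelianization G))
      (QuotientGroup.mk_surjective)
  obtain ⟨Y, hY⟩ := G2_fg (N.map (Abelianization.of : G →* Abelianization G))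
  have hY1 : ∀ y ∈ Y, ∃ n ∈ N, Abelianization.of n = y := by
    intro y hy
    have : y ∈ N.map (Abelianization.of : G →* Abelianization G) := by
      rw [← hY]; exact Subgroup.subset_closure hy
    obtain ⟨n, hn, rfl⟩ := Subgroup.mem_map.1 this
    exact ⟨n, hn, rfl⟩
  choose! f hf1 hf2 using hY1
  let X : Finset G := ((S ×ˢ S).image fun p => ⁅p.1, p.2⁆) ∪ Y.image f
  refine ⟨X, ?_⟩
  apply le_antisymm
  · apply Subgroup.normalClosure_le_normal
    intro x hx
    simp only [X, Finset.coe_union, Finset.coe_image, Set.mem_union, Set.mem_image,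
      Finset.mem_coe, Finset.mem_product, Prod.exists] at hx
    rcases hx with ⟨a, b, -, rfl⟩ | ⟨y, hy, rfl⟩
    · apply hN
      rw [commutator_def]
      exact Subgroup.commutator_mem_commutator (Subgroup.mem_top _) (Subgroup.mem_top _)
    · exact hf1 y hy
  · have h1 : commutator G ≤ Subgroup.normalClosure (X : Set G) := by
      apply G2_comm_le (S : Set G) hS
      intro a ha b hb
      apply Subgroup.subset_normalClosure
      simp only [X, Finset.coe_union, Finset.coe_image, Set.mem_union, Set.mem_image,
        Finset.mem_coe, Finset.mem_product, Prod.exists]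
      exact Or.inl ⟨a, b, ⟨ha, hb⟩, rfl⟩
    have h2 : N.map (Abelianization.of : G →* Abelianization G) ≤
        (Subgroup.normalClosure (X : Set G)).map (Abelianization.of : G →* Abelianization G) := by
      rw [← hY, Subgroup.closure_le]
      intro y hy
      refine ⟨f y, Subgroup.subset_normalClosure ?_, hf2 y hy⟩
      simp only [X, Finset.coe_union, Finset.coe_image, Set.mem_union, Set.mem_image,
        Finset.mem_coe]
      exact Or.inr ⟨y, hy, rfl⟩
    intro n hn
    obtain ⟨m, hm, hmn⟩ := h2 (Subgroup.mem_map_of_mem _ hn)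
    have h3 : m⁻¹ * n ∈ commutator G := QuotientGroup.eq.1 hmn
    have h4 := (Subgroup.normalClosure (X : Set G)).mul_mem hm (h1 h3)
    simpa using h4

end Pool.Agent.Lib.MP_c7b0ca_fe
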