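import Pool.Agent.Lib.MP_c7b0ca_fe.TT

/-!
ROW SC (Schreier generators): the image of `Nb ρ` in `G/R` lies in a subgroup of `N/R` generated by
at most `d (2ρ+1)^d` elements.

PROOF. `H = G ⧸ N`. Choose a section `τ : H → G` with `τ 1 = 1`. For `h` in the image `B` of `T ρ` and `i : Fin d`,
`p h i = (τ (g_i h))⁻¹ * g_i * τ h ∈ N`. For a word `w = x :: w'` of length `≤ ρ` (induction on `w`):
`ev w = τ(ev w) * p(ev w', x) * (stuff)`, precisely `(τ (ev w))⁻¹ * ev w ∈ closure {p h i | h ∈ B}`, because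
`(τ (g_x ev w'))⁻¹ g_x ev w' = p(ev w', x) * ((τ (ev w'))⁻¹ * ev w')`. If `ev w ∈ N` then `τ (ev w) = τ 1 = 1`. `B` is
contained in the set of the classes of `q y`, `|y i| ≤ ρ` (`exists_pos`), so `card B ≤ (2ρ+1)^d`.
`X` = image of all `p h i` in `G ⧸ R`.
-/

open scoped Pointwise commutatorElement

namespace Pool.Agent.Lib.MP_c7b0ca_fe

variable {G V : Type*} [Group G] [AddCommGroup V] [Module (ZMod 2) V] (s : Setup G V)

theorem schreier (ρ : ℕ) :
    ∃ X : Finset (G ⧸ s.R), X.card ≤ s.d * (2 * ρ + 1) ^ s.d ∧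
      (∀ x ∈ X, x ∈ s.N.map (QuotientGroup.mk' s.R)) ∧
      ∀ y ∈ s.Nb ρ, (y : G ⧸ s.R) ∈ Subgroup.closure (X : Set (G ⧸ s.R)) := by
  classical
  let τ : G ⧸ s.N → G := fun h => if h = 1 then 1 else Quotient.out h
  have hτ1 : τ 1 = 1 := if_pos rfl
  have hτ : ∀ h, (τ h : G ⧸ s.N) = h := by
    intro h
    by_cases hh : h = 1
    · rw [hh, hτ1]; rfl
    · show ((if h = 1 then (1 : G) else Quotient.out h : G) : G ⧸ s.N) = h
      rw [if_neg hh]; exact QuotientGroup.out_eq' h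
  let p : G ⧸ s.N → Fin s.d → G := fun h i => (τ ((s.g i : G ⧸ s.N) * h))⁻¹ * s.g i * τ h
  have hpN : ∀ h i, p h i ∈ s.N := by
    intro h i
    rw [← QuotientGroup.eq_one_iff]
    simp only [p, QuotientGroup.mk_mul, QuotientGroup.mk_inv, hτ]
    group
  let Y : Finset (Fin s.d → ℤ) := Fintype.piFinset fun _ => Finset.Icc (-(ρ : ℤ)) ρ
  have hYc : Y.card = (2 * ρ + 1) ^ s.d := by
    simp only [Y, Fintype.card_piFinset, Int.card_Icc, Finset.prod_const, Finset.card_univ,
      Fintype.card_fin]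
    congr 1
    omega
  let X : Finset (G ⧸ s.R) := ((Finset.univ : Finset (Fin s.d)) ×ˢ Y).image
    fun k => ((p (s.q k.2 : G ⧸ s.N) k.1 : G) : G ⧸ s.R)
  refine ⟨X, ?_, ?_, ?_⟩
  · refine le_trans Finset.card_image_le ?_
    rw [Finset.card_product, hYc, Finset.card_univ, Fintype.card_fin]
  · intro x hx
    obtain ⟨k, -, rfl⟩ := Finset.mem_image.1 hx
    exact ⟨_, hpN _ _, rfl⟩
  · have hX : ∀ h : G, h ∈ s.T ρ → ∀ i, ((p (h : G ⧸ s.N) i : G) : G ⧸ s.R) ∈
        Subgroup.closure (X : Set (G ⧸ s.R)) := by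
      intro h hh i
      obtain ⟨y, hy1, hy2⟩ := s.exists_pos hh
      apply Subgroup.subset_closure
      rw [Finset.mem_coe]
      refine Finset.mem_image.2 ⟨(i, y), ?_, ?_⟩
      · rw [Finset.mem_product]
        refine ⟨Finset.mem_univ _, Fintype.mem_piFinset.2 fun j => Finset.mem_Icc.2 ?_⟩
        exact abs_le.1 (hy1 j)
      · show ((p (s.q y : G ⧸ s.N) i : G) : G ⧸ s.R) = _
        rw [hy2]
    have hw : ∀ w : List (Fin s.d), w.length ≤ ρ →
        (((τ (s.ev w : G ⧸ s.N))⁻¹ * s.ev w : G) : G ⧸ s.R) ∈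
          Subgroup.closure (X : Set (G ⧸ s.R)) := by
      intro w
      induction w with
      | nil =>
        intro _
        have e : (τ ((s.ev [] : G) : G ⧸ s.N))⁻¹ * s.ev [] = 1 := by
          rw [s.ev_nil, QuotientGroup.mk_one, hτ1, inv_one, one_mul]
        rw [e, QuotientGroup.mk_one]
        exact Subgroup.one_mem _
      | cons x w ih =>
        intro hl
        rw [List.length_cons] at hl
        have h1 := ih (by omega)
        have h2 := hX (s.ev w) ⟨w, by omega, rfl⟩ x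
        have e : (τ ((s.ev (x :: w) : G) : G ⧸ s.N))⁻¹ * s.ev (x :: w) =
            p ((s.ev w : G) : G ⧸ s.N) x * ((τ ((s.ev w : G) : G ⧸ s.N))⁻¹ * s.ev w) := by
          simp only [p, s.ev_cons, QuotientGroup.mk_mul]
          group
        rw [e, QuotientGroup.mk_mul]
        exact Subgroup.mul_mem _ h2 h1
    have hle : s.Nb ρ ≤ (Subgroup.closure (X : Set (G ⧸ s.R))).comap (QuotientGroup.mk' s.R) := by
      unfold Setup.Nb
      rw [Subgroup.closure_le]
      rintro y ⟨hyN, w, hwl, rfl⟩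
      have h1 := hw w hwl
      have h2 : ((s.ev w : G) : G ⧸ s.N) = 1 := (QuotientGroup.eq_one_iff _).2 hyN
      rw [h2, hτ1, inv_one, one_mul] at h1
      exact h1
    intro y hy
    exact hle hy

end Pool.Agent.Lib.MP_c7b0ca_fe
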