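import Pool.Agent.Lib.MP_c7b0ca_fe.N2
import Pool.Agent.Lib.MP_c7b0ca_fe.SC
import Pool.Agent.Lib.MP_c7b0ca_fe.EX
import Pool.Agent.Lib.MP_c7b0ca_fe.G2

/-!
ROW HD: elements of high degree vanish up to the odd part.

PROOF. (1) Uniform exponent: `G` is finitely generated (`s.gen`), so `N = normalClosure X` with `X` finite
(`fg_normalClosure`); by torsion there is `e > 0` with `x^e ∈ R` for `x ∈ X`. For every subgroup `K` of `N/R ≤ G ⧸ R`:
`lcN K c = ⊥` (`hnil`), and the whole `N/R` is generated by conjugates of the images of `X`, so by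
`nilpotent_exponent` it has exponent `e^c =: 2^a * m`, `m` odd (`Nat.exists_eq_two_pow_mul_odd`).
(2) Given `ρ` let `K = closure X_ρ ≤ G ⧸ R` (`schreier`), `D = s.d (2ρ+1)^(s.d)`. The representation `ρQ` restricted
to `K`; `odd_part` gives `O`, `F` in `K`; map them to `G ⧸ R`.
(3) For `x ∈ Nb ρ`, `s.ρ x = ρQ (x : G ⧸ R)` and `(x : G ⧸ R) ∈ K`. `a ∈ Dl (Nb ρ) n` acts as a sum of operators
`∏_{i<n} (π x_i + 1) * π y`, `x_i, y ∈ K` (`Submodule.mul_induction_on`, `Submodule.pow_induction_on_left` or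
`span_pow`). So `E * act a = 0` if `n ≥ (2^a (D+1)^c)^c`.
(4) `(2^a (d (2ρ+1)^d + 1)^c)^c ≤ C (ρ+1)^k` for suitable `C, k`
(e.g. `d (2ρ+1)^d + 1 ≤ (d+1) 2^d (ρ+1)^d`, `k = d c c`).
-/

open scoped Pointwise commutatorElement

namespace Pool.Agent.Lib.MP_c7b0ca_fe

variable {G V : Type*} [Group G] [AddCommGroup V] [Module (ZMod 2) V] (s : Setup G V)

/-- the action of `G/R` on `V` -/
noncomputable def Setup.ρQ : G ⧸ s.R →* Module.End (ZMod 2) V :=
  QuotientGroup.lift s.R s.ρ (fun _ hx => s.ρ_R hx)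

theorem Setup.ρQ_mk (x : G) : s.ρQ (x : G ⧸ s.R) = s.ρ x := rfl

private theorem hd_map {G H : Type*} [Group G] [Group H] (f : G →* H) (N : Subgroup G) (i : ℕ) :
    (lcN N i).map f = lcN (N.map f) i := by
  induction i with
  | zero => rfl
  | succ i ih =>
    show (⁅lcN N i, N⁆).map f = ⁅lcN (N.map f) i, N.map f⁆
    rw [Subgroup.map_commutator, ih]

private theorem hd_mono {G : Type*} [Group G] {N N' : Subgroup G} (h : N ≤ N') (i : ℕ) :
    lcN N i ≤ lcN N' i := by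
  induction i with
  | zero => exact h
  | succ i ih => exact Subgroup.commutator_mono ih h

private theorem hd_top {Q : Type*} [Group Q] {K : Subgroup Q} {c : ℕ} (h : lcN K c = ⊥) :
    lcN (⊤ : Subgroup K) c = ⊥ := by
  rw [← Subgroup.map_eq_bot_iff_of_injective _ K.subtype_injective, hd_map]
  have : (⊤ : Subgroup K).map K.subtype = K := by
    rw [← MonoidHom.range_eq_map, Subgroup.range_subtype]
  rw [this, h]

private theorem hd_exp {Q : Type*} [Group Q] (Z : Set Q) (e c : ℕ) (hZ : ∀ z ∈ Z, z ^ e = 1)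
    (hc : lcN (Subgroup.closure Z) c = ⊥) : ∀ y ∈ Subgroup.closure Z, y ^ (e ^ c) = 1 := by
  intro y hy
  have h := nilpotent_exponent (K := Subgroup.closure Z) c e (Subtype.val ⁻¹' Z)
    Subgroup.closure_closure_coe_preimage (fun x hx => Subtype.ext (hZ _ hx)) (hd_top hc) ⟨y, hy⟩
  exact congrArg Subtype.val h

private theorem hd_bd (d a c ρ : ℕ) : (2 ^ a * (d * (2 * ρ + 1) ^ d + 1) ^ c) ^ c
    ≤ (2 ^ a * ((d + 1) * 2 ^ d) ^ c) ^ c * (ρ + 1) ^ (d * c * c) := by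
  have h1 : (2 * ρ + 1) ^ d ≤ 2 ^ d * (ρ + 1) ^ d := by
    rw [← mul_pow]
    exact Nat.pow_le_pow_left (by omega) d
  have h2 : d * (2 * ρ + 1) ^ d + 1 ≤ (d + 1) * 2 ^ d * (ρ + 1) ^ d := by
    have h3 : 1 ≤ 2 ^ d * (ρ + 1) ^ d := Nat.one_le_iff_ne_zero.2 (by positivity)
    calc d * (2 * ρ + 1) ^ d + 1 ≤ d * (2 ^ d * (ρ + 1) ^ d) + 2 ^ d * (ρ + 1) ^ d :=
          Nat.add_le_add (Nat.mul_le_mul_left d h1) h3
      _ = _ := by ring
  calc (2 ^ a * (d * (2 * ρ + 1) ^ d + 1) ^ c) ^ c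
      ≤ (2 ^ a * ((d + 1) * 2 ^ d * (ρ + 1) ^ d) ^ c) ^ c :=
        Nat.pow_le_pow_left (Nat.mul_le_mul_left _ (Nat.pow_le_pow_left h2 c)) c
    _ = _ := by
        rw [mul_pow ((d + 1) * 2 ^ d), ← pow_mul, ← mul_assoc, mul_pow _ ((ρ + 1) ^ (d * c)),
          ← pow_mul]

theorem high_degree (c : ℕ) (hnil : lcN s.N c ≤ s.R) (htors : ∀ x ∈ s.N, ∃ n > 0, x ^ n ∈ s.R) :
    ∃ C k : ℕ, ∀ ρ : ℕ, ∃ (T0 : Subgroup (G ⧸ s.R)) (F : Finset (G ⧸ s.R)),
      (F : Set (G ⧸ s.R)) = T0 ∧ Odd F.card ∧ T0 ≤ s.N.map (QuotientGroup.mk' s.R) ∧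
      ∀ n, C * (ρ + 1) ^ k ≤ n → ∀ a ∈ Dl (s.Nb ρ) n, ∀ v : V,
        ∑ t ∈ F, s.ρQ t (s.act a v) = 0 := by
  classical
  haveI : Group.FG G := Group.fg_iff.2 ⟨Set.range s.g, s.gen, Set.finite_range _⟩
  obtain ⟨X, hX⟩ := fg_normalClosure s.N s.comm
  have hXN : ∀ x ∈ X, x ∈ s.N := fun x hx => by
    rw [← hX]
    exact Subgroup.subset_normalClosure hx
  choose! nx hnx hnx' using htors
  obtain ⟨e, he⟩ : ∃ e, e = ∏ x ∈ X, nx x := ⟨_, rfl⟩
  have he0 : e ≠ 0 := by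
    rw [he]
    exact Finset.prod_ne_zero_iff.2 fun x hx => (hnx x (hXN x hx)).ne'
  have heX : ∀ x ∈ X, x ^ e ∈ s.R := by
    intro x hx
    obtain ⟨q, hq⟩ : nx x ∣ e := by
      rw [he]
      exact Finset.dvd_prod_of_mem _ hx
    rw [hq, pow_mul]
    exact Subgroup.pow_mem _ (hnx' x (hXN x hx)) q
  obtain ⟨Nq, hNq⟩ : ∃ Nq, Nq = s.N.map (QuotientGroup.mk' s.R) := ⟨_, rfl⟩
  have hNqc : lcN Nq c = ⊥ := by
    rw [hNq, ← hd_map, eq_bot_iff]
    rintro _ ⟨x, hx, rfl⟩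
    rw [Subgroup.mem_bot]
    exact (QuotientGroup.eq_one_iff x).2 (hnil hx)
  have hNqexp : ∀ y ∈ Nq, y ^ (e ^ c) = 1 := by
    have h1 : Nq = Subgroup.closure ((QuotientGroup.mk' s.R) '' Group.conjugatesOfSet (X : Set G)) := by
      rw [hNq, ← hX, Subgroup.normalClosure, MonoidHom.map_closure]
    have h2 : ∀ z ∈ (QuotientGroup.mk' s.R) '' Group.conjugatesOfSet (X : Set G), z ^ e = 1 := by
      rintro _ ⟨y, hy, rfl⟩
      rw [Group.mem_conjugatesOfSet_iff] at hy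
      obtain ⟨x, hx, hxy⟩ := hy
      rw [isConj_iff] at hxy
      obtain ⟨g, rfl⟩ := hxy
      rw [← map_pow, conj_pow]
      exact (QuotientGroup.eq_one_iff _).2 (s.hR.conj_mem _ (heX x hx) g)
    have h3 := hd_exp _ e c h2 (by rw [← h1]; exact hNqc)
    rw [h1]
    exact h3
  obtain ⟨a, m, hm, ham⟩ := Nat.exists_eq_two_pow_mul_odd (n := e ^ c) (pow_ne_zero c he0)
  refine ⟨(2 ^ a * ((s.d + 1) * 2 ^ s.d) ^ c) ^ c, s.d * c * c, fun ρ => ?_⟩
  obtain ⟨X', hX'c, hX'N, hX'g⟩ := schreier s ρ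
  obtain ⟨K, hK⟩ : ∃ K, K = Subgroup.closure (X' : Set (G ⧸ s.R)) := ⟨_, rfl⟩
  have hKN : K ≤ Nq := by
    rw [hK, hNq, Subgroup.closure_le]
    exact fun x hx => hX'N x hx
  have hKc : lcN K c = ⊥ := by
    rw [eq_bot_iff, ← hNqc]
    exact hd_mono hKN c
  have hKtop : lcN (⊤ : Subgroup K) c = ⊥ := hd_top hKc
  have hgen : Subgroup.closure ((X'.subtype (fun x => x ∈ K) : Finset K) : Set K) = ⊤ := by
    have h1 : ((X'.subtype (fun x => x ∈ K) : Finset K) : Set K)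
        = Subtype.val ⁻¹' (X' : Set (G ⧸ s.R)) := by
      ext x
      simp
    rw [h1]
    subst hK
    exact Subgroup.closure_closure_coe_preimage
  have hcard : (X'.subtype (fun x => x ∈ K)).card ≤ s.d * (2 * ρ + 1) ^ s.d := by
    rw [Finset.card_subtype]
    exact (Finset.card_filter_le _ _).trans hX'c
  have hKexp : ∀ x : K, x ^ (2 ^ a * m) = 1 := by
    intro x
    rw [← ham]
    exact Subtype.ext (hNqexp _ (hKN x.2))
  obtain ⟨O, F, hFO, hFodd, hF⟩ := odd_part (s.ρQ.comp K.subtype) c a (s.d * (2 * ρ + 1) ^ s.d) m hm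
    (X'.subtype (fun x => x ∈ K)) hgen hcard hKtop hKexp
  refine ⟨O.map K.subtype, F.map ⟨Subtype.val, Subtype.val_injective⟩, ?_, ?_, ?_, ?_⟩
  · ext x
    simp only [Finset.coe_map, Function.Embedding.coeFn_mk, hFO, Subgroup.coe_map,
      Subgroup.coe_subtype]
  · rw [Finset.card_map]
    exact hFodd
  · rw [← hNq]
    rintro _ ⟨x, _, rfl⟩
    exact hKN x.2
  · intro n hn b hb v
    have hn' : (2 ^ a * (s.d * (2 * ρ + 1) ^ s.d + 1) ^ c) ^ c ≤ n := (hd_bd s.d a c ρ).trans hn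
    rw [Finset.sum_map]
    obtain ⟨E, hE⟩ : ∃ E : Module.End (ZMod 2) V, E = ∑ t ∈ F, (s.ρQ.comp K.subtype) t := ⟨_, rfl⟩
    have hEv : ∀ u : V, ∑ t ∈ F, s.ρQ ((⟨Subtype.val, Subtype.val_injective⟩ : K ↪ G ⧸ s.R) t) u
        = E u := by
      intro u
      rw [hE, LinearMap.sum_apply]
      rfl
    rw [hEv]
    have hpow : ∀ m' ∈ (Submodule.span (ZMod 2) {c : SA G | ∃ x ∈ s.Nb ρ, c = o x + 1}) ^ n,
        E * s.act m' = 0 := by
      intro m' hm'
      rw [Submodule.span_pow] at hm'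
      induction hm' using Submodule.span_induction with
      | mem y hy =>
        rw [Set.mem_pow] at hy
        obtain ⟨f, rfl⟩ := hy
        choose x hx hxf using fun i => (f i).2
        have h1 : s.act (List.ofFn fun i => ((f i : SA G))).prod
            = ((List.ofFn fun i => (⟨(x i : G ⧸ s.R), by
              rw [hK]; exact hX'g _ (hx i)⟩ : K)).map
                fun y => (s.ρQ.comp K.subtype) y + 1).prod := by
          rw [map_list_prod, List.map_ofFn, List.map_ofFn]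
          congr 2
          funext i
          simp only [Function.comp_apply, hxf i, map_add, map_one, Setup.act_o]
          rfl
        rw [h1, hE]
        exact hF _ (by rw [List.length_ofFn]; exact hn')
      | zero => rw [map_zero, mul_zero]
      | add y z _ _ hy hz => rw [map_add, mul_add, hy, hz, add_zero]
      | smul t y _ hy => rw [map_smul, mul_smul_comm, hy, smul_zero]
    unfold Dl at hb
    induction hb using Submodule.mul_induction_on' with
    | mem_mul_mem m' hm' b' hb' =>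
      rw [Setup.act_mul_apply]
      have := congrArg (fun T : Module.End (ZMod 2) V => T (s.act b' v)) (hpow m' hm')
      simpa using this
    | add y _ z _ hy hz => rw [map_add, LinearMap.add_apply, map_add, hy, hz, add_zero]

end Pool.Agent.Lib.MP_c7b0ca_fe
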