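import Pool.Agent.Lib.MP_c7b0ca_fe.TT

/-!
ROW II: the finitely generated abelian group `G/N` has finitely many involutions.

PROOF. `H = G ⧸ N` with its `CommGroup` structure (`quot_comm`) is finitely generated, so Noetherian as an
abelian group; the subgroup `{h | h * h = 1}` is finitely generated of exponent 2, so finite. (Or:
`finite_of_torsion` in `Pool.Agent.Lib.MP_c7b0ca_al.Main`, or the structure theorem of finitely generated abelian groups.)
-/

open scoped Pointwise commutatorElement

namespace Pool.Agent.Lib.MP_c7b0ca_fe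

private theorem ii_aux (H : Type*) [CommGroup H] [Group.FG H] : {h : H | h * h = 1}.Finite := by
  have : Module.Finite ℤ (Additive H) := Module.Finite.iff_addGroup_fg.2 inferInstance
  let T : Submodule ℤ (Additive H) := LinearMap.ker (LinearMap.lsmul ℤ (Additive H) 2)
  have : Module.Finite ℤ T := inferInstance
  have hT : Finite T := by
    apply Module.finite_of_fg_torsion
    intro x
    refine ⟨⟨2, by simp⟩, ?_⟩
    have h2 : (2 : ℤ) • (x : Additive H) = 0 := LinearMap.mem_ker.1 x.2
    apply Subtype.ext
    exact h2
  have hfin : (T : Set (Additive H)).Finite := hT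
  refine Set.Finite.subset (hfin.image Additive.toMul) ?_
  intro h hh
  refine ⟨Additive.ofMul h, ?_, rfl⟩
  show (2 : ℤ) • Additive.ofMul h = 0
  rw [two_smul]
  exact hh

variable {G V : Type*} [Group G] [AddCommGroup V] [Module (ZMod 2) V] (s : Setup G V)

theorem finite_invol : {h : G ⧸ s.N | h ≠ 1 ∧ h * h = 1}.Finite := by
  have : Group.FG G := by
    rw [Group.fg_iff]
    exact ⟨Set.range s.g, s.gen, Set.finite_range _⟩
  let : CommGroup (G ⧸ s.N) :=
    { (inferInstance : Group (G ⧸ s.N)) with mul_comm := s.quot_comm }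
  have : Group.FG (G ⧸ s.N) := QuotientGroup.fg s.N
  exact Set.Finite.subset (ii_aux (G ⧸ s.N)) (fun h hh => hh.2)

end Pool.Agent.Lib.MP_c7b0ca_fe
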