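import Pool.Agent.Lib.MP_c7b0ca_fe.TT

/-!
ROW MG (generation): `V` is generated by finitely many elements as an `SA G`-module, modulo the
classes of the balanced words.

PROOF. `H = G ⧸ N` is a finitely generated commutative group, so `Λ = MonoidAlgebra (ZMod 2) H` is a
commutative Noetherian ring (`MonoidAlgebra.finiteType_of_fg`, `Algebra.FiniteType.isNoetherianRing`; give `H` its
`CommGroup` structure by `quot_comm`). `DH w : Fin d → Λ` = image of `D w` (map `o x ↦ of (x : H)`,
`MonoidAlgebra.mapDomain`/`lift`); `w` is balanced iff `DH w = 0` (the coefficient of `DH w j` at `h` is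
`aug (comp N h (D w j))`). `U = {DH w | ev w ∈ R}` is a `Λ`-submodule of `Fin d → Λ`: closed under addition
(`D_append`, `ev w' ∈ R ≤ N` is trivial in `H`), and for `h ∈ H` choose words `u, u'` with `ev u' = (ev u)⁻¹` and
`(ev u' : H) = h` (`ev_surj`): `DH (u ++ w ++ u') = DH w * h + DH (u ++ u')`, so
`DH (u ++ w ++ u' ++ u ++ u') = DH w * h` (char 2); values in `R`. It is the span of `DH w_1, .., DH w_k`.
Put `m_i = clw w_i`. For `ev w ∈ R` write `DH w = Σ_i λ_i DH w_i`, `λ_i = Σ_{h ∈ Λ_i} h` (coefficients in `ZMod 2`).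
Then `W = w ++ (the words u ++ w_i ++ u' ++ u ++ u')` over all `i`, `h ∈ Λ_i` is balanced and
`clw W = clw w + Σ ρ(ev u) (clw w_i)`. Every `v ∈ V` is `clx x`, `x ∈ R`, `x = ev w`. So even one list `L = [W]` works.
-/

open scoped Pointwise commutatorElement

namespace Pool.Agent.Lib.MP_c7b0ca_fe

variable {G V : Type*} [Group G] [AddCommGroup V] [Module (ZMod 2) V] (s : Setup G V)

/-- functoriality of the group algebra -/
private noncomputable def pr {H : Type*} [Group H] (p : G →* H) : SA G →ₐ[ZMod 2] SA H :=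
  MonoidAlgebra.lift (ZMod 2) (SA H) G (o.comp p)

private theorem pr_o {H : Type*} [Group H] (p : G →* H) (x : G) : pr p (o x) = o (p x) := by
  simp [pr, o]

private theorem pr_D_append {H : Type*} [Group H] (p : G →* H) (w w' : List (Fin s.d))
    (j : Fin s.d) :
    pr p (s.D (w ++ w') j) = pr p (s.D w j) * o (p (s.ev w')) + pr p (s.D w' j) := by
  rw [s.D_append, map_add, map_mul, pr_o]

private theorem clw_of (w : List (Fin s.d)) : s.clw w = s.clx (s.ev w) := rfl

private theorem key {H : Type*} [CommGroup H] (p : G →* H) (hp : Function.Surjective p)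
    (hR : ∀ x ∈ s.R, p x = 1) {k : ℕ} (w : Fin k → List (Fin s.d)) (hw : ∀ i, s.ev (w i) ∈ s.R)
    (u : Fin s.d → SA H)
    (hu : u ∈ Submodule.span (SA H) (Set.range fun i j => pr p (s.D (w i) j))) :
    ∃ (c : Fin k → SA G) (W : List (Fin s.d)), s.ev W ∈ s.R ∧ (∀ j, pr p (s.D W j) = u j) ∧
      s.clw W = ∑ i, s.act (c i) (s.clw (w i)) := by
  classical
  induction hu using Submodule.span_induction with
  | mem u hu =>
    obtain ⟨i, rfl⟩ := hu
    refine ⟨Pi.single i 1, w i, hw i, fun j => rfl, ?_⟩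
    rw [Finset.sum_eq_single i]
    · simp
    · intro j _ hj
      simp [Pi.single_eq_of_ne hj]
    · intro h
      exact absurd (Finset.mem_univ i) h
  | zero =>
    refine ⟨0, [], by simp [s.R.one_mem], fun j => by simp [Setup.D], ?_⟩
    simp [clw_of, s.clx_one]
  | add u u' _ _ hu hu' =>
    obtain ⟨c, W, hW, hD, hc⟩ := hu
    obtain ⟨c', W', hW', hD', hc'⟩ := hu'
    refine ⟨c + c', W ++ W', ?_, ?_, ?_⟩
    · rw [s.ev_append]
      exact s.R.mul_mem hW hW'
    · intro j
      rw [pr_D_append, hR _ hW', map_one, mul_one, hD, hD']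
      rfl
    · rw [s.clw_append hW hW', hc, hc', ← Finset.sum_add_distrib]
      refine Finset.sum_congr rfl fun i _ => ?_
      rw [Pi.add_apply, map_add]
      rfl
  | smul a u _ hu =>
    obtain ⟨c, W, hW, hD, hc⟩ := hu
    induction a using SA_induction with
    | h0 =>
      refine ⟨0, [], by simp [s.R.one_mem], fun j => by simp [Setup.D], ?_⟩
      simp [clw_of, s.clx_one]
    | h1 h =>
      obtain ⟨x, rfl⟩ := hp h
      obtain ⟨u1, hu1⟩ := s.ev_surj x⁻¹
      obtain ⟨u2, hu2⟩ := s.ev_surj x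
      have e1 : s.ev (u1 ++ (W ++ u2)) ∈ s.R := by
        rw [s.ev_append, s.ev_append, hu1, hu2]
        have := s.hR.conj_mem _ hW x⁻¹
        rwa [inv_inv, mul_assoc] at this
      have e2 : s.ev (u1 ++ u2) ∈ s.R := by
        rw [s.ev_append, hu1, hu2, inv_mul_cancel]
        exact s.R.one_mem
      refine ⟨fun i => o x⁻¹ * c i, (u1 ++ (W ++ u2)) ++ (u1 ++ u2), ?_, ?_, ?_⟩
      · rw [s.ev_append]
        exact s.R.mul_mem e1 e2
      · intro j
        rw [pr_D_append, hR _ e2, map_one, mul_one, pr_D_append, pr_D_append, pr_D_append,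
          hD, s.ev_append, hu2, map_mul, hR _ hW, one_mul, Pi.smul_apply, smul_eq_mul,
          mul_comm (u j)]
        have h2 := SA_two (pr p (s.D u1 j) * o (p x) + pr p (s.D u2 j))
        calc pr p (s.D u1 j) * o (p x) + (o (p x) * u j + pr p (s.D u2 j)) +
              (pr p (s.D u1 j) * o (p x) + pr p (s.D u2 j))
            = o (p x) * u j + ((pr p (s.D u1 j) * o (p x) + pr p (s.D u2 j)) +
              (pr p (s.D u1 j) * o (p x) + pr p (s.D u2 j))) := by abel
          _ = _ := by rw [h2, add_zero]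
      · rw [s.clw_append e1 e2]
        have h1 : s.clw (u1 ++ u2) = 0 := by
          rw [clw_of, s.ev_append, hu1, hu2, inv_mul_cancel, s.clx_one]
        have h2 : s.clw (u1 ++ (W ++ u2)) = s.ρ x⁻¹ (s.clw W) := by
          have := s.clx_conj x⁻¹ hW
          rw [inv_inv] at this
          rw [clw_of, s.ev_append, s.ev_append, hu1, hu2, ← mul_assoc, this]
          rfl
        rw [h1, h2, add_zero, hc, map_sum]
        refine Finset.sum_congr rfl fun i _ => ?_
        rw [s.act_mul_apply, s.act_o]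
    | h2 a b ha hb =>
      obtain ⟨c1, W1, hW1, hD1, hc1⟩ := ha
      obtain ⟨c2, W2, hW2, hD2, hc2⟩ := hb
      refine ⟨c1 + c2, W1 ++ W2, ?_, ?_, ?_⟩
      · rw [s.ev_append]
        exact s.R.mul_mem hW1 hW2
      · intro j
        rw [pr_D_append, hR _ hW2, map_one, mul_one, hD1, hD2, add_smul]
        rfl
      · rw [s.clw_append hW1 hW2, hc1, hc2, ← Finset.sum_add_distrib]
        refine Finset.sum_congr rfl fun i _ => ?_
        rw [Pi.add_apply, map_add]
        rfl

private theorem coeff_pr (N : Subgroup G) [N.Normal] (a : SA G) (h : G ⧸ N) :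
    (pr (QuotientGroup.mk' N) a).coeff h = aug (comp N h a) := by
  classical
  induction a using SA_induction with
  | h0 => simp
  | h1 x =>
    rw [pr_o, comp_o]
    by_cases hx : (x : G ⧸ N) = h
    · subst hx
      rw [if_pos rfl, aug_o]
      simp [o]
    · rw [if_neg hx, map_zero]
      simp [o, hx]
  | h2 a b ha hb => rw [map_add, map_add, map_add, ← ha, ← hb]; simp

private theorem bal_of (W : List (Fin s.d))
    (h : ∀ j, pr (QuotientGroup.mk' s.N) (s.D W j) = 0) : s.Bal W := by
  intro j x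
  rw [← coeff_pr, h]
  simp

theorem generation :
    ∃ (k : ℕ) (m : Fin k → V), ∀ v : V, ∃ (c : Fin k → SA G) (W : List (Fin s.d)),
      s.Bal W ∧ s.ev W ∈ s.R ∧ v = ∑ i, s.act (c i) (m i) + s.clw W := by
  classical
  let _ : CommGroup (G ⧸ s.N) :=
    { (inferInstance : Group (G ⧸ s.N)) with mul_comm := s.quot_comm }
  have hfgG : Group.FG G := Group.fg_iff.mpr ⟨Set.range s.g, s.gen, Set.finite_range s.g⟩
  have hfg : Group.FG (G ⧸ s.N) :=
    Group.fg_of_surjective (f := QuotientGroup.mk' s.N) (QuotientGroup.mk'_surjective s.N)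
  have hfg' : Monoid.FG (G ⧸ s.N) := Group.fg_iff_monoid_fg.mp hfg
  have hft : Algebra.FiniteType (ZMod 2) (SA (G ⧸ s.N)) := MonoidAlgebra.finiteType_of_fg
  have hN : IsNoetherianRing (SA (G ⧸ s.N)) :=
    Algebra.FiniteType.isNoetherianRing (ZMod 2) (SA (G ⧸ s.N))
  set p : G →* G ⧸ s.N := QuotientGroup.mk' s.N with hp
  have hR : ∀ x ∈ s.R, p x = 1 := fun x hx => by
    rw [hp, QuotientGroup.mk'_apply, QuotientGroup.eq_one_iff]
    exact s.le hx
  let U : Set (Fin s.d → SA (G ⧸ s.N)) :=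
    {u | ∃ w : List (Fin s.d), s.ev w ∈ s.R ∧ (fun j => pr p (s.D w j)) = u}
  have hU : (Submodule.span (SA (G ⧸ s.N)) U).FG := IsNoetherian.noetherian _
  obtain ⟨T, hT, hspan⟩ := (Submodule.fg_span_iff_fg_span_finset_subset U).mp hU
  have hw : ∀ t : T, ∃ w : List (Fin s.d), s.ev w ∈ s.R ∧ (fun j => pr p (s.D w j)) = t.1 :=
    fun t => hT t.2
  choose wt hwt hwt' using hw
  let w : Fin T.card → List (Fin s.d) := fun i => wt (T.equivFin.symm i)
  refine ⟨T.card, fun i => s.clw (w i), fun v => ?_⟩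
  obtain ⟨x, hx, rfl⟩ := s.clx_surj v
  obtain ⟨w0, rfl⟩ := s.ev_surj x
  have hmem : (fun j => pr p (s.D w0 j)) ∈
      Submodule.span (SA (G ⧸ s.N)) (Set.range fun i j => pr p (s.D (w i) j)) := by
    have h1 : (fun j => pr p (s.D w0 j)) ∈ Submodule.span (SA (G ⧸ s.N)) U :=
      Submodule.subset_span ⟨w0, hx, rfl⟩
    rw [hspan] at h1
    refine Submodule.span_mono ?_ h1
    intro t ht
    refine ⟨T.equivFin ⟨t, ht⟩, ?_⟩
    have := hwt' ⟨t, ht⟩
    simp only [w, Equiv.symm_apply_apply]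
    exact this
  obtain ⟨c, W, hW, hD, hc⟩ := key s p (QuotientGroup.mk'_surjective s.N) hR w
    (fun i => hwt _) _ hmem
  refine ⟨c, w0 ++ W, ?_, ?_, ?_⟩
  · refine bal_of s _ fun j => ?_
    rw [pr_D_append]
    change pr p (s.D w0 j) * o (p (s.ev W)) + pr p (s.D W j) = 0
    rw [hR _ hW, map_one, mul_one, hD, SA_two]
  · rw [s.ev_append]
    exact s.R.mul_mem hx hW
  · rw [s.clw_append hx hW, ← hc, add_left_comm, Setup.V_two, add_zero]
    rfl

end Pool.Agent.Lib.MP_c7b0ca_fe
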