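import Pool.Agent.Lib.MP_c7b0ca_fe.B0

/-!
ROW O2: a finite subgroup `T` of odd order of `G/R` has a section which is multiplicative modulo the
kernel of `R → V`.

PROOF. Let `σ₀` be any section (`Quotient.out`), `f t t' = clx (σ₀ t * σ₀ t' * (σ₀ (t t'))⁻¹)`. Computing
`σ₀ t σ₀ t' σ₀ t''` in two ways (`clx_mul`, `clx_conj`, `ρ (r x) = ρ x` for `r ∈ R`):
`ρ(σ₀ t) f(t',t'') + f(t, t' t'') = f(t,t') + f(t t', t'')`. Put `β t = Σ_{t' ∈ T} f t t'`. Summation over `t'' ∈ T`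
(`card T` odd, characteristic 2): `f(t,t') = β t + ρ(σ₀ t) (β t') + β (t t')`. Choose `r_t ∈ R` with
`clx r_t = β t` (`clx_surj`) and `σ t = r_t * σ₀ t`.
-/

open scoped Pointwise commutatorElement

namespace Pool.Agent.Lib.MP_c7b0ca_fe

variable {G V : Type*} [Group G] [AddCommGroup V] [Module (ZMod 2) V] (s : Setup G V)

private theorem O2_two (v : V) : v + v = 0 := by
  have h : (2 : ZMod 2) • v = v + v := two_smul _ v
  rw [← h, show (2 : ZMod 2) = 0 from by decide, zero_smul]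

private theorem O2_odd {n : ℕ} (hn : Odd n) (v : V) : n • v = v := by
  obtain ⟨k, rfl⟩ := hn
  have h2 : v + v = 0 := O2_two v
  rw [add_smul, one_smul, mul_comm 2 k, mul_smul, two_smul, h2, smul_zero, zero_add]

theorem splitting (T : Subgroup (G ⧸ s.R)) [Finite T] (hT : Odd (Nat.card T)) :
    ∃ σ : G ⧸ s.R → G, (∀ t, (σ t : G ⧸ s.R) = t) ∧
      ∀ t ∈ T, ∀ t' ∈ T, s.clx (σ t * σ t' * (σ (t * t'))⁻¹) = 0 := by
  classical
  have := Fintype.ofFinite T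
  let σ₀ : G ⧸ s.R → G := fun t => Quotient.out t
  have hσ₀ : ∀ t, (σ₀ t : G ⧸ s.R) = t := fun t => QuotientGroup.out_eq' t
  let u : G ⧸ s.R → G ⧸ s.R → G := fun t t' => σ₀ t * σ₀ t' * (σ₀ (t * t'))⁻¹
  have hu : ∀ t t', u t t' ∈ s.R := by
    intro t t'
    rw [← QuotientGroup.eq_one_iff]
    simp only [u, QuotientGroup.mk_mul, QuotientGroup.mk_inv, hσ₀, mul_inv_cancel]
  let f : G ⧸ s.R → G ⧸ s.R → V := fun t t' => s.clx (u t t')
  have hcoc : ∀ t t' t'', s.ρ (σ₀ t) (f t' t'') + f t (t' * t'') = f t t' + f (t * t') t'' := by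
    intro t t' t''
    have h1 : σ₀ t * u t' t'' * (σ₀ t)⁻¹ * u t (t' * t'') = u t t' * u (t * t') t'' := by
      simp only [u, mul_assoc t t' t'']
      group
    have h2 : σ₀ t * u t' t'' * (σ₀ t)⁻¹ ∈ s.R := s.hR.conj_mem _ (hu _ _) _
    have h3 := congrArg s.clx h1
    rw [s.clx_mul h2 (hu _ _), s.clx_mul (hu _ _) (hu _ _), s.clx_conj _ (hu _ _)] at h3
    exact h3
  let β : G ⧸ s.R → V := fun t => ∑ t' : T, f t t'
  have hβ : ∀ t ∈ T, ∀ t' ∈ T, s.ρ (σ₀ t) (β t') + β t = f t t' + β (t * t') := by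
    intro t ht t' ht'
    have h1 : ∑ t'' : T, (s.ρ (σ₀ t) (f t' t'') + f t (t' * t'')) =
        ∑ t'' : T, (f t t' + f (t * t') t'') := Finset.sum_congr rfl fun t'' _ => hcoc _ _ _
    rw [Finset.sum_add_distrib, Finset.sum_add_distrib, ← map_sum, Finset.sum_const,
      Finset.card_univ, ← Nat.card_eq_fintype_card, O2_odd hT] at h1
    have h2 : ∑ t'' : T, f t (t' * t'') = ∑ t'' : T, f t t'' :=
      Fintype.sum_equiv (Equiv.mulLeft (⟨t', ht'⟩ : T)) _ _ (fun _ => rfl)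
    rw [h2] at h1
    exact h1
  have hr : ∀ t, ∃ x ∈ s.R, s.clx x = β t := fun t => s.clx_surj (β t)
  choose r hr1 hr2 using hr
  refine ⟨fun t => r t * σ₀ t, ?_, ?_⟩
  · intro t
    rw [QuotientGroup.mk_mul, hσ₀, (QuotientGroup.eq_one_iff _).2 (hr1 t), one_mul]
  · intro t ht t' ht'
    have e : r t * σ₀ t * (r t' * σ₀ t') * (r (t * t') * σ₀ (t * t'))⁻¹ =
        r t * (σ₀ t * r t' * (σ₀ t)⁻¹) * u t t' * (r (t * t'))⁻¹ := by
      simp only [u]; group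
    have h2 : σ₀ t * r t' * (σ₀ t)⁻¹ ∈ s.R := s.hR.conj_mem _ (hr1 _) _
    have h3 := s.R.mul_mem (hr1 t) h2
    have h4 := s.R.mul_mem h3 (hu t t')
    show s.clx (r t * σ₀ t * (r t' * σ₀ t') * (r (t * t') * σ₀ (t * t'))⁻¹) = 0
    rw [e, s.clx_mul h4 (s.R.inv_mem (hr1 _)), s.clx_mul h3 (hu t t'), s.clx_mul (hr1 t) h2,
      s.clx_conj _ (hr1 t'), s.clx_inv (hr1 _), hr2, hr2, hr2]
    have h5 := hβ t ht t' ht'
    have h6 : f t t' = s.clx (u t t') := rfl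
    rw [← h6, add_comm (β t), h5]
    have h7 : f t t' + β (t * t') + f t t' + β (t * t') =
        (f t t' + f t t') + (β (t * t') + β (t * t')) := by abel
    rw [h7, O2_two, O2_two, add_zero]

end Pool.Agent.Lib.MP_c7b0ca_fe
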