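import Pool.Agent.Lib.MP_c7b0ca_fe.O1
import Pool.Agent.Lib.MP_c7b0ca_fe.O2
import Pool.Agent.Lib.MP_c7b0ca_fe.TT
import Pool.Agent.Lib.MP_c7b0ca_fe.HD

/-!
ROW O3 (odd lemma).

PROOF. `P = N/R ≤ G ⧸ R` satisfies `lcN P c = ⊥`. The word ball `T m` is finite. By `odd_closure` (applied to
the group `P`; conjugates of elements of `T0` have odd order and are in `P`) the conjugates
`p⁻¹ t p`, `t ∈ T0`, `p ∈ T m`, generate a finite subgroup `T1` of odd order, and so do `T1` and all `g_j⁻¹ T1 g_j`: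
call it `T2 ≥ T1`. Let `σ` be the section of `splitting` for `T2`. For `t ∈ T1` put
`μ_j t = clx (σ t * g_j * (σ (g_j⁻¹ t g_j))⁻¹ * g_j⁻¹)` (the argument is in `R`). Because `t, g_j⁻¹ t g_j ∈ T2`:
`μ_j (t t') = μ_j t + ρQ t (μ_j t')` for `t, t' ∈ T1`. Put `b_j = Σ_{t ∈ T1} μ_j t`; summation over `t'`
(`card T1` odd): `μ_j t = b_j + ρQ t (b_j)`.
For `t ∈ T0` and `w = x_1 ⋯ x_L`, `ev w ∈ R`, `L ≤ m`, `p_k = g_{x_1} ⋯ g_{x_k}`, `t_k = p_k⁻¹ t p_k ∈ T1`, `t_L = t`: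
`σ t * ev w * (σ t)⁻¹ * (ev w)⁻¹ = ∏_k p_{k-1} [σ t_{k-1} g_{x_k} (σ t_k)⁻¹ g_{x_k}⁻¹] p_{k-1}⁻¹`, so
`ρQ t (clw w) + clw w = Σ_k ρ p_{k-1} (μ_{x_k} t_{k-1}) = Σ_k (1 + ρQ t) (ρ p_{k-1} b_{x_k})`.
(Induction on `w` for arbitrary words: `clx (σ t * ev w * (σ (w⁻¹ t w))⁻¹ * (ev w)⁻¹) = ..`.)
Sum over `t ∈ F` (`F.card` odd): `clw w + Σ_t ρQ t (clw w) = Σ_k (1 + Σ_t ρQ t) (ρ p_{k-1} b_{x_k})`, which is
`Σ_j act (c_j) b_j` with `c_j = (1 + Σ_{t ∈ F} o t.out) * Σ_{k : x_k = j} o p_{k-1}`.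
-/

open scoped Pointwise commutatorElement

namespace Pool.Agent.Lib.MP_c7b0ca_fe

private theorem o3_lcN_map {K K' : Type*} [Group K] [Group K'] (f : K →* K') (H : Subgroup K)
    (i : ℕ) : (lcN H i).map f = lcN (H.map f) i := by
  induction i with
  | zero => rfl
  | succ i ih =>
    change (⁅lcN H i, H⁆ : Subgroup K).map f = ⁅lcN (H.map f) i, H.map f⁆
    rw [Subgroup.map_commutator, ih]

private theorem o3_closure {Q : Type*} [Group Q] (P : Subgroup Q) (c : ℕ) (hc : lcN P c = ⊥)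
    (X : Set Q) (hfin : X.Finite) (hXP : X ⊆ P) (hX : ∀ x ∈ X, ∃ n, Odd n ∧ x ^ n = 1) :
    Finite (Subgroup.closure X) ∧ Odd (Nat.card (Subgroup.closure X)) := by
  have h1 : lcN (⊤ : Subgroup P) c = ⊥ := by
    apply Subgroup.map_injective P.subtype_injective
    rw [o3_lcN_map, ← MonoidHom.range_eq_map, Subgroup.range_subtype, hc, Subgroup.map_bot]
  obtain ⟨h2, h3⟩ := odd_closure c h1 (P.subtype ⁻¹' X)
    (hfin.preimage P.subtype_injective.injOn) (by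
      intro x hx
      obtain ⟨n, hn, hxn⟩ := hX _ hx
      refine ⟨n, hn, Subtype.ext ?_⟩
      simpa using hxn)
  have h4 : (Subgroup.closure (P.subtype ⁻¹' X)).map P.subtype = Subgroup.closure X := by
    rw [MonoidHom.map_closure, Set.image_preimage_eq_of_subset]
    intro x hx
    exact ⟨⟨x, hXP hx⟩, rfl⟩
  have e := (Subgroup.closure (P.subtype ⁻¹' X)).equivMapOfInjective P.subtype
    P.subtype_injective
  rw [h4] at e
  refine ⟨Finite.of_equiv _ e.toEquiv, ?_⟩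
  rwa [← Nat.card_congr e.toEquiv]

variable {G V : Type*} [Group G] [AddCommGroup V] [Module (ZMod 2) V] (s : Setup G V)

/-- the sum of the prefixes preceding the letter `j` -/
private noncomputable def o3C : List (Fin s.d) → Fin s.d → SA G
  | [], _ => 0
  | x :: w, j => (if j = x then 1 else 0) + o (s.g x) * o3C w j

private theorem o3_mk_mem {x : G} (hx : (x : G ⧸ s.R) = 1) : x ∈ s.R :=
  (QuotientGroup.eq_one_iff x).1 hx

private theorem o3_main (σ : G ⧸ s.R → G) (hσ : ∀ t, (σ t : G ⧸ s.R) = t)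
    (T1 : Subgroup (G ⧸ s.R)) (b : Fin s.d → V)
    (hμ : ∀ t ∈ T1, ∀ j, s.clx (σ t * s.g j * (σ ((s.g j : G ⧸ s.R)⁻¹ * t * (s.g j : G ⧸ s.R)))⁻¹ *
      (s.g j)⁻¹) = b j + s.ρQ t (b j)) (w : List (Fin s.d)) :
    ∀ t : G ⧸ s.R, (∀ k ≤ w.length, ((s.ev (w.take k) : G) : G ⧸ s.R)⁻¹ * t *
      ((s.ev (w.take k) : G) : G ⧸ s.R) ∈ T1) →
      s.clx (σ t * s.ev w * (σ (((s.ev w : G) : G ⧸ s.R)⁻¹ * t * ((s.ev w : G) : G ⧸ s.R)))⁻¹ *
        (s.ev w)⁻¹) = (∑ j, s.act (o3C s w j) (b j)) + s.ρQ t (∑ j, s.act (o3C s w j) (b j)) := by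
  induction w with
  | nil =>
    intro t _
    simp [o3C, Setup.clx_one]
  | cons x w ih =>
    intro t ht
    have ht0 : t ∈ T1 := by
      have := ht 0 (Nat.zero_le _)
      simpa using this
    have h1 := ih ((s.g x : G ⧸ s.R)⁻¹ * t * (s.g x : G ⧸ s.R)) (by
      intro k hk
      have := ht (k + 1) (by simpa using hk)
      rw [List.take_succ_cons, s.ev_cons] at this
      convert this using 1
      simp only [QuotientGroup.mk_mul, QuotientGroup.mk_inv]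
      group)
    have h2 : (((s.ev w : G) : G ⧸ s.R)⁻¹ * ((s.g x : G ⧸ s.R)⁻¹ * t * (s.g x : G ⧸ s.R)) *
        ((s.ev w : G) : G ⧸ s.R)) =
        ((s.ev (x :: w) : G) : G ⧸ s.R)⁻¹ * t * ((s.ev (x :: w) : G) : G ⧸ s.R) := by
      rw [s.ev_cons]
      simp only [QuotientGroup.mk_mul, QuotientGroup.mk_inv]
      group
    rw [h2] at h1
    obtain ⟨t₁, ht₁⟩ : ∃ t₁, t₁ = (s.g x : G ⧸ s.R)⁻¹ * t * (s.g x : G ⧸ s.R) := ⟨_, rfl⟩
    obtain ⟨t₂, ht₂⟩ : ∃ t₂, t₂ = ((s.ev (x :: w) : G) : G ⧸ s.R)⁻¹ * t *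
      ((s.ev (x :: w) : G) : G ⧸ s.R) := ⟨_, rfl⟩
    have hμx := hμ t ht0 x
    rw [← ht₁] at h1 h2 hμx
    rw [← ht₂] at h1 h2 ⊢
    have h3 : σ t * s.ev (x :: w) * (σ t₂)⁻¹ * (s.ev (x :: w))⁻¹ =
        (σ t * s.g x * (σ t₁)⁻¹ * (s.g x)⁻¹) *
          (s.g x * (σ t₁ * s.ev w * (σ t₂)⁻¹ * (s.ev w)⁻¹) * (s.g x)⁻¹) := by
      rw [s.ev_cons]
      group
    have h4 : σ t * s.g x * (σ t₁)⁻¹ * (s.g x)⁻¹ ∈ s.R := by
      apply o3_mk_mem
      simp only [QuotientGroup.mk_mul, QuotientGroup.mk_inv]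
      rw [hσ, hσ, ht₁]
      group
    have h5 : σ t₁ * s.ev w * (σ t₂)⁻¹ * (s.ev w)⁻¹ ∈ s.R := by
      apply o3_mk_mem
      simp only [QuotientGroup.mk_mul, QuotientGroup.mk_inv]
      rw [hσ, hσ, ← h2]
      group
    rw [h3, s.clx_mul h4 (s.hR.conj_mem _ h5 _), s.clx_conj _ h5, h1, hμx]
    have h6 : ∀ v : V, s.ρ (s.g x) (s.ρQ t₁ v) = s.ρQ t (s.ρ (s.g x) v) := by
      intro v
      rw [← s.ρQ_mk, ← Module.End.mul_apply, ← map_mul, ← Module.End.mul_apply, ← map_mul, ht₁]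
      congr 2
      group
    have h7 : ∑ j, s.act (o3C s (x :: w) j) (b j) =
        b x + s.ρ (s.g x) (∑ j, s.act (o3C s w j) (b j)) := by
      have h8 : ∀ j, s.act (o3C s (x :: w) j) (b j) =
          (if j = x then b j else 0) + s.ρ (s.g x) (s.act (o3C s w j) (b j)) := by
        intro j
        change s.act ((if j = x then 1 else 0) + o (s.g x) * o3C s w j) (b j) = _
        rw [map_add, LinearMap.add_apply, s.act_mul_apply, s.act_o]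
        by_cases hjx : j = x
        · rw [if_pos hjx, if_pos hjx, map_one, Module.End.one_apply]
        · rw [if_neg hjx, if_neg hjx, map_zero, LinearMap.zero_apply]
      rw [Finset.sum_congr rfl fun j _ => h8 j, Finset.sum_add_distrib, map_sum,
        Finset.sum_ite_eq' Finset.univ x b, if_pos (Finset.mem_univ _)]
    rw [h7, map_add, map_add, h6]
    abel

private theorem o3_sum_odd {ι : Type*} (F : Finset ι) (hF : Odd F.card) (v : V) :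
    ∑ _t ∈ F, v = v := by
  obtain ⟨n, hn⟩ := hF
  have h2 : v + v = 0 := by
    have h : (2 : ZMod 2) • v = v + v := two_smul _ v
    rw [← h, show (2 : ZMod 2) = 0 from by decide, zero_smul]
  rw [Finset.sum_const, hn, add_smul, one_smul, mul_comm, mul_smul, two_smul, h2, smul_zero,
    zero_add]

theorem odd_lemma (c : ℕ) (hnil : lcN s.N c ≤ s.R) (T0 : Subgroup (G ⧸ s.R))
    (F : Finset (G ⧸ s.R)) (hF : (F : Set (G ⧸ s.R)) = T0) (hodd : Odd F.card)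
    (hN : T0 ≤ s.N.map (QuotientGroup.mk' s.R)) (m : ℕ) :
    ∃ b : Fin s.d → V, ∀ w : List (Fin s.d), w.length ≤ m → s.ev w ∈ s.R →
      ∃ c : Fin s.d → SA G, s.clw w + ∑ t ∈ F, s.ρQ t (s.clw w) = ∑ j, s.act (c j) (b j) := by
  classical
  obtain ⟨P, hP⟩ : ∃ P : Subgroup (G ⧸ s.R), P = s.N.map (QuotientGroup.mk' s.R) := ⟨_, rfl⟩
  have hPn : P.Normal := by
    rw [hP]
    exact s.hN.map _ (QuotientGroup.mk'_surjective _)
  have hPc : lcN P c = ⊥ := by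
    rw [hP, ← o3_lcN_map, Subgroup.map_eq_bot_iff, QuotientGroup.ker_mk']
    exact hnil
  -- the finite set of word values
  have hTfin : (s.T m).Finite := by
    have h1 : {w : List (Fin s.d) | w.length ≤ m}.Finite := List.finite_length_le _ _
    refine (h1.image s.ev).subset ?_
    rintro x ⟨w, hw, rfl⟩
    exact ⟨w, hw, rfl⟩
  have hT0fin : (T0 : Set (G ⧸ s.R)).Finite := hF ▸ F.finite_toSet
  have hT0odd : ∀ t ∈ T0, t ^ F.card = 1 := by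
    intro t ht
    have h1 : Nat.card T0 = F.card := by
      rw [← SetLike.coe_sort_coe, ← hF]
      simp
    have h2 : (⟨t, ht⟩ : T0) ^ Nat.card T0 = 1 := pow_card_eq_one'
    have h3 := congrArg (Subtype.val) h2
    rw [h1] at h3
    simpa using h3
  -- the group `T1`
  obtain ⟨X1, hX1⟩ : ∃ X1 : Set (G ⧸ s.R), X1 = Set.image2
      (fun (t : G ⧸ s.R) (p : G) => (p : G ⧸ s.R)⁻¹ * t * (p : G ⧸ s.R)) T0 (s.T m) := ⟨_, rfl⟩
  have hX1fin : X1.Finite := hX1 ▸ hT0fin.image2 _ hTfin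
  have hconj : ∀ (n : ℕ) (t p : G ⧸ s.R), (p⁻¹ * t * p) ^ n = p⁻¹ * t ^ n * p := by
    intro n t p
    have := conj_pow (i := n) (a := p⁻¹) (b := t)
    rwa [inv_inv] at this
  obtain ⟨hT1fin, hT1odd⟩ := o3_closure P c hPc X1 hX1fin (by
    rw [hX1]
    rintro _ ⟨t, ht, p, -, rfl⟩
    have h1 := hPn.conj_mem t (hP ▸ hN ht) ((p : G ⧸ s.R)⁻¹)
    rwa [inv_inv] at h1) (by
    rw [hX1]
    rintro _ ⟨t, ht, p, -, rfl⟩
    refine ⟨F.card, hodd, ?_⟩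
    simp only
    rw [hconj, hT0odd t ht, mul_one, inv_mul_cancel])
  obtain ⟨T1, hT1⟩ : ∃ T1 : Subgroup (G ⧸ s.R), T1 = Subgroup.closure X1 := ⟨_, rfl⟩
  rw [← hT1] at hT1fin hT1odd
  have hT1P : T1 ≤ P := by
    rw [hT1, Subgroup.closure_le, hX1]
    rintro _ ⟨t, ht, p, -, rfl⟩
    have h1 := hPn.conj_mem t (hP ▸ hN ht) ((p : G ⧸ s.R)⁻¹)
    rwa [inv_inv] at h1
  have hT1pow : ∀ t ∈ T1, t ^ Nat.card T1 = 1 := by
    intro t ht
    have h2 : (⟨t, ht⟩ : T1) ^ Nat.card T1 = 1 := pow_card_eq_one'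
    have h3 := congrArg (Subtype.val) h2
    rw [Subgroup.coe_pow] at h3
    exact h3
  -- the group `T2`
  obtain ⟨X2, hX2⟩ : ∃ X2 : Set (G ⧸ s.R), X2 = (T1 : Set (G ⧸ s.R)) ∪ Set.image2
      (fun (t : G ⧸ s.R) (j : Fin s.d) => (s.g j : G ⧸ s.R)⁻¹ * t * (s.g j : G ⧸ s.R)) T1
        Set.univ := ⟨_, rfl⟩
  have hT1set : (T1 : Set (G ⧸ s.R)).Finite := Set.toFinite _
  have hX2fin : X2.Finite := by
    rw [hX2]
    exact hT1set.union (hT1set.image2 _ Set.finite_univ)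
  obtain ⟨hT2fin, hT2odd⟩ := o3_closure P c hPc X2 hX2fin (by
    rw [hX2]
    rintro _ (ht | ⟨t, ht, j, -, rfl⟩)
    · exact hT1P ht
    · have h1 := hPn.conj_mem t (hT1P ht) ((s.g j : G ⧸ s.R)⁻¹)
      rwa [inv_inv] at h1) (by
    rw [hX2]
    rintro t (ht | ⟨t, ht, j, -, rfl⟩)
    · exact ⟨_, hT1odd, hT1pow t ht⟩
    · refine ⟨_, hT1odd, ?_⟩
      simp only
      rw [hconj, hT1pow t ht, mul_one, inv_mul_cancel])
  obtain ⟨T2, hT2⟩ : ∃ T2 : Subgroup (G ⧸ s.R), T2 = Subgroup.closure X2 := ⟨_, rfl⟩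
  rw [← hT2] at hT2fin hT2odd
  have h12 : T1 ≤ T2 := by
    intro t ht
    rw [hT2, hX2]
    exact Subgroup.subset_closure (Or.inl ht)
  have h12' : ∀ t ∈ T1, ∀ j, (s.g j : G ⧸ s.R)⁻¹ * t * (s.g j : G ⧸ s.R) ∈ T2 := by
    intro t ht j
    rw [hT2, hX2]
    exact Subgroup.subset_closure (Or.inr ⟨t, ht, j, Set.mem_univ _, rfl⟩)
  obtain ⟨σ, hσ, hσ2⟩ := splitting s T2 hT2odd
  -- the cocycles
  obtain ⟨μ, hμ⟩ : ∃ μ : Fin s.d → G ⧸ s.R → V, ∀ j t, μ j t =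
      s.clx (σ t * s.g j * (σ ((s.g j : G ⧸ s.R)⁻¹ * t * (s.g j : G ⧸ s.R)))⁻¹ * (s.g j)⁻¹) :=
    ⟨_, fun _ _ => rfl⟩
  have hcoc : ∀ j, ∀ t ∈ T1, ∀ t' ∈ T1, μ j (t * t') = μ j t + s.ρQ t (μ j t') := by
    intro j t ht t' ht'
    have h1 := hσ2 t (h12 ht) t' (h12 ht')
    have h2 := hσ2 _ (h12' t ht j) _ (h12' t' ht' j)
    have h3 : (s.g j : G ⧸ s.R)⁻¹ * t * (s.g j : G ⧸ s.R) *
        ((s.g j : G ⧸ s.R)⁻¹ * t' * (s.g j : G ⧸ s.R)) =
        (s.g j : G ⧸ s.R)⁻¹ * (t * t') * (s.g j : G ⧸ s.R) := by group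
    rw [h3] at h2
    rw [hμ, hμ, hμ]
    obtain ⟨u, hu⟩ : ∃ u, u = (s.g j : G ⧸ s.R)⁻¹ * t * (s.g j : G ⧸ s.R) := ⟨_, rfl⟩
    obtain ⟨u', hu'⟩ : ∃ u', u' = (s.g j : G ⧸ s.R)⁻¹ * t' * (s.g j : G ⧸ s.R) := ⟨_, rfl⟩
    obtain ⟨u'', hu''⟩ : ∃ u'', u'' = (s.g j : G ⧸ s.R)⁻¹ * (t * t') * (s.g j : G ⧸ s.R) :=
      ⟨_, rfl⟩
    rw [← hu, ← hu', ← hu''] at h2
    rw [← hu, ← hu', ← hu'']
    have hk : σ t * σ t' * (σ (t * t'))⁻¹ ∈ s.R := by
      apply o3_mk_mem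
      simp only [QuotientGroup.mk_mul, QuotientGroup.mk_inv]
      rw [hσ, hσ, hσ]
      group
    have hl : σ u * σ u' * (σ u'')⁻¹ ∈ s.R := by
      apply o3_mk_mem
      simp only [QuotientGroup.mk_mul, QuotientGroup.mk_inv]
      rw [hσ, hσ, hσ, hu, hu', hu'']
      group
    have hm1 : σ t * s.g j * (σ u)⁻¹ * (s.g j)⁻¹ ∈ s.R := by
      apply o3_mk_mem
      simp only [QuotientGroup.mk_mul, QuotientGroup.mk_inv]
      rw [hσ, hσ, hu]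
      group
    have hm2 : σ t' * s.g j * (σ u')⁻¹ * (s.g j)⁻¹ ∈ s.R := by
      apply o3_mk_mem
      simp only [QuotientGroup.mk_mul, QuotientGroup.mk_inv]
      rw [hσ, hσ, hu']
      group
    have h4 : σ (t * t') * s.g j * (σ u'')⁻¹ * (s.g j)⁻¹ =
        (σ t * σ t' * (σ (t * t'))⁻¹)⁻¹ *
          (σ t * (σ t' * s.g j * (σ u')⁻¹ * (s.g j)⁻¹) * (σ t)⁻¹ *
            ((σ t * s.g j * (σ u)⁻¹ * (s.g j)⁻¹) *
              (s.g j * (σ u * σ u' * (σ u'')⁻¹) * (s.g j)⁻¹))) := by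
      group
    rw [h4, s.clx_mul (s.R.inv_mem hk) (s.R.mul_mem (s.hR.conj_mem _ hm2 _)
        (s.R.mul_mem hm1 (s.hR.conj_mem _ hl _))),
      s.clx_mul (s.hR.conj_mem _ hm2 _) (s.R.mul_mem hm1 (s.hR.conj_mem _ hl _)),
      s.clx_mul hm1 (s.hR.conj_mem _ hl _), s.clx_inv hk, h1, s.clx_conj _ hm2, s.clx_conj _ hl,
      h2, map_zero, add_zero, zero_add]
    have h5 : s.ρ (σ t) = s.ρQ t := by
      rw [← s.ρQ_mk, hσ]
    rw [h5, add_comm]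
  -- the elements `b`
  have hT1ft : Fintype T1 := Fintype.ofFinite T1
  obtain ⟨b, hb⟩ : ∃ b : Fin s.d → V, ∀ j, b j = ∑ t : T1, μ j t := ⟨_, fun _ => rfl⟩
  have hμb : ∀ t ∈ T1, ∀ j, μ j t = b j + s.ρQ t (b j) := by
    intro t ht j
    have h1 : ∑ t' : T1, μ j (t * t') = b j := by
      rw [hb]
      exact Equiv.sum_comp (Equiv.mulLeft (⟨t, ht⟩ : T1)) (fun t' : T1 => μ j t')
    have h2 : ∑ t' : T1, μ j (t * t') = μ j t + s.ρQ t (b j) := by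
      rw [Finset.sum_congr rfl fun (t' : T1) _ => hcoc j t ht t' t'.2, Finset.sum_add_distrib,
        o3_sum_odd Finset.univ (by rwa [Finset.card_univ, ← Nat.card_eq_fintype_card]),
        ← map_sum, ← hb]
    rw [h1] at h2
    calc μ j t = μ j t + (s.ρQ t (b j) + s.ρQ t (b j)) := by rw [Setup.V_two, add_zero]
      _ = (μ j t + s.ρQ t (b j)) + s.ρQ t (b j) := by abel
      _ = b j + s.ρQ t (b j) := by rw [← h2]
  refine ⟨b, fun w hw hwR => ?_⟩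
  have hmain := o3_main s σ hσ T1 b (fun t ht j => by rw [← hμ, hμb t ht j]) w
  obtain ⟨B, hB⟩ : ∃ B : V, B = ∑ j, s.act (o3C s w j) (b j) := ⟨_, rfl⟩
  rw [← hB] at hmain
  have hw1 : ((s.ev w : G) : G ⧸ s.R) = 1 := (QuotientGroup.eq_one_iff _).2 hwR
  have key : ∀ t ∈ F, s.ρQ t (s.clw w) + s.clw w = B + s.ρQ t B := by
    intro t ht
    have htT0 : t ∈ T0 := by
      have : t ∈ (F : Set (G ⧸ s.R)) := ht
      rw [hF] at this
      exact this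
    have h1 := hmain t (by
      intro k _
      rw [hT1, hX1]
      refine Subgroup.subset_closure ⟨t, htT0, s.ev (w.take k), ?_, rfl⟩
      refine ⟨w.take k, (List.length_take_le' _ _).trans hw, rfl⟩)
    rw [hw1, inv_one, one_mul, mul_one] at h1
    have h2 : σ t * s.ev w * (σ t)⁻¹ * (s.ev w)⁻¹ = (σ t * s.ev w * (σ t)⁻¹) * (s.ev w)⁻¹ := rfl
    rw [h2, s.clx_mul (s.hR.conj_mem _ hwR _) (s.R.inv_mem hwR), s.clx_conj _ hwR,
      s.clx_inv hwR] at h1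
    have h5 : s.ρ (σ t) = s.ρQ t := by
      rw [← s.ρQ_mk, hσ]
    rw [h5] at h1
    exact h1
  have hsum : s.clw w + ∑ t ∈ F, s.ρQ t (s.clw w) = B + ∑ t ∈ F, s.ρQ t B := by
    have h1 : ∑ t ∈ F, (s.ρQ t (s.clw w) + s.clw w) = ∑ t ∈ F, (B + s.ρQ t B) :=
      Finset.sum_congr rfl key
    rw [Finset.sum_add_distrib, Finset.sum_add_distrib, o3_sum_odd F hodd,
      o3_sum_odd F hodd] at h1
    rw [add_comm, h1]
  refine ⟨fun j => (1 + ∑ t ∈ F, o t.out) * o3C s w j, ?_⟩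
  rw [hsum]
  have h8 : ∀ v : V, s.act (1 + ∑ t ∈ F, o t.out) v = v + ∑ t ∈ F, s.ρQ t v := by
    intro v
    rw [map_add, map_one, map_sum, LinearMap.add_apply, Module.End.one_apply, LinearMap.sum_apply]
    congr 1
    refine Finset.sum_congr rfl fun t _ => ?_
    rw [s.act_o, ← s.ρQ_mk, QuotientGroup.out_eq']
  rw [← h8, hB, map_sum]
  refine Finset.sum_congr rfl fun j _ => ?_
  rw [s.act_mul_apply]

end Pool.Agent.Lib.MP_c7b0ca_fe
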