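import Pool.Agent.Lib.MP_c7b0ca_fe.PS

/-!
ROW SB: `SS` is bounded. `Psi_mem` gives `d` commutators for each label (all `ev e.w ∈ R` by
`Par.evR`), each involution one commutator (`b_mem`); there are `3^d` labels. For the product over
the labels use `1 ∈ commutatorSet G` and the induction `Finset` sum -> product in the centre.
-/

open scoped Pointwise commutatorElement

namespace Pool.Agent.Lib.MP_c7b0ca_fe

variable {G V : Type*} [Group G] [AddCommGroup V] [Module (ZMod 2) V] {s : Setup G V}

private theorem SB_add {a b : WA G} {m n : ℕ} (ha : ((a.toMul : Subgroup.center G) : G) ∈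
    (commutatorSet G) ^ m) (hb : ((b.toMul : Subgroup.center G) : G) ∈ (commutatorSet G) ^ n) :
    (((a + b).toMul : Subgroup.center G) : G) ∈ (commutatorSet G) ^ (m + n) := by
  rw [toMul_add, Subgroup.coe_mul, pow_add]
  exact Set.mul_mem_mul ha hb

private theorem SB_sum {ι : Type*} (F : Finset ι) (f : ι → WA G) (n : ℕ)
    (h : ∀ i ∈ F, (((f i).toMul : Subgroup.center G) : G) ∈ (commutatorSet G) ^ n) :
    (((∑ i ∈ F, f i).toMul : Subgroup.center G) : G) ∈ (commutatorSet G) ^ (F.card * n) := by
  classical
  induction F using Finset.induction_on with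
  | empty => simp
  | insert a F ha ih =>
    rw [Finset.sum_insert ha, Finset.card_insert_of_notMem ha, add_mul, one_mul, add_comm (_ * n)]
    exact SB_add (h a (Finset.mem_insert_self _ _))
      (ih fun i hi => h i (Finset.mem_insert_of_mem hi))

theorem SS_mem (P : Par s) (L : List (Elt P)) :
    ((SS P L).toMul : G) ∈ (commutatorSet G) ^ (3 ^ s.d * (s.d + P.I.card)) := by
  classical
  have h := SB_sum (G := G) (Finset.univ : Finset (Fin s.d → Fin 3))
    (fun χ => (s.Ψ ((L.filter (fun e => e.lb = χ)).map (fun e => (e.v, e.w))) +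
      ∑ h ∈ P.I,
        s.b (((L.filter (fun e => e.lb = χ)).map (fun e => ε s h e.w • e.v)).sum)
          (s.ρ (s.q (P.y h))
            ((L.filter (fun e => e.lb = χ)).map (fun e => ε s h e.w • e.v)).sum)))
    (s.d + P.I.card) (by
      intro χ _
      apply SB_add
      · apply s.Psi_mem
        intro p hp
        obtain ⟨e, he, rfl⟩ := List.mem_map.1 hp
        exact P.evR _ e.hw
      · have h2 := SB_sum (G := G) P.I
          (fun h => s.b (((L.filter (fun e => e.lb = χ)).map (fun e => ε s h e.w • e.v)).sum)
          (s.ρ (s.q (P.y h))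
            ((L.filter (fun e => e.lb = χ)).map (fun e => ε s h e.w • e.v)).sum)) 1
          (by
            intro i _
            rw [pow_one]
            exact s.b_mem _ _)
        rw [mul_one] at h2
        exact h2)
  have hc : (Finset.univ : Finset (Fin s.d → Fin 3)).card = 3 ^ s.d := by
    rw [Finset.card_univ, Fintype.card_fun, Fintype.card_fin, Fintype.card_fin]
  rw [hc] at h
  exact h

end Pool.Agent.Lib.MP_c7b0ca_fe
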