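import Pool.Agent.Lib.MP_c7b0ca_fe.SR
import Pool.Agent.Lib.MP_c7b0ca_fe.SB
import Pool.Agent.Lib.MP_c7b0ca_fe.CL
import Pool.Agent.Lib.MP_c7b0ca_fe.GR
import Pool.Agent.Lib.MP_c7b0ca_fe.HD
import Pool.Agent.Lib.MP_c7b0ca_fe.O3
import Pool.Agent.Lib.MP_c7b0ca_fe.MG
import Pool.Agent.Lib.MP_c7b0ca_fe.II
import Pool.Agent.Lib.MP_c7b0ca_fe.G1

/-!
Assembly of the main proposition for a `Setup`.
-/

open scoped Pointwise commutatorElement

namespace Pool.Agent.Lib.MP_c7b0ca_fe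

variable {G V : Type*} [Group G] [AddCommGroup V] [Module (ZMod 2) V] (s : Setup G V)

theorem sum_b_mem : ∀ (n : ℕ) (f g : Fin n → V),
    ((∑ i, s.b (f i) (g i)).toMul : G) ∈ (commutatorSet G) ^ n
  | 0, f, g => by simp
  | n + 1, f, g => by
      rw [Fin.sum_univ_succ]
      have h := cs_mul (m := 1) (n := n) (x := ((s.b (f 0) (g 0)).toMul : G))
        (y := ((∑ i : Fin n, s.b (f i.succ) (g i.succ)).toMul : G))
        (by rw [pow_one]; exact s.b_mem _ _) (sum_b_mem n _ _)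
      rw [add_comm 1 n] at h
      exact h

/-- the subgroup of the sums `∑ b (β j) (y j)` -/
def errG {n : ℕ} (β : Fin n → V) : AddSubgroup (WA G) :=
  AddMonoidHom.range
    ({ toFun := fun y : Fin n → V => ∑ j, s.b (β j) (y j)
       map_zero' := by simp
       map_add' := by intro x y; simp [Finset.sum_add_distrib] } : (Fin n → V) →+ WA G)

theorem errG_mem {n : ℕ} (β : Fin n → V) {t : WA G} (ht : t ∈ errG s β) :
    (t.toMul : G) ∈ (commutatorSet G) ^ n := by
  obtain ⟨y, rfl⟩ := ht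
  exact sum_b_mem s n β y

theorem r_mono (P : Par s) {m n : ℕ} (h : m ≤ n) : P.r m ≤ P.r n := by
  unfold Par.r
  exact Nat.add_le_add_left (Nat.mul_le_mul_left _ (Nat.log_mono_right h)) _

/-- elements of high degree are bounded -/
theorem high_mem (P : Par s) (M ρ : ℕ) (hρ : P.r (2 * M) ≤ ρ)
    (T0 : Subgroup (G ⧸ s.R)) (F : Finset (G ⧸ s.R)) (hF : (F : Set (G ⧸ s.R)) = T0)
    (K : ℕ) (hK : K + 1 ≤ M)
    (hv : ∀ n, K ≤ n → ∀ a ∈ Dl (s.Nb ρ) n, ∀ v : V, ∑ t ∈ F, s.ρQ t (s.act a v) = 0)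
    (β : Fin s.d → V)
    (hβ : ∀ w : List (Fin s.d), w.length ≤ P.L0 → s.ev w ∈ s.R →
      ∃ c : Fin s.d → SA G, s.clw w + ∑ t ∈ F, s.ρQ t (s.clw w) = ∑ j, s.act (c j) (β j))
    (e : Elt P) (h1 : M ≤ e.n) (h2 : e.n < 2 * M) : e.z ∈ errG s β := by
  obtain ⟨c, hc⟩ := hβ e.l (P.len _ e.hl) (P.evR _ e.hl)
  set v := s.act (o (s.q e.x)) (s.clw e.w) with hvdef
  have ha : e.a ∈ Dl (s.Nb ρ) (e.n - 1) :=
    Dl_mono (s.Nb_mono ((r_mono s P h2.le).trans hρ)) _ e.ha
  have hz := hv (e.n - 1) (by omega) e.a ha v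
  have hsymm : ∑ t ∈ F, s.b (s.clw e.l) (s.ρQ t (s.act e.a v)) =
      ∑ t ∈ F, s.b (s.ρQ t (s.clw e.l)) (s.act e.a v) := by
    refine Finset.sum_bij' (fun t _ => t⁻¹) (fun t _ => t⁻¹) ?_ ?_ ?_ ?_ ?_
    · intro t ht
      have h : t ∈ (F : Set (G ⧸ s.R)) := ht
      rw [hF] at h
      have h' : t⁻¹ ∈ (F : Set (G ⧸ s.R)) := by rw [hF]; exact T0.inv_mem h
      exact h'
    · intro t ht
      have h : t ∈ (F : Set (G ⧸ s.R)) := ht
      rw [hF] at h
      have h' : t⁻¹ ∈ (F : Set (G ⧸ s.R)) := by rw [hF]; exact T0.inv_mem h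
      exact h'
    · intro t _; exact inv_inv t
    · intro t _; exact inv_inv t
    · intro t _
      obtain ⟨x, rfl⟩ := QuotientGroup.mk_surjective t
      have h := s.b_ρ x⁻¹ (s.clw e.l) (s.ρ x (s.act e.a v))
      rw [← Module.End.mul_apply (s.ρ x⁻¹), ← map_mul, inv_mul_cancel, map_one] at h
      rw [s.ρQ_mk, ← QuotientGroup.mk_inv, s.ρQ_mk]
      exact h.symm
  have key : e.z = s.b (s.clw e.l + ∑ t ∈ F, s.ρQ t (s.clw e.l)) (s.act e.a v) := by
    have e1 : e.z = s.b (s.clw e.l) (s.act e.a v) := by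
      unfold Elt.z
      rw [s.act_mul_apply]
    rw [map_add, AddMonoidHom.add_apply, map_sum, AddMonoidHom.finsetSum_apply, ← hsymm, ← map_sum,
      hz, map_zero, add_zero, e1]
  rw [key, hc]
  refine ⟨fun j => s.act (St (c j)) (s.act e.a v), ?_⟩
  simp only [AddMonoidHom.coe_mk, ZeroHom.coe_mk]
  rw [map_sum, AddMonoidHom.finsetSum_apply]
  exact Finset.sum_congr rfl fun j _ => (s.b_act _ _ _).symm

/-- the initial element of a pair of words -/
noncomputable def initE (P : Par s) (l w : List (Fin s.d)) (hl : l ∈ P.LL) (hw : w ∈ P.LL) : Elt P where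
  l := l
  w := w
  a := 1
  x := 0
  n := 1
  hl := hl
  hw := hw
  hn := le_rfl
  ha := one_mem_Dl _
  hx := by intro i; simp

theorem initE_z (P : Par s) (l w : List (Fin s.d)) (hl : l ∈ P.LL) (hw : w ∈ P.LL) :
    (initE s P l w hl hw).z = s.b (s.clw l) (s.clw w) := by
  unfold Elt.z initE
  simp only
  rw [s.q_zero, map_one, mul_one, map_one]
  rfl

theorem bounded_list (c : ℕ) (hnil : lcN s.N c ≤ s.R) (htors : ∀ x ∈ s.N, ∃ n > 0, x ^ n ∈ s.R) :
    ∃ J : ℕ, ∀ L : List (List (Fin s.d) × List (Fin s.d)),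
      (∀ p ∈ L, (s.Bal p.1 ∧ s.ev p.1 ∈ s.R) ∧ (s.Bal p.2 ∧ s.ev p.2 ∈ s.R)) →
      (((L.map fun p => s.b (s.clw p.1) (s.clw p.2)).sum).toMul : G) ∈ (commutatorSet G) ^ J := by
  classical
  obtain ⟨C, k, hCk⟩ := high_degree s c hnil htors
  have hI := finite_invol s
  set I : Finset (G ⧸ s.N) := hI.toFinset with hIdef
  have hy : ∀ h : G ⧸ s.N, ∃ y : Fin s.d → ℤ, (s.q y : G ⧸ s.N) = h := by
    intro h
    obtain ⟨x, rfl⟩ := QuotientGroup.mk_surjective h
    obtain ⟨w, rfl⟩ := s.ev_surj x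
    obtain ⟨y, -, hy⟩ := s.exists_pos (s.ev_mem_T w)
    exact ⟨y, hy⟩
  choose y hy using hy
  refine ⟨3 ^ s.d * (s.d + I.card) + s.d, fun L hL => ?_⟩
  set LL : Finset (List (Fin s.d)) := (L.map Prod.fst ++ L.map Prod.snd).toFinset with hLL
  obtain ⟨L0, hL1, hL2⟩ : ∃ L0 : ℕ, (∀ w ∈ LL, w.length ≤ L0) ∧
      ∀ h ∈ I, ∀ i, |y h i| ≤ (L0 : ℤ) := by
    refine ⟨LL.sup List.length + I.sup (fun h => Finset.univ.sup fun i => (y h i).natAbs), ?_, ?_⟩
    · intro w hw
      exact (Finset.le_sup (f := List.length) hw).trans (Nat.le_add_right _ _)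
    · intro h hh i
      have h1 : (y h i).natAbs ≤ Finset.univ.sup fun i => (y h i).natAbs :=
        Finset.le_sup (f := fun i => (y h i).natAbs) (Finset.mem_univ i)
      have h2 : (Finset.univ.sup fun i => (y h i).natAbs) ≤
          I.sup (fun h => Finset.univ.sup fun i => (y h i).natAbs) :=
        Finset.le_sup (f := fun h => Finset.univ.sup fun i => (y h i).natAbs) hh
      have h3 := h1.trans (h2.trans (Nat.le_add_left _ (LL.sup List.length)))
      rw [Int.abs_eq_natAbs]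
      exact_mod_cast h3
  have hmem : ∀ w ∈ LL, s.Bal w ∧ s.ev w ∈ s.R := by
    intro w hw
    simp only [hLL, List.mem_toFinset, List.mem_append, List.mem_map] at hw
    rcases hw with ⟨p, hp, rfl⟩ | ⟨p, hp, rfl⟩
    · exact (hL p hp).1
    · exact (hL p hp).2
  let P : Par s :=
    { LL := LL
      bal := fun w hw => (hmem w hw).1
      evR := fun w hw => (hmem w hw).2
      I := I
      mI := by intro h; simp [hIdef]
      y := y
      hy := fun h _ => hy h
      L0 := L0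
      len := hL1
      ylen := hL2
      m1 := 100 * (s.d + 1) * (L0 + 1)
      hm1 := le_rfl }
  obtain ⟨M, hM1, hM2⟩ := growth P.m1 (6 * s.d * P.L) C k
  obtain ⟨T0, F, hF, hodd, hTN, hv⟩ := hCk (P.r (2 * M))
  obtain ⟨β, hβ⟩ := odd_lemma s c hnil T0 F hF hodd hTN P.L0
  have herr : ∀ e : Elt P, M ≤ e.n → e.n < 2 * M → e.z ∈ errG s β := by
    intro e h1 h2
    exact high_mem s P M _ le_rfl T0 F hF _ hM2 hv β hβ e h1 h2
  set t := (L.map fun p => s.b (s.clw p.1) (s.clw p.2)).sum with ht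
  have htm : t ∈ AddSubgroup.closure {t | ∃ e : Elt P, e.n < 2 * M ∧ e.z = t} := by
    rw [ht]
    refine AddSubgroup.list_sum_mem _ ?_
    intro x hx
    obtain ⟨p, hp, rfl⟩ := List.mem_map.mp hx
    have h1 : p.1 ∈ P.LL := by
      simp only [P, hLL, List.mem_toFinset, List.mem_append, List.mem_map]
      exact Or.inl ⟨p, hp, rfl⟩
    have h2 : p.2 ∈ P.LL := by
      simp only [P, hLL, List.mem_toFinset, List.mem_append, List.mem_map]
      exact Or.inr ⟨p, hp, rfl⟩
    refine AddSubgroup.subset_closure ⟨initE s P p.1 p.2 h1 h2, ?_, initE_z s P _ _ _ _⟩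
    show 1 < 2 * M
    omega
  obtain ⟨L', -, hL'⟩ := closure_lemma (fun e : Elt P => e.z) (fun e : Elt P => e.n) (SS P)
    (errG s β) M (SS_nil P) (fun e => s.b_two _ _) (SS_two P)
    (fun e L hL => SS_cons P e L M hL) herr t htm
  have hfin : t = SS P L' + (t + SS P L') := by
    rw [add_comm t, ← add_assoc, SS_two, zero_add]
  rw [hfin]
  exact cs_mul (SS_mem P L') (errG_mem s β hL')

/-- every element of the commutator subgroup of `R` is a sum of values of the form -/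
theorem exists_list (z : G) (hz : z ∈ ⁅s.R, s.R⁆) :
    ∃ L : List (V × V), z = (((L.map fun p => s.b p.1 p.2).sum).toMul : G) := by
  rw [Subgroup.commutator_def] at hz
  induction hz using Subgroup.closure_induction with
  | mem x hx =>
    obtain ⟨r, hr, r', hr', rfl⟩ := hx
    exact ⟨[(s.clx r, s.clx r')], by simp [s.b_clx hr hr']⟩
  | one => exact ⟨[], by simp⟩
  | mul x y _ _ hx hy =>
    obtain ⟨L, rfl⟩ := hx
    obtain ⟨L', rfl⟩ := hy
    exact ⟨L ++ L', by simp⟩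
  | inv x _ hx =>
    obtain ⟨L, rfl⟩ := hx
    refine ⟨L.map fun p => (-p.1, p.2), ?_⟩
    have : ∀ L : List (V × V),
        (((L.map fun p => ((-p.1, p.2) : V × V)).map fun p => s.b p.1 p.2).sum) =
        -((L.map fun p => s.b p.1 p.2).sum) := by
      intro L
      induction L with
      | nil => simp
      | cons p L ih =>
        simp only [List.map_cons, List.sum_cons, map_neg, AddMonoidHom.neg_apply, neg_add]
        rw [ih]
    rw [this]
    simp

theorem main_setup (c : ℕ) (hnil : lcN s.N c ≤ s.R) (htors : ∀ x ∈ s.N, ∃ n > 0, x ^ n ∈ s.R) :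
    ∃ J : ℕ, ∀ z ∈ ⁅s.R, s.R⁆, z ∈ (commutatorSet G) ^ J := by
  classical
  obtain ⟨J, hJ⟩ := bounded_list s c hnil htors
  obtain ⟨k, m, hm⟩ := generation s
  choose cc W hB hR hdec using hm
  have key : ∀ L : List (V × V), ∃ Y : Fin k → V, (L.map fun p => s.b p.1 p.2).sum =
      ∑ i, s.b (m i) (Y i) + (L.map fun p => s.b (s.clw (W p.1)) (s.clw (W p.2))).sum := by
    intro L
    induction L with
    | nil => exact ⟨0, by simp⟩
    | cons p L ih =>
      obtain ⟨Y, hY⟩ := ih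
      refine ⟨fun i => Y i + (s.act (St (cc p.1 i)) p.2 + s.act (St (cc p.2 i)) (s.clw (W p.1))), ?_⟩
      have h1 : s.b p.1 p.2 = ∑ i, s.b (m i) (s.act (St (cc p.1 i)) p.2) +
          (∑ i, s.b (m i) (s.act (St (cc p.2 i)) (s.clw (W p.1))) +
            s.b (s.clw (W p.1)) (s.clw (W p.2))) := by
        conv_lhs => rw [hdec p.1]
        rw [map_add, AddMonoidHom.add_apply, map_sum, AddMonoidHom.finsetSum_apply]
        congr 1
        · exact Finset.sum_congr rfl fun i _ => s.b_act _ _ _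
        · conv_lhs => rw [hdec p.2]
          rw [map_add, map_sum]
          congr 1
          refine Finset.sum_congr rfl fun i _ => ?_
          rw [s.b_symm, s.b_act]
      simp only [List.map_cons, List.sum_cons, map_add, Finset.sum_add_distrib]
      rw [hY, h1]
      abel
  refine ⟨k + J, fun z hz => ?_⟩
  obtain ⟨L, rfl⟩ := exists_list s z hz
  obtain ⟨Y, hY⟩ := key L
  rw [hY]
  refine cs_mul (sum_b_mem s k m Y) ?_
  have h := hJ (L.map fun p => (W p.1, W p.2)) (by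
    intro p hp
    obtain ⟨p', -, rfl⟩ := List.mem_map.mp hp
    exact ⟨⟨hB _, hR _⟩, ⟨hB _, hR _⟩⟩)
  rw [List.map_map] at h
  exact h

end Pool.Agent.Lib.MP_c7b0ca_fe
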