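import Pool.Agent.Lib.MP_c7b0ca_fe.Defs
import Pool.Agent.Lib.MP_c7b0ca_fe.G1
import Pool.Agent.Lib.MP_c7b0ca_al.Words

/-!
ROW FN: translation of the hypotheses and of the conclusion.

`lcN_le_of_nilpotent`: `lowerCentralSeries (N ⧸ R.subgroupOf N) c = ⊥`; the image of `lcN N c` (which is
contained in `N`) in `N ⧸ R.subgroupOf N` is `lowerCentralSeries _ c` (induction, `Subgroup.map_commutator`, `subgroupOf`).
`inClassK_comm`: the values of the word `⁅x₀, x₁⁆` are the commutators, the verbal subgroup is the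
commutator subgroup (`commutator_eq_closure`); `(commutatorSet G)^n` versus `List.ofFn`
(`Set.mem_pow`, or induction); `n + 1` to have `0 < n`.
`inClassK_sq`: `⁅a, b⁆ = a^2 * (a⁻¹ * b)^2 * (b⁻¹)^2`; every element of the subgroup generated by the squares
is `g^2 * c` with `c` in the commutator subgroup (this set is closed under multiplication
and inversion because `g^2 h^2 = (g h)^2` modulo commutators), so it is a product of `3 n + 1` squares.
-/

open scoped Pointwise commutatorElement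

namespace Pool.Agent.Lib.MP_c7b0ca_fe

open Pool.Agent.Lib.MP_c7b0ca_al

private theorem lcN_eq {G : Type*} [Group G] (N : Subgroup G) (c : ℕ) :
    lcN N c = N.lowerCentralSeries c := by
  induction c with
  | zero => rfl
  | succ c ih => simp only [lcN, ih, Subgroup.lowerCentralSeries_succ]

theorem lcN_le_of_nilpotent {G : Type*} [Group G] (R N : Subgroup G) [R.Normal] [N.Normal]
    (hRN : R ≤ N) (hnil : Group.IsNilpotent (N ⧸ R.subgroupOf N)) : ∃ c : ℕ, lcN N c ≤ R := by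
  obtain ⟨c, hc⟩ := Subgroup.nilpotent_iff_lowerCentralSeries.1 hnil
  refine ⟨c, ?_⟩
  have h1 : ((⊤ : Subgroup N).lowerCentralSeries c).map (QuotientGroup.mk' (R.subgroupOf N)) = ⊥ := by
    rw [Subgroup.map_lowerCentralSeries, ← hc]
    congr 1
    exact Subgroup.map_top_of_surjective _ (QuotientGroup.mk'_surjective _)
  rw [lcN_eq, ← Subgroup.top_subtype_lowerCentralSeries]
  rintro _ ⟨y, hy, rfl⟩
  have h2 : QuotientGroup.mk' (R.subgroupOf N) y ∈ (⊥ : Subgroup (N ⧸ R.subgroupOf N)) := by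
    rw [← h1]
    exact ⟨y, hy, rfl⟩
  rw [Subgroup.mem_bot] at h2
  have h3 : y ∈ R.subgroupOf N := (QuotientGroup.eq_one_iff y).1 h2
  exact Subgroup.mem_subgroupOf.1 h3

private theorem wv_comm (G : Type*) [Group G] :
    wordValues ⁅(FreeGroup.of 0 : FreeGroup (Fin 2)), (FreeGroup.of 1 : FreeGroup (Fin 2))⁆ G =
      commutatorSet G := by
  ext x
  constructor
  · rintro ⟨g, rfl⟩
    refine ⟨g 0, g 1, ?_⟩
    simp [commutatorElement_def]
  · rintro ⟨a, b, rfl⟩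
    refine ⟨![a, b], ?_⟩
    simp [commutatorElement_def]

private theorem wv_sq (G : Type*) [Group G] :
    wordValues ((FreeGroup.of 0 : FreeGroup (Fin 1)) ^ 2) G = {x | ∃ g : G, x = g ^ 2} := by
  ext x
  constructor
  · rintro ⟨g, rfl⟩
    refine ⟨g 0, ?_⟩
    simp
  · rintro ⟨a, rfl⟩
    refine ⟨fun _ => a, ?_⟩
    simp

private theorem sq_form {G : Type*} [Group G] (x : G)
    (hx : x ∈ Subgroup.closure {x : G | ∃ g : G, x = g ^ 2}) :
    ∃ g : G, ∃ c ∈ commutator G, x = g ^ 2 * c := by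
  induction hx using Subgroup.closure_induction with
  | mem x hx =>
    obtain ⟨g, rfl⟩ := hx
    exact ⟨g, 1, Subgroup.one_mem _, by simp⟩
  | one => exact ⟨1, 1, Subgroup.one_mem _, by simp⟩
  | mul x y _ _ hx hy =>
    obtain ⟨g, c, hc, rfl⟩ := hx
    obtain ⟨h, c', hc', rfl⟩ := hy
    refine ⟨g * h, ((g * h) ^ 2)⁻¹ * (g ^ 2 * c * (h ^ 2 * c')), ?_, by group⟩
    rw [← Abelianization.ker_of, MonoidHom.mem_ker] at hc hc' ⊢
    simp only [map_mul, map_inv, map_pow, hc, hc', mul_one, mul_pow, inv_mul_cancel]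
  | inv x _ hx =>
    obtain ⟨g, c, hc, rfl⟩ := hx
    refine ⟨g⁻¹, ((g⁻¹) ^ 2)⁻¹ * (g ^ 2 * c)⁻¹, ?_, by group⟩
    rw [← Abelianization.ker_of, MonoidHom.mem_ker] at hc ⊢
    simp only [map_mul, map_inv, map_pow, hc, mul_one, inv_pow, inv_inv, mul_inv_cancel]

theorem inClassK_comm {G : Type*} [Group G]
    (h : ∃ n : ℕ, ∀ x ∈ commutator G, x ∈ (commutatorSet G) ^ n) :
    InClassK ⁅(FreeGroup.of 0 : FreeGroup (Fin 2)), (FreeGroup.of 1 : FreeGroup (Fin 2))⁆ G := by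
  obtain ⟨n, hn⟩ := h
  refine ⟨n + 1, Nat.succ_pos n, fun x hx => ?_⟩
  rw [verbalSubgroup, wv_comm, ← commutator_eq_closure] at hx
  have h1 := cs_mono (Nat.le_succ n) (hn x hx)
  rw [← wv_comm] at h1
  obtain ⟨f, hf⟩ := Set.mem_pow.1 h1
  exact ⟨fun j => (f j : G), fun j => (f j).2, hf⟩

theorem inClassK_sq {G : Type*} [Group G]
    (h : ∃ n : ℕ, ∀ x ∈ commutator G, x ∈ (commutatorSet G) ^ n) :
    InClassK ((FreeGroup.of 0 : FreeGroup (Fin 1)) ^ 2) G := by
  obtain ⟨n, hn⟩ := h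
  refine ⟨1 + 3 * n, by omega, fun x hx => ?_⟩
  rw [verbalSubgroup, wv_sq] at hx
  obtain ⟨g, c, hc, rfl⟩ := sq_form x hx
  have hsub : commutatorSet G ⊆ {x : G | ∃ g : G, x = g ^ 2} ^ 3 := by
    rintro _ ⟨a, b, rfl⟩
    have e : ⁅a, b⁆ = a ^ 2 * (a⁻¹ * b) ^ 2 * (b⁻¹) ^ 2 := by
      rw [commutatorElement_def, pow_two, pow_two, pow_two]
      group
    rw [e, pow_succ, pow_two]
    exact Set.mul_mem_mul (Set.mul_mem_mul ⟨_, rfl⟩ ⟨_, rfl⟩) ⟨_, rfl⟩
  have h1 : c ∈ {x : G | ∃ g : G, x = g ^ 2} ^ (3 * n) := by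
    rw [pow_mul]
    exact Set.pow_subset_pow_left hsub (hn c hc)
  have h2 : g ^ 2 * c ∈ {x : G | ∃ g : G, x = g ^ 2} ^ (1 + 3 * n) := by
    rw [pow_add, pow_one]
    exact Set.mul_mem_mul ⟨g, rfl⟩ h1
  rw [← wv_sq] at h2
  obtain ⟨f, hf⟩ := Set.mem_pow.1 h2
  exact ⟨fun j => (f j : G), fun j => (f j).2, hf⟩

end Pool.Agent.Lib.MP_c7b0ca_fe
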