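import Pool.Agent.Lib.MP_c7b0ca_fe.G1
import Pool.Agent.Lib.MP_c7b0ca_al.Power

/-!
ROW G3: a central commutator subgroup `⁅Y, N⁆` is bounded if `N` is the normal closure of a finite set.

PROOF. `⁅Y, N⁆` central in `G`: `⁅y, n n'⁆ = ⁅y, n⁆ * ⁅y, n'⁆`, `⁅y y', n⁆ = ⁅y, n⁆ * ⁅y', n⁆`, and for `x ∈ X`, `g ∈ G`:
`⁅y, g x g⁻¹⁆ = ⁅g⁻¹ y g, x⁆` (conjugation by `g⁻¹` fixes central elements). So
`{z | ∃ y : X → Y, z = ∏_{x ∈ X} ⁅y x, x⁆}` (a product of commuting central elements) is a subgroup which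
contains all `⁅y, n⁆`, `n ∈ N = closure of the conjugates of X` (`Subgroup.normalClosure`), hence `⁅Y, N⁆`.
-/

open scoped Pointwise commutatorElement

namespace Pool.Agent.Lib.MP_c7b0ca_fe

private theorem G3_mul {G : Type*} [Group G] {Z : Subgroup G} (hZ : Z ≤ Subgroup.center G)
    {y y' x : G} (h' : ⁅y', x⁆ ∈ Z) : ⁅y * y', x⁆ = ⁅y, x⁆ * ⁅y', x⁆ := by
  have h1 : ∀ g : G, g * ⁅y', x⁆ = ⁅y', x⁆ * g := fun g => Subgroup.mem_center_iff.1 (hZ h') g
  have e : ⁅y * y', x⁆ = y * ⁅y', x⁆ * (x * y⁻¹ * x⁻¹) := by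
    simp only [commutatorElement_def]; group
  rw [e, mul_assoc, ← h1 (x * y⁻¹ * x⁻¹), ← mul_assoc]
  simp only [commutatorElement_def]; group

private theorem G3_mul' {G : Type*} [Group G] {Z : Subgroup G} (hZ : Z ≤ Subgroup.center G)
    {y x x' : G} (h' : ⁅y, x'⁆ ∈ Z) : ⁅y, x * x'⁆ = ⁅y, x⁆ * ⁅y, x'⁆ := by
  have h1 : ∀ g : G, g * ⁅y, x'⁆ = ⁅y, x'⁆ * g := fun g => Subgroup.mem_center_iff.1 (hZ h') g
  have e : ⁅y, x * x'⁆ = ⁅y, x⁆ * (x * ⁅y, x'⁆ * x⁻¹) := by
    simp only [commutatorElement_def]; group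
  rw [e, h1 x, mul_assoc (⁅y, x'⁆) x x⁻¹, mul_inv_cancel, mul_one]

/-- the main induction: there is a list of elements of `Y`, one for each element of `X` -/
private theorem G3_key {G : Type*} [Group G] (Y N : Subgroup G) [Y.Normal] [N.Normal]
    (hZ : ⁅Y, N⁆ ≤ Subgroup.center G) (X : Finset G) (hXN : ∀ x ∈ X, x ∈ N)
    (z : G) (hz : z ∈ ⁅Y, N⁆)
    (hX : Subgroup.normalClosure (X : Set G) = N) :
    ∃ y : G → G, (∀ x, y x ∈ Y) ∧ z = (X.toList.map fun x => ⁅y x, x⁆).prod := by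
  classical
  -- membership in the commutator
  have hmem : ∀ y ∈ Y, ∀ n ∈ N, ⁅y, n⁆ ∈ ⁅Y, N⁆ := fun y hy n hn =>
    Subgroup.commutator_mem_commutator hy hn
  have hlist : ∀ (l : List G), (∀ x ∈ l, x ∈ N) → ∀ y : G → G, (∀ x, y x ∈ Y) →
      (l.map fun x => ⁅y x, x⁆).prod ∈ ⁅Y, N⁆ := by
    intro l hl y hy
    apply Subgroup.list_prod_mem
    intro t ht
    obtain ⟨x, hx, rfl⟩ := List.mem_map.1 ht
    exact hmem _ (hy x) _ (hl x hx)
  have hprod : ∀ (l : List G), (∀ x ∈ l, x ∈ N) → ∀ y y' : G → G, (∀ x, y x ∈ Y) →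
      (∀ x, y' x ∈ Y) → (l.map fun x => ⁅y x, x⁆).prod * (l.map fun x => ⁅y' x, x⁆).prod =
        (l.map fun x => ⁅y x * y' x, x⁆).prod := by
    intro l
    induction l with
    | nil => intro _ y y' _ _; simp
    | cons a l ih =>
      intro hl y y' hy hy'
      have h1 := ih (fun x hx => hl x (List.mem_cons_of_mem _ hx)) y y' hy hy'
      simp only [List.map_cons, List.prod_cons]
      rw [G3_mul hZ (hmem _ (hy' a) _ (hl a List.mem_cons_self)), ← h1]
      have h2 : ∀ g : G, g * ⁅y' a, a⁆ = ⁅y' a, a⁆ * g := fun g =>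
        Subgroup.mem_center_iff.1 (hZ (hmem _ (hy' a) _ (hl a List.mem_cons_self))) g
      rw [mul_assoc, ← mul_assoc _ (⁅y' a, a⁆) _, h2, mul_assoc, mul_assoc]
  let P : Set G := {z | ∃ y : G → G, (∀ x, y x ∈ Y) ∧ z = (X.toList.map fun x => ⁅y x, x⁆).prod}
  have hXl : ∀ x ∈ X.toList, x ∈ N := fun x hx => hXN x (Finset.mem_toList.1 hx)
  have hP1 : (1 : G) ∈ P := by
    refine ⟨fun _ => 1, fun _ => Y.one_mem, ?_⟩
    symm
    apply List.prod_eq_one
    intro t ht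
    obtain ⟨x, hx, rfl⟩ := List.mem_map.1 ht
    simp
  have hPm : ∀ a b, a ∈ P → b ∈ P → a * b ∈ P := by
    rintro _ _ ⟨y, hy, rfl⟩ ⟨y', hy', rfl⟩
    exact ⟨fun x => y x * y' x, fun x => Y.mul_mem (hy x) (hy' x), hprod _ hXl y y' hy hy'⟩
  have hPi : ∀ a, a ∈ P → a⁻¹ ∈ P := by
    rintro _ ⟨y, hy, rfl⟩
    refine ⟨fun x => (y x)⁻¹, fun x => Y.inv_mem (hy x), ?_⟩
    rw [inv_eq_iff_mul_eq_one, hprod _ hXl y _ hy (fun x => Y.inv_mem (hy x))]
    apply List.prod_eq_one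
    intro t ht
    obtain ⟨x, hx, rfl⟩ := List.mem_map.1 ht
    simp
  let PP : Subgroup G :=
    { carrier := P
      one_mem' := hP1
      mul_mem' := fun {a b} ha hb => hPm a b ha hb
      inv_mem' := fun {a} ha => hPi a ha }
  -- single commutators
  have hsingle : ∀ (l : List G), l.Nodup → ∀ x ∈ l, ∀ y ∈ Y,
      ⁅y, x⁆ = (l.map fun t => ⁅(if t = x then y else 1), t⁆).prod := by
    intro l hl x hx y hy
    induction l with
    | nil => simp at hx
    | cons a l ih =>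
      rw [List.nodup_cons] at hl
      simp only [List.map_cons, List.prod_cons]
      by_cases hax : a = x
      · subst hax
        have : (l.map fun t => ⁅(if t = a then y else 1), t⁆).prod = 1 := by
          apply List.prod_eq_one
          intro t ht
          obtain ⟨u, hu, rfl⟩ := List.mem_map.1 ht
          have : u ≠ a := fun h => hl.1 (h ▸ hu)
          simp [this]
        rw [this]; simp
      · have hx' : x ∈ l := by
          rcases List.mem_cons.1 hx with h | h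
          · exact absurd h.symm hax
          · exact h
        rw [← ih hl.2 hx']
        simp [hax]
  have hXP : ∀ x ∈ X, ∀ y ∈ Y, ⁅y, x⁆ ∈ PP := by
    intro x hx y hy
    refine ⟨fun t => if t = x then y else 1, ?_, ?_⟩
    · intro t
      show (if t = x then y else 1) ∈ Y
      split_ifs
      · exact hy
      · exact Y.one_mem
    · exact hsingle _ X.nodup_toList x (Finset.mem_toList.2 hx) y hy
  have hconj : ∀ n ∈ N, ∀ y ∈ Y, ⁅y, n⁆ ∈ PP := by
    intro n hn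
    rw [← hX] at hn
    rw [Subgroup.normalClosure] at hn
    induction hn using Subgroup.closure_induction with
    | mem t ht =>
      intro y hy
      obtain ⟨x, hx, hxt⟩ := Group.mem_conjugatesOfSet_iff.1 ht
      obtain ⟨g, rfl⟩ := isConj_iff.1 hxt
      have h1 : g⁻¹ * y * g⁻¹⁻¹ ∈ Y := (inferInstance : Y.Normal).conj_mem y hy g⁻¹
      have h2 := hXP x hx _ h1
      have h3 : ∀ k : G, k * ⁅g⁻¹ * y * g⁻¹⁻¹, x⁆ = ⁅g⁻¹ * y * g⁻¹⁻¹, x⁆ * k := fun k =>
        Subgroup.mem_center_iff.1 (hZ (hmem _ h1 _ (hXN x hx))) k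
      have e : ⁅y, g * x * g⁻¹⁆ = g * ⁅g⁻¹ * y * g⁻¹⁻¹, x⁆ * g⁻¹ := by
        simp only [commutatorElement_def]; group
      rw [e, h3 g, mul_assoc, mul_inv_cancel, mul_one]
      exact h2
    | one => intro y hy; simp [PP.one_mem]
    | mul a b ha hb iha ihb =>
      intro y hy
      have hb' : b ∈ N := by
        rw [← hX]; exact hb
      rw [G3_mul' hZ (hmem y hy b hb')]
      exact PP.mul_mem (iha y hy) (ihb y hy)
    | inv a ha iha =>
      intro y hy
      have ha' : a ∈ N := by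
        rw [← hX]; exact ha
      have h1 : ⁅y, a * a⁻¹⁆ = ⁅y, a⁆ * ⁅y, a⁻¹⁆ := G3_mul' hZ (hmem y hy _ (N.inv_mem ha'))
      rw [mul_inv_cancel, commutatorElement_one_right] at h1
      have h2 : ⁅y, a⁻¹⁆ = (⁅y, a⁆)⁻¹ := by
        rw [eq_inv_iff_mul_eq_one]
        have := Subgroup.mem_center_iff.1 (hZ (hmem y hy a ha')) (⁅y, a⁻¹⁆)
        rw [this]; exact h1.symm
      rw [h2]
      exact PP.inv_mem (iha y hy)
  have hle : ⁅Y, N⁆ ≤ PP := by
    rw [Subgroup.commutator_le]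
    intro y hy n hn
    exact hconj n hn y hy
  exact hle hz

theorem central_comm_bounded {G : Type*} [Group G] (Y N : Subgroup G) [Y.Normal] [N.Normal]
    (hZ : ⁅Y, N⁆ ≤ Subgroup.center G) (X : Finset G)
    (hX : Subgroup.normalClosure (X : Set G) = N) :
    ∀ z ∈ ⁅Y, N⁆, z ∈ (commutatorSet G) ^ X.card := by
  intro z hz
  have hXN : ∀ x ∈ X, x ∈ N := by
    intro x hx
    rw [← hX]; exact Subgroup.subset_normalClosure hx
  obtain ⟨y, -, rfl⟩ := G3_key Y N hZ X hXN z hz hX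
  have : ∀ l : List G, (l.map fun x => ⁅y x, x⁆).prod ∈ (commutatorSet G) ^ l.length := by
    intro l
    induction l with
    | nil => simp
    | cons a l ih =>
      simp only [List.map_cons, List.prod_cons, List.length_cons]
      rw [pow_succ']
      exact Set.mul_mem_mul (mem_commutatorSet_iff.2 ⟨_, _, rfl⟩) ih
  have h := this X.toList
  rwa [Finset.length_toList] at h

/-- `⁅⊤, A⁆` is bounded for an abelian normal subgroup `A` of a finitely generated group: this is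
`comm_mem_pow` of `Pool.Agent.Lib.MP_c7b0ca_al.Power` -/
theorem comm_top_bounded {G : Type*} [Group G] [Group.FG G] (A : Subgroup G) [A.Normal]
    (hA : ⁅A, A⁆ = ⊥) : ∃ n : ℕ, ∀ z ∈ ⁅(⊤ : Subgroup G), A⁆, z ∈ (commutatorSet G) ^ n := by
  obtain ⟨S, hS⟩ := Group.fg_def.1 (inferInstance : Group.FG G)
  refine ⟨S.card, fun z hz => ?_⟩
  rw [← hS] at hz
  exact Pool.Agent.Lib.MP_c7b0ca_al.comm_mem_pow A hA S (commutatorSet G)
    (fun e _ u _ => mem_commutatorSet_iff.2 ⟨e, u, rfl⟩) z hz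

end Pool.Agent.Lib.MP_c7b0ca_fe
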