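import Pool.Agent.Lib.MP_c7b0ca_fe.Defs
import Pool.Agent.Lib.MP_c7b0ca_fe.G2
import Pool.Agent.Lib.MP_c7b0ca_fe.G3

/-!
ROW G4: finitely generated nilpotent-by-abelian groups have finite commutator width.

PROOF. Induction on `c`, for all `G` (in one universe). `c = 0`: `N = ⊥`, `G` abelian, `commutator G = ⊥`.
`c = 1`: `⁅N, N⁆ = ⊥`: `⁅⊤, N⁆` is bounded (`comm_top_bounded`, it is normal); in `G ⧸ ⁅⊤, N⁆` the image of `N` is central and
contains the commutator subgroup; `⊤` is the normal closure of a finite generating set, so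
`central_comm_bounded` with `Y = N := ⊤` bounds the commutator subgroup `⁅⊤, ⊤⁆`. `cs_lift`.
`c + 2`: `Z = lcN N (c+1) = ⁅lcN N c, N⁆`, `⁅Z, N⁆ = ⊥`, `Z ≤ N` so `⁅Z, Z⁆ = ⊥`. `K = ⁅⊤, Z⁆` is bounded. In `G ⧸ K` the image
of `Z` is `⁅image of lcN N c, image of N⁆`, central, so bounded by `central_comm_bounded` and
`fg_normalClosure` (image of the finite set). `G ⧸ Z`: image of `N` has `lcN (c+1) = ⊥`: induction. (`lcN` and
`Subgroup.map` of a surjection commute: `Subgroup.map_commutator`. Every `lcN N i` is normal and `lcN N (i+1) ≤ lcN N i`.)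
-/

open scoped Pointwise commutatorElement

namespace Pool.Agent.Lib.MP_c7b0ca_fe

universe u

theorem lcN_normal {G : Type*} [Group G] (N : Subgroup G) [N.Normal] (i : ℕ) : (lcN N i).Normal := by
  induction i with
  | zero => exact (inferInstance : N.Normal)
  | succ i ih =>
    show (⁅lcN N i, N⁆).Normal
    have := ih
    infer_instance

theorem lcN_map {G G' : Type*} [Group G] [Group G'] (f : G →* G') (N : Subgroup G) (i : ℕ) :
    (lcN N i).map f = lcN (N.map f) i := by
  induction i with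
  | zero => rfl
  | succ i ih =>
    show (⁅lcN N i, N⁆).map f = ⁅lcN (N.map f) i, N.map f⁆
    rw [Subgroup.map_commutator, ih]

private theorem G4_lcN_le {G : Type*} [Group G] (N : Subgroup G) [N.Normal] (i : ℕ) :
    lcN N i ≤ N := by
  cases i with
  | zero => exact le_refl _
  | succ i =>
    show ⁅lcN N i, N⁆ ≤ N
    exact Subgroup.commutator_le_right _ _

/-- the image of `Z` modulo `⁅⊤, Z⁆` is central -/
private theorem G4_central {G : Type*} [Group G] (Z : Subgroup G) [Z.Normal] :
    Z.map (QuotientGroup.mk' ⁅(⊤ : Subgroup G), Z⁆) ≤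
      Subgroup.center (G ⧸ ⁅(⊤ : Subgroup G), Z⁆) := by
  rintro _ ⟨z, hz, rfl⟩
  rw [Subgroup.mem_center_iff]
  intro g
  obtain ⟨g, rfl⟩ := QuotientGroup.mk'_surjective _ g
  rw [← map_mul, ← map_mul]
  apply QuotientGroup.eq.2
  have h1 : ⁅g⁻¹, z⁻¹⁆ ∈ ⁅(⊤ : Subgroup G), Z⁆ :=
    Subgroup.commutator_mem_commutator (Subgroup.mem_top _) (Z.inv_mem hz)
  have h2 := (inferInstance : (⁅(⊤ : Subgroup G), Z⁆).Normal).conj_mem _
    ((⁅(⊤ : Subgroup G), Z⁆).inv_mem h1) 1
  have e : (g * z)⁻¹ * (z * g) = ⁅z⁻¹, g⁻¹⁆ := by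
    simp only [commutatorElement_def]; group
  rw [e, ← commutatorElement_inv]
  exact (⁅(⊤ : Subgroup G), Z⁆).inv_mem h1

private theorem G4_map_finset {G G' : Type*} [Group G] [Group G'] (f : G →* G')
    (hf : Function.Surjective f) (N : Subgroup G) (X : Finset G)
    (hX : Subgroup.normalClosure (X : Set G) = N) :
    ∃ X' : Finset G', Subgroup.normalClosure (X' : Set G') = N.map f := by
  classical
  refine ⟨X.image f, ?_⟩
  rw [Finset.coe_image, ← Subgroup.map_normalClosure _ f hf, hX]

theorem nilpotent_by_abelian (c : ℕ) : ∀ (G : Type u) [Group G] [Group.FG G] (N : Subgroup G)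
    [N.Normal], commutator G ≤ N → lcN N c = ⊥ →
    ∃ n : ℕ, ∀ x ∈ commutator G, x ∈ (commutatorSet G) ^ n := by
  induction c with
  | zero =>
    intro G _ _ N _ hN hc
    refine ⟨0, fun x hx => ?_⟩
    have h1 : N = ⊥ := hc
    have h2 := hN hx
    rw [h1, Subgroup.mem_bot] at h2
    rw [h2]; simp
  | succ c ih =>
    intro G _ _ N _ hN hc
    cases c with
    | zero =>
      have hc1 : ⁅N, N⁆ = ⊥ := hc
      obtain ⟨m, hm⟩ := comm_top_bounded N hc1
      -- in the quotient the commutator subgroup is central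
      have h1 : ⁅(⊤ : Subgroup (G ⧸ ⁅(⊤ : Subgroup G), N⁆)), ⊤⁆ ≤
          Subgroup.center (G ⧸ ⁅(⊤ : Subgroup G), N⁆) := by
        refine le_trans ?_ (G4_central N)
        have h2 : (⊤ : Subgroup (G ⧸ ⁅(⊤ : Subgroup G), N⁆)) =
            (⊤ : Subgroup G).map (QuotientGroup.mk' _) :=
          (Subgroup.map_top_of_surjective _ (QuotientGroup.mk'_surjective _)).symm
        rw [h2, ← Subgroup.map_commutator, ← commutator_def]
        exact Subgroup.map_mono hN
      obtain ⟨S, hS⟩ := Group.fg_def.1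
        (inferInstance : Group.FG (G ⧸ ⁅(⊤ : Subgroup G), N⁆))
      have hS' : Subgroup.normalClosure (S : Set (G ⧸ ⁅(⊤ : Subgroup G), N⁆)) = ⊤ := by
        rw [eq_top_iff, ← hS]
        exact Subgroup.closure_le_normalClosure
      have h3 := central_comm_bounded _ _ h1 S hS'
      refine ⟨S.card + m, fun x hx => ?_⟩
      apply cs_lift _ hm
      apply h3
      have h4 : (QuotientGroup.mk' ⁅(⊤ : Subgroup G), N⁆) x ∈
          (commutator G).map (QuotientGroup.mk' _) := Subgroup.mem_map_of_mem _ hx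
      rw [commutator_def, Subgroup.map_commutator] at h4
      exact Subgroup.commutator_mono le_top le_top h4
    | succ c =>
      have hnc : (lcN N c).Normal := lcN_normal N c
      have hnc1 : (lcN N (c + 1)).Normal := lcN_normal N (c + 1)
      have hZN : ⁅lcN N (c + 1), N⁆ = ⊥ := hc
      have hZZ : ⁅lcN N (c + 1), lcN N (c + 1)⁆ = ⊥ := by
        rw [eq_bot_iff, ← hZN]
        exact Subgroup.commutator_mono le_rfl (G4_lcN_le N _)
      obtain ⟨m, hm⟩ := comm_top_bounded (lcN N (c + 1)) hZZ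
      obtain ⟨X, hX⟩ := fg_normalClosure N hN
      -- the image of Z modulo K is bounded
      have hsurj := QuotientGroup.mk'_surjective ⁅(⊤ : Subgroup G), lcN N (c + 1)⁆
      obtain ⟨X', hX'⟩ := G4_map_finset (QuotientGroup.mk' ⁅(⊤ : Subgroup G), lcN N (c + 1)⁆)
        hsurj N X hX
      have hn1 : ((lcN N c).map (QuotientGroup.mk' ⁅(⊤ : Subgroup G), lcN N (c + 1)⁆)).Normal :=
        Subgroup.Normal.map hnc _ hsurj
      have hn2 : (N.map (QuotientGroup.mk' ⁅(⊤ : Subgroup G), lcN N (c + 1)⁆)).Normal :=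
        Subgroup.Normal.map inferInstance _ hsurj
      have hmap : (lcN N (c + 1)).map (QuotientGroup.mk' ⁅(⊤ : Subgroup G), lcN N (c + 1)⁆) =
          ⁅(lcN N c).map (QuotientGroup.mk' ⁅(⊤ : Subgroup G), lcN N (c + 1)⁆),
            N.map (QuotientGroup.mk' ⁅(⊤ : Subgroup G), lcN N (c + 1)⁆)⁆ :=
        Subgroup.map_commutator _ _ _
      have hcen := G4_central (lcN N (c + 1))
      have h3 := central_comm_bounded _ _ (hmap ▸ hcen) X' hX'
      have hZ : ∀ x ∈ lcN N (c + 1), x ∈ (commutatorSet G) ^ (X'.card + m) := by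
        intro x hx
        apply cs_lift _ hm
        apply h3
        rw [← hmap]
        exact Subgroup.mem_map_of_mem _ hx
      -- the quotient by Z
      have hs := QuotientGroup.mk'_surjective (lcN N (c + 1))
      have hn3 : (N.map (QuotientGroup.mk' (lcN N (c + 1)))).Normal :=
        Subgroup.Normal.map inferInstance _ hs
      have htop : (⊤ : Subgroup (G ⧸ lcN N (c + 1))) =
          (⊤ : Subgroup G).map (QuotientGroup.mk' _) :=
        (Subgroup.map_top_of_surjective _ hs).symm
      have hcm : commutator (G ⧸ lcN N (c + 1)) =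
          (commutator G).map (QuotientGroup.mk' (lcN N (c + 1))) := by
        rw [commutator_def, commutator_def, Subgroup.map_commutator, htop]
      obtain ⟨n, hn⟩ := ih (G ⧸ lcN N (c + 1)) (N.map (QuotientGroup.mk' (lcN N (c + 1))))
        (by rw [hcm]; exact Subgroup.map_mono hN)
        (by
          rw [← lcN_map]
          rw [Subgroup.map_eq_bot_iff]
          exact (QuotientGroup.ker_mk' (lcN N (c + 1))).ge)
      refine ⟨n + (X'.card + m), fun x hx => ?_⟩
      apply cs_lift _ hZ
      apply hn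
      rw [hcm]
      exact Subgroup.mem_map_of_mem _ hx

end Pool.Agent.Lib.MP_c7b0ca_fe
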