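import Pool.Agent.Lib.MP_c7b0ca_fe.Defs

/-!
ROW VV: existence of the data `Setup`.

`V = Additive (R ⧸ Subgroup.center R)`.
-/

open scoped Pointwise commutatorElement

namespace Pool.Agent.Lib.MP_c7b0ca_fe

universe u

section

variable {G : Type u} [Group G] (R : Subgroup G)

private theorem comm_mem (hcen : ⁅R, R⁆ ≤ Subgroup.center G) (r r' : R) :
    ⁅(r : G), (r' : G)⁆ ∈ Subgroup.center G :=
  hcen (Subgroup.commutator_mem_commutator r.2 r'.2)

private theorem comm_mul_right (hcen : ⁅R, R⁆ ≤ Subgroup.center G) (r r' r'' : R) :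
    ⁅(r : G), (r' : G) * (r'' : G)⁆ = ⁅(r : G), (r' : G)⁆ * ⁅(r : G), (r'' : G)⁆ := by
  have h := Subgroup.mem_center_iff.1 (comm_mem R hcen r r'') (r' : G)
  have e : ⁅(r : G), (r' : G) * (r'' : G)⁆ =
      ⁅(r : G), (r' : G)⁆ * ((r' : G) * ⁅(r : G), (r'' : G)⁆ * (r' : G)⁻¹) := by
    simp only [commutatorElement_def]
    group
  rw [e, h, mul_inv_cancel_right]

private theorem comm_mul_left (hcen : ⁅R, R⁆ ≤ Subgroup.center G) (r r' r'' : R) :
    ⁅(r : G) * (r' : G), (r'' : G)⁆ = ⁅(r : G), (r'' : G)⁆ * ⁅(r' : G), (r'' : G)⁆ := by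
  have h := Subgroup.mem_center_iff.1 (comm_mem R hcen r' r'') (r : G)
  have e : ⁅(r : G) * (r' : G), (r'' : G)⁆ =
      ((r : G) * ⁅(r' : G), (r'' : G)⁆ * (r : G)⁻¹) * ⁅(r : G), (r'' : G)⁆ := by
    simp only [commutatorElement_def]
    group
  rw [e, h, mul_inv_cancel_right]
  exact (Subgroup.mem_center_iff.1 (comm_mem R hcen r' r'') _).symm

private theorem comm_one_of_center {r r' : R} (h : r ∈ Subgroup.center R) :
    ⁅(r : G), (r' : G)⁆ = 1 ∧ ⁅(r' : G), (r : G)⁆ = 1 := by
  have h1 := Subgroup.mem_center_iff.1 h r'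
  have h2 : (r' : G) * (r : G) = (r : G) * (r' : G) := congrArg Subtype.val h1
  exact ⟨commutatorElement_eq_one_iff_mul_comm.2 h2.symm,
    commutatorElement_eq_one_iff_mul_comm.2 h2⟩

private theorem mem_center_of (r : R)
    (h : ∀ r' : R, ⁅(r : G), (r' : G)⁆ = 1) : r ∈ Subgroup.center R := by
  rw [Subgroup.mem_center_iff]
  intro r'
  apply Subtype.ext
  exact (commutatorElement_eq_one_iff_mul_comm.1 (h r')).symm

/-- the commutator with `r`, as a map of `r'` -/
private def cm1 (hcen : ⁅R, R⁆ ≤ Subgroup.center G) (r : R) : R →* Subgroup.center G where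
  toFun r' := ⟨⁅(r : G), (r' : G)⁆, comm_mem R hcen r r'⟩
  map_one' := by
    apply Subtype.ext
    simp
  map_mul' r' r'' := by
    apply Subtype.ext
    exact comm_mul_right R hcen r r' r''

/-- the commutator with `r`, as a map on the quotient -/
private def cm2 (hcen : ⁅R, R⁆ ≤ Subgroup.center G) (r : R) :
    R ⧸ Subgroup.center R →* Subgroup.center G :=
  QuotientGroup.lift (Subgroup.center R) (cm1 R hcen r) (by
    intro r' hr'
    apply Subtype.ext
    exact (comm_one_of_center R hr').2)

/-- the commutator form -/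
private def cm3 (hcen : ⁅R, R⁆ ≤ Subgroup.center G) :
    R ⧸ Subgroup.center R →* (R ⧸ Subgroup.center R →* Subgroup.center G) :=
  QuotientGroup.lift (Subgroup.center R)
    { toFun := cm2 R hcen
      map_one' := by
        apply MonoidHom.ext
        intro q
        obtain ⟨r', rfl⟩ := QuotientGroup.mk_surjective q
        apply Subtype.ext
        show ⁅((1 : R) : G), (r' : G)⁆ = 1
        simp
      map_mul' := by
        intro r r'
        apply MonoidHom.ext
        intro q
        obtain ⟨r'', rfl⟩ := QuotientGroup.mk_surjective q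
        apply Subtype.ext
        exact comm_mul_left R hcen r r' r'' } (by
    intro r hr
    apply MonoidHom.ext
    intro q
    obtain ⟨r', rfl⟩ := QuotientGroup.mk_surjective q
    apply Subtype.ext
    exact (comm_one_of_center R hr).1)

private theorem cm3_mk (hcen : ⁅R, R⁆ ≤ Subgroup.center G) (r r' : R) :
    ((cm3 R hcen (r : R ⧸ Subgroup.center R) (r' : R ⧸ Subgroup.center R) :
      Subgroup.center G) : G) = ⁅(r : G), (r' : G)⁆ := rfl

/-- the quotient is commutative -/
@[reducible] private def cgQ (hcen : ⁅R, R⁆ ≤ Subgroup.center G) :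
    CommGroup (R ⧸ Subgroup.center R) :=
  { (inferInstance : Group (R ⧸ Subgroup.center R)) with
    mul_comm := by
      intro a b
      obtain ⟨r, rfl⟩ := QuotientGroup.mk_surjective a
      obtain ⟨r', rfl⟩ := QuotientGroup.mk_surjective b
      rw [← QuotientGroup.mk_mul, ← QuotientGroup.mk_mul, QuotientGroup.eq,
        Subgroup.mem_center_iff]
      intro x
      apply Subtype.ext
      have h := Subgroup.mem_center_iff.1 (comm_mem R hcen r'⁻¹ r⁻¹) (x : G)
      have e : (((r * r')⁻¹ * (r' * r) : R) : G) = ⁅((r'⁻¹ : R) : G), ((r⁻¹ : R) : G)⁆ := by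
        simp only [commutatorElement_def]
        push_cast
        group
      calc ((x * ((r * r')⁻¹ * (r' * r)) : R) : G) = x * (((r * r')⁻¹ * (r' * r) : R) : G) := rfl
        _ = (((r * r')⁻¹ * (r' * r) : R) : G) * x := by rw [e]; exact h
        _ = (((r * r')⁻¹ * (r' * r) * x : R) : G) := rfl }

private theorem sq_mem (hcen : ⁅R, R⁆ ≤ Subgroup.center G) (h2 : ∀ a ∈ ⁅R, R⁆, a ^ 2 = 1)
    (r : R) : r * r ∈ Subgroup.center R := by
  refine mem_center_of R (r * r) fun r' => ?_
  rw [Subgroup.coe_mul, comm_mul_left R hcen, ← pow_two]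
  exact h2 _ (Subgroup.commutator_mem_commutator r.2 r'.2)

/-- conjugation on the quotient -/
private def cj [R.Normal] (x : G) : R ⧸ Subgroup.center R →* R ⧸ Subgroup.center R :=
  QuotientGroup.map (Subgroup.center R) (Subgroup.center R)
    ((MulAut.conjNormal x : MulAut R) : R ≃* R).toMonoidHom (by
      intro r hr
      show (MulAut.conjNormal x : MulAut R) r ∈ Subgroup.center R
      rw [Subgroup.mem_center_iff]
      intro r'
      have h := Subgroup.mem_center_iff.1 hr ((MulAut.conjNormal x : MulAut R).symm r')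
      have h3 := congrArg (MulAut.conjNormal x : MulAut R) h
      rw [map_mul, map_mul, MulEquiv.apply_symm_apply] at h3
      exact h3)

private theorem cj_mk [R.Normal] (x : G) (r : R) :
    cj R x (r : R ⧸ Subgroup.center R) =
      (((MulAut.conjNormal x : MulAut R) r : R) : R ⧸ Subgroup.center R) := rfl

private theorem cj_one [R.Normal] (q : R ⧸ Subgroup.center R) : cj R 1 q = q := by
  obtain ⟨r, rfl⟩ := QuotientGroup.mk_surjective q
  rw [cj_mk, map_one, MulAut.one_apply]

private theorem cj_mul [R.Normal] (x y : G) (q : R ⧸ Subgroup.center R) :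
    cj R (x * y) q = cj R x (cj R y q) := by
  obtain ⟨r, rfl⟩ := QuotientGroup.mk_surjective q
  rw [cj_mk, cj_mk, cj_mk, map_mul, MulAut.mul_apply]

end

theorem exists_setup {G : Type u} [Group G] [Group.FG G] (R N : Subgroup G) [R.Normal] [N.Normal]
    (hRN : R ≤ N) (hN : commutator G ≤ N) (hcen : ⁅R, R⁆ ≤ Subgroup.center G)
    (h2 : ∀ a ∈ ⁅R, R⁆, a ^ 2 = 1) :
    ∃ (V : Type u) (_ : AddCommGroup V) (_ : Module (ZMod 2) V) (s : Setup G V),
      s.R = R ∧ s.N = N := by
  classical
  obtain ⟨S, hS⟩ : ∃ S : Finset G, Subgroup.closure (S : Set G) = ⊤ := Group.fg_iff'.1 ‹_› |>.elim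
    fun n h => ⟨h.choose, h.choose_spec.2⟩
  obtain ⟨T, hT⟩ : ∃ T : Finset G, T = S ∪ S.image fun x => x⁻¹ := ⟨_, rfl⟩
  have hTinv : ∀ x ∈ T, x⁻¹ ∈ T := by
    intro x hx
    rw [hT, Finset.mem_union, Finset.mem_image] at hx ⊢
    rcases hx with hx | ⟨y, hy, rfl⟩
    · exact Or.inr ⟨x, hx, rfl⟩
    · rw [inv_inv]
      exact Or.inl hy
  let _ : CommGroup (R ⧸ Subgroup.center R) := cgQ R hcen
  have hexp : ∀ v : Additive (R ⧸ Subgroup.center R), 2 • v = 0 := by
    intro v
    obtain ⟨r, hr⟩ := QuotientGroup.mk_surjective v.toMul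
    rw [two_nsmul]
    apply Additive.toMul.injective
    show v.toMul * v.toMul = 1
    rw [← hr]
    exact (QuotientGroup.eq_one_iff _).2 (sq_mem R hcen h2 r)
  let _ : Module (ZMod 2) (Additive (R ⧸ Subgroup.center R)) := AddCommGroup.zmodModule hexp
  refine ⟨Additive (R ⧸ Subgroup.center R), inferInstance, inferInstance,
    { d := T.card
      g := fun i => (T.equivFin.symm i : G)
      gen := ?_
      inv := ?_
      R := R
      N := N
      hR := ‹_›
      hN := ‹_›
      le := hRN
      comm := hN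
      ρ :=
        { toFun := fun x => (MonoidHom.toAdditive (cj R x)).toZModLinearMap 2
          map_one' := ?_
          map_mul' := ?_ }
      cl := fun r => Additive.ofMul (r : R ⧸ Subgroup.center R)
      cl_mul := fun r r' => rfl
      cl_surj := ?_
      cl_conj := ?_
      b := AddMonoidHom.mk' (fun v => AddMonoidHom.mk'
        (fun v' => Additive.ofMul (cm3 R hcen v.toMul v'.toMul)) ?_) ?_
      b_cl := fun r r' => rfl }, rfl, rfl⟩
  · rw [eq_top_iff, ← hS, Subgroup.closure_le]
    intro x hx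
    refine Subgroup.subset_closure ⟨T.equivFin ⟨x, ?_⟩, ?_⟩
    · rw [hT]
      exact Finset.mem_union_left _ hx
    · simp
  · intro i
    refine ⟨T.equivFin ⟨((T.equivFin.symm i : T) : G)⁻¹, hTinv _ (T.equivFin.symm i).2⟩, ?_⟩
    simp
  · apply LinearMap.ext
    intro v
    exact cj_one R v.toMul
  · intro x y
    apply LinearMap.ext
    intro v
    exact cj_mul R x y v.toMul
  · intro v
    obtain ⟨r, hr⟩ := QuotientGroup.mk_surjective v.toMul
    exact ⟨r, hr⟩
  · intro x r r' h
    show (r' : R ⧸ Subgroup.center R) = cj R x (r : R ⧸ Subgroup.center R)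
    rw [cj_mk]
    congr 1
    apply Subtype.ext
    rw [h, MulAut.conjNormal_apply]
  · intro v' v''
    show cm3 R hcen v.toMul (v'.toMul * v''.toMul) = _
    rw [map_mul]
    rfl
  · intro v v'
    apply AddMonoidHom.ext
    intro v''
    show cm3 R hcen (v.toMul * v'.toMul) v''.toMul = _
    rw [map_mul]
    rfl

end Pool.Agent.Lib.MP_c7b0ca_fe
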