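import Pool.Agent.Lib.MP_c7b0ca_fe.FI
import Pool.Agent.Lib.MP_c7b0ca_fe.VV
import Pool.Agent.Lib.MP_c7b0ca_fe.G3
import Pool.Agent.Lib.MP_c7b0ca_fe.G4
import Pool.Agent.Lib.MP_c7b0ca_al.Quadratic

/-!
Assembly: finite commutator width.
-/

open scoped Pointwise commutatorElement

namespace Pool.Agent.Lib.MP_c7b0ca_fe

universe u

theorem main_central {G : Type u} [Group G] [Group.FG G] (R N : Subgroup G) [R.Normal] [N.Normal]
    (hRN : R ≤ N) (hN : commutator G ≤ N) (c : ℕ) (hnil : lcN N c ≤ R)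
    (htors : ∀ x ∈ N, ∃ n > 0, x ^ n ∈ R) (hcen : ⁅R, R⁆ ≤ Subgroup.center G)
    (h2 : ∀ a ∈ ⁅R, R⁆, a ^ 2 = 1) :
    ∃ J : ℕ, ∀ z ∈ ⁅R, R⁆, z ∈ (commutatorSet G) ^ J := by
  obtain ⟨V, _, _, s, rfl, rfl⟩ := exists_setup R N hRN hN hcen h2
  exact main_setup s c hnil htors

theorem map_comm_le {G G' : Type*} [Group G] [Group G'] (f : G →* G')
    (hf : Function.Surjective f) (N : Subgroup G) (hN : commutator G ≤ N) :
    commutator G' ≤ N.map f := by
  have h := Subgroup.map_mono (f := f) hN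
  rwa [commutator_def, Subgroup.map_commutator, Subgroup.map_top_of_surjective f hf,
    ← commutator_def] at h

/-- squares of central commutator elements -/
theorem sq_bounded {G : Type u} [Group G] [Group.FG G] (R : Subgroup G) [R.Normal]
    (hcen : ⁅R, R⁆ ≤ Subgroup.center G) :
    ∃ n : ℕ, ∀ z ∈ ⁅R, R⁆, z ^ 2 ∈ (commutatorSet G) ^ n := by
  classical
  obtain ⟨E, hE⟩ := (Group.fg_def.mp (inferInstance : Group.FG G))
  have hT : ∀ e ∈ E, ∀ u ∈ R, ⁅e, u⁆ ∈ commutatorSet G := fun e _ u _ => ⟨e, u, rfl⟩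
  refine ⟨E.card + E.card, fun z hz => ?_⟩
  obtain ⟨x, hx, y, hy, h⟩ := Pool.Agent.Lib.MP_c7b0ca_al.sq_mem_pow R E
    (by rw [hE]; exact le_top)
    (fun a ha k _ => (Subgroup.mem_center_iff.mp (hcen ha) k)) (commutatorSet G) hT z hz
  rw [h]
  exact cs_mul hx (cs_inv hy)

/-- the commutator subgroup of `R` is bounded if it is central -/
theorem main_central' {G : Type u} [Group G] [Group.FG G] (R N : Subgroup G) [R.Normal] [N.Normal]
    (hRN : R ≤ N) (hN : commutator G ≤ N) (c : ℕ) (hnil : lcN N c ≤ R)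
    (htors : ∀ x ∈ N, ∃ n > 0, x ^ n ∈ R) (hcen : ⁅R, R⁆ ≤ Subgroup.center G) :
    ∃ J : ℕ, ∀ z ∈ ⁅R, R⁆, z ∈ (commutatorSet G) ^ J := by
  classical
  obtain ⟨n, hn⟩ := sq_bounded R hcen
  -- the subgroup of squares
  let K : Subgroup G :=
    { carrier := {z | ∃ a ∈ ⁅R, R⁆, z = a ^ 2}
      one_mem' := ⟨1, Subgroup.one_mem _, by simp⟩
      mul_mem' := by
        rintro x y ⟨a, ha, rfl⟩ ⟨b, hb, rfl⟩
        refine ⟨a * b, Subgroup.mul_mem _ ha hb, ?_⟩
        have h : Commute a b := (Subgroup.mem_center_iff.mp (hcen hb) a)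
        exact (h.mul_pow 2).symm
      inv_mem' := by
        rintro x ⟨a, ha, rfl⟩
        exact ⟨a⁻¹, Subgroup.inv_mem _ ha, by simp⟩ }
  have hKc : K ≤ Subgroup.center G := by
    rintro x ⟨a, ha, rfl⟩
    exact Subgroup.pow_mem _ (hcen ha) 2
  have hKn : K.Normal := by
    refine ⟨fun x hx g => ?_⟩
    have h := Subgroup.mem_center_iff.mp (hKc hx) g
    rw [h, mul_inv_cancel_right]
    exact hx
  have hK : ∀ x ∈ K, x ∈ (commutatorSet G) ^ n := by
    rintro x ⟨a, ha, rfl⟩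
    exact hn a ha
  let f := QuotientGroup.mk' K
  have hf : Function.Surjective f := QuotientGroup.mk'_surjective K
  have hR' : (R.map f).Normal := Subgroup.Normal.map inferInstance f hf
  have hN' : (N.map f).Normal := Subgroup.Normal.map inferInstance f hf
  have hFG : Group.FG (G ⧸ K) := Group.fg_of_surjective hf
  have hcomm : ⁅R.map f, R.map f⁆ = (⁅R, R⁆).map f := (Subgroup.map_commutator R R f).symm
  obtain ⟨J, hJ⟩ := main_central (R.map f) (N.map f) (Subgroup.map_mono hRN)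
    (map_comm_le f hf N hN) c (by rw [← lcN_map]; exact Subgroup.map_mono hnil)
    (by
      rintro _ ⟨x, hx, rfl⟩
      obtain ⟨m, hm, h⟩ := htors x hx
      exact ⟨m, hm, by rw [← map_pow]; exact Subgroup.mem_map_of_mem f h⟩)
    (by
      rw [hcomm]
      rintro _ ⟨x, hx, rfl⟩
      rw [Subgroup.mem_center_iff]
      intro g
      obtain ⟨g, rfl⟩ := hf g
      rw [← map_mul, ← map_mul, Subgroup.mem_center_iff.mp (hcen hx) g])
    (by
      rw [hcomm]
      rintro _ ⟨x, hx, rfl⟩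
      rw [← map_pow]
      exact (QuotientGroup.eq_one_iff (x ^ 2)).mpr ⟨x, hx, rfl⟩)
  refine ⟨J + n, fun z hz => cs_lift K hK (hJ _ ?_)⟩
  rw [hcomm]
  exact Subgroup.mem_map_of_mem f hz

/-- **Main theorem.** -/
theorem finite_width {G : Type u} [Group G] [Group.FG G] (R N : Subgroup G) [R.Normal] [N.Normal]
    (hRN : R ≤ N) (hN : commutator G ≤ N) (c : ℕ) (hnil : lcN N c ≤ R)
    (htors : ∀ x ∈ N, ∃ n > 0, x ^ n ∈ R) (hmet : ⁅⁅R, R⁆, ⁅R, R⁆⁆ = ⊥) :
    ∃ n : ℕ, ∀ x ∈ commutator G, x ∈ (commutatorSet G) ^ n := by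
  classical
  -- Step 1: the commutator subgroup of `R` is bounded
  have hA : ∃ n : ℕ, ∀ z ∈ ⁅R, R⁆, z ∈ (commutatorSet G) ^ n := by
    obtain ⟨n1, hn1⟩ := comm_top_bounded ⁅R, R⁆ hmet
    let K : Subgroup G := ⁅(⊤ : Subgroup G), ⁅R, R⁆⁆
    let f := QuotientGroup.mk' K
    have hf : Function.Surjective f := QuotientGroup.mk'_surjective K
    have hR' : (R.map f).Normal := Subgroup.Normal.map inferInstance f hf
    have hN' : (N.map f).Normal := Subgroup.Normal.map inferInstance f hf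
    have hFG : Group.FG (G ⧸ K) := Group.fg_of_surjective hf
    have hcomm : ⁅R.map f, R.map f⁆ = (⁅R, R⁆).map f := (Subgroup.map_commutator R R f).symm
    obtain ⟨J, hJ⟩ := main_central' (R.map f) (N.map f) (Subgroup.map_mono hRN)
      (map_comm_le f hf N hN) c (by rw [← lcN_map]; exact Subgroup.map_mono hnil)
      (by
        rintro _ ⟨x, hx, rfl⟩
        obtain ⟨m, hm, h⟩ := htors x hx
        exact ⟨m, hm, by rw [← map_pow]; exact Subgroup.mem_map_of_mem f h⟩)
      (by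
        rw [hcomm]
        rintro _ ⟨x, hx, rfl⟩
        rw [Subgroup.mem_center_iff]
        intro g
        obtain ⟨g, rfl⟩ := hf g
        have h1 : ⁅g, x⁆ ∈ K := Subgroup.commutator_mem_commutator (Subgroup.mem_top g) hx
        have h2 : f ⁅g, x⁆ = 1 := (QuotientGroup.eq_one_iff _).mpr h1
        rw [map_commutatorElement] at h2
        exact commutatorElement_eq_one_iff_mul_comm.mp h2)
    refine ⟨J + n1, fun z hz => cs_lift K hn1 (hJ _ ?_)⟩
    rw [hcomm]
    exact Subgroup.mem_map_of_mem f hz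
  obtain ⟨nA, hA⟩ := hA
  -- Step 2: the quotient by it
  let A : Subgroup G := ⁅R, R⁆
  let f := QuotientGroup.mk' A
  have hf : Function.Surjective f := QuotientGroup.mk'_surjective A
  have hR' : (R.map f).Normal := Subgroup.Normal.map inferInstance f hf
  have hN' : (N.map f).Normal := Subgroup.Normal.map inferInstance f hf
  have hFG : Group.FG (G ⧸ A) := Group.fg_of_surjective hf
  have hab : ⁅R.map f, R.map f⁆ = ⊥ := by
    rw [← Subgroup.map_commutator R R f, Subgroup.map_eq_bot_iff, QuotientGroup.ker_mk']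
  obtain ⟨n2, hn2⟩ := comm_top_bounded (R.map f) hab
  let K : Subgroup (G ⧸ A) := ⁅(⊤ : Subgroup (G ⧸ A)), R.map f⁆
  let f' := QuotientGroup.mk' K
  have hf' : Function.Surjective f' := QuotientGroup.mk'_surjective K
  have hN'' : ((N.map f).map f').Normal := Subgroup.Normal.map hN' f' hf'
  have hFG' : Group.FG ((G ⧸ A) ⧸ K) := Group.fg_of_surjective hf'
  obtain ⟨n3, hn3⟩ := nilpotent_by_abelian (c + 1) ((G ⧸ A) ⧸ K) ((N.map f).map f')
    (map_comm_le f' hf' _ (map_comm_le f hf N hN)) (by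
      rw [← lcN_map, Subgroup.map_eq_bot_iff, QuotientGroup.ker_mk']
      show ⁅lcN (N.map f) c, N.map f⁆ ≤ K
      rw [Subgroup.commutator_comm]
      exact Subgroup.commutator_mono le_top (by rw [← lcN_map]; exact Subgroup.map_mono hnil))
  have hlift : ∀ {H H' : Type u} [Group H] [Group H'] (φ : H →* H') (x : H), x ∈ commutator H →
      φ x ∈ commutator H' := by
    intro H H' _ _ φ x hx
    have h1 : φ x ∈ (commutator H).map φ := Subgroup.mem_map_of_mem φ hx
    rw [commutator_def, Subgroup.map_commutator] at h1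
    exact Subgroup.commutator_mono le_top le_top h1
  refine ⟨n3 + n2 + nA, fun x hx => ?_⟩
  refine cs_lift A hA (cs_lift K hn2 (hn3 _ ?_))
  exact hlift f' _ (hlift f _ hx)

end Pool.Agent.Lib.MP_c7b0ca_fe
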