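import Pool.Agent.Lib.MP_c7b0ca_fe.DL
import Pool.Agent.Lib.MP_c7b0ca_fe.TT

/-!
ROW GD: good coefficients.

GD1. `w, w' ∈ LL` balanced, `u ∈ T 2`. `comp h₁ (D w j) ∈ Sp (T L0 ∩ coset h₁)` has augmentation 0
(`Bal`). If the coset `h₁` contains no element of `T L0` the component is 0. Otherwise (`exists_pos`)
`h₁ = q_{y1}`, `|y1 i| ≤ L0`, and by `factor` the component is `δ₁ * o q_{y1}`,
`δ₁ ∈ Dl (Nb (L0 + d L0)) 1`. Same for `h₂`. Let `|z i| ≤ 2` with `u = q_z` in `G/N`, `y = y2 + z - y1`: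
`|y i| ≤ 2 L0 + 2 = L`. With `t = q_{y1}⁻¹`, `t' = t u`:
`St(δ₁ o q_{y1}) * o u * δ₂ * o q_{y2} = (o t * St δ₁ * o t⁻¹) * (o t' * δ₂ * o t'⁻¹) * o n * o q_y`,
`n = t' q_{y2} q_y⁻¹ ∈ N`. All radii are at most `M = 10 (d+1) (L0+1)`; the product of the first three
factors is in `Dl (Nb M) 2 ≤ Dl (Nb M) 1`.
GD2. `o q_y + o q_y⁻¹ = (1 + o (q_y⁻¹ * q_y⁻¹)) * o q_y` with `q_y⁻² ∈ N ∩ T (2 d L0)`, `y = P.y h`.
GD3. `comp h (η w) + aug(..) • o q_y` has augmentation 0 and is supported in `T (max ..)` of the coset: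
`factor` with `t = q_y` (`t = 1 = q_0` for `h = 1`).
-/

open scoped Pointwise commutatorElement

namespace Pool.Agent.Lib.MP_c7b0ca_fe

variable {G V : Type*} [Group G] [AddCommGroup V] [Module (ZMod 2) V] {s : Setup G V}

private theorem zm (c : ZMod 2) : c = 0 ∨ c = 1 := by
  revert c
  decide

private theorem smul_add_mem {S : AddSubgroup (SA G)} (c : ZMod 2) {x : SA G} (hx : x ∈ S) :
    c • x ∈ S := by
  rcases zm c with rfl | rfl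
  · rw [zero_smul]; exact S.zero_mem
  · rw [one_smul]; exact hx

private theorem mk_Gd (P : Par s) {m : SA G} (hm : m ∈ Dl (s.Nb P.M) 1) {y : Fin s.d → ℤ}
    (hy : ∀ i, |y i| ≤ (P.L : ℤ)) : m * o (s.q y) ∈ P.Gd :=
  AddSubgroup.subset_closure ⟨m, hm, y, hy, rfl⟩

private theorem conj_bd (P : Par s) {t : G} {a : ℕ} (ht : t ∈ s.T a) {m k : ℕ} {δ : SA G}
    (hδ : δ ∈ Dl (s.Nb m) k) (hM : m + 2 * a ≤ P.M) : o t * δ * o t⁻¹ ∈ Dl (s.Nb P.M) k :=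
  conj_mem_Dl t (fun y hy => s.Nb_mono hM (s.conj_mem_Nb ht hy)) hδ

/-- the shape of the components of the derivatives -/
private theorem comp_shape (P : Par s) {w : List (Fin s.d)} (hw : w ∈ P.LL) (j : Fin s.d)
    (h : G ⧸ s.N) : comp s.N h (s.D w j) = 0 ∨ ∃ y : Fin s.d → ℤ, (∀ i, |y i| ≤ (P.L0 : ℤ)) ∧
      ∃ δ ∈ Dl (s.Nb (P.L0 + s.d * P.L0)) 1, comp s.N h (s.D w j) = δ * o (s.q y) := by
  have h1 : comp s.N h (s.D w j) ∈ Sp (s.T P.L0 ∩ {x | (x : G ⧸ s.N) = h}) :=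
    Sp_mono (Set.inter_subset_inter_left _ (s.T_mono (P.len w hw)))
      (comp_mem_Sp s.N h (s.D_mem_Sp w j))
  have h2 : aug (comp s.N h (s.D w j)) = 0 := P.bal w hw j h
  by_cases hex : ∃ t ∈ s.T P.L0, (t : G ⧸ s.N) = h
  · right
    obtain ⟨t, ht, hth⟩ := hex
    obtain ⟨y, hy, hyt⟩ := s.exists_pos ht
    refine ⟨y, hy, ?_⟩
    rw [← hth, ← hyt] at h1 h2 ⊢
    exact s.factor (s.q_mem_T hy) h1 h2
  · left
    have h3 : s.T P.L0 ∩ {x | (x : G ⧸ s.N) = h} = ∅ := by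
      ext x
      constructor
      · rintro ⟨hx1, hx2⟩
        exact absurd ⟨x, hx1, hx2⟩ hex
      · intro hx
        exact absurd hx (Set.notMem_empty x)
    rw [h3] at h1
    have h4 : Sp (∅ : Set G) = ⊥ := by
      unfold Sp
      simp
    rw [h4, Submodule.mem_bot] at h1
    exact h1

theorem gd1 (P : Par s) {w w' : List (Fin s.d)} (hw : w ∈ P.LL) (hw' : w' ∈ P.LL)
    (j l : Fin s.d) (h₁ h₂ : G ⧸ s.N) {u : G} (hu : u ∈ s.T 2) :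
    St (comp s.N h₁ (s.D w j)) * o u * comp s.N h₂ (s.D w' l) ∈ P.Gd := by
  rcases comp_shape P hw j h₁ with h | ⟨y1, hy1, δ₁, hδ₁, h⟩
  · rw [h, map_zero, zero_mul, zero_mul]
    exact P.Gd.zero_mem
  rcases comp_shape P hw' l h₂ with h' | ⟨y2, hy2, δ₂, hδ₂, h'⟩
  · rw [h', mul_zero]
    exact P.Gd.zero_mem
  rw [h, h']
  obtain ⟨z, hz, hzu⟩ := s.exists_pos hu
  obtain ⟨y, hydef⟩ : ∃ y : Fin s.d → ℤ, y = y2 + z - y1 := ⟨_, rfl⟩
  have hyL : ∀ i, |y i| ≤ (P.L : ℤ) := by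
    intro i
    have a1 := abs_le.1 (hy1 i)
    have a2 := abs_le.1 (hy2 i)
    have a3 := abs_le.1 (hz i)
    rw [hydef]
    simp only [Pi.sub_apply, Pi.add_apply, Par.L]
    rw [abs_le]
    push_cast
    push_cast at a3
    constructor <;> linarith
  have hyL' : ∀ i, |y i| ≤ ((2 * P.L0 + 2 : ℕ) : ℤ) := hyL
  have t1 : (s.q y1)⁻¹ ∈ s.T (s.d * P.L0) := s.inv_mem_T (s.q_mem_T hy1)
  have t2 : (s.q y1)⁻¹ * u ∈ s.T (s.d * P.L0 + 2) := s.mul_mem_T t1 hu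
  have t3 : (s.q y1)⁻¹ * u * s.q y2 * (s.q y)⁻¹
      ∈ s.T (s.d * P.L0 + 2 + s.d * P.L0 + s.d * (2 * P.L0 + 2)) :=
    s.mul_mem_T (s.mul_mem_T t2 (s.q_mem_T hy2)) (s.inv_mem_T (s.q_mem_T hyL'))
  have hMd : P.M = 10 * (s.d * P.L0) + 10 * s.d + 10 * P.L0 + 10 := by
    unfold Par.M; ring
  have hn : (s.q y1)⁻¹ * u * s.q y2 * (s.q y)⁻¹ ∈ s.N := by
    rw [← QuotientGroup.eq_one_iff]
    have e1 : (s.q y : G ⧸ s.N) = (s.q y2 : G ⧸ s.N) * (u : G ⧸ s.N) * (s.q y1 : G ⧸ s.N)⁻¹ := by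
      rw [hydef, sub_eq_add_neg, s.q_add, s.q_add, s.q_neg, hzu]
    show ((s.q y1 : G ⧸ s.N))⁻¹ * (u : G ⧸ s.N) * (s.q y2 : G ⧸ s.N) * ((s.q y : G ⧸ s.N))⁻¹ = 1
    rw [e1, mul_inv_eq_one, mul_assoc, s.quot_comm, s.quot_comm (u : G ⧸ s.N)]
  have hnM : (s.q y1)⁻¹ * u * s.q y2 * (s.q y)⁻¹ ∈ s.Nb P.M := by
    refine s.Nb_mono ?_ (s.mem_Nb hn t3)
    rw [hMd]
    nlinarith
  have hm : (o (s.q y1)⁻¹ * St δ₁ * o ((s.q y1)⁻¹)⁻¹) *
      (o ((s.q y1)⁻¹ * u) * δ₂ * o ((s.q y1)⁻¹ * u)⁻¹) *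
      o ((s.q y1)⁻¹ * u * s.q y2 * (s.q y)⁻¹) ∈ Dl (s.Nb P.M) 1 := by
    refine Dl_anti _ (by norm_num : 1 ≤ 1 + 1 + 0) ?_
    refine Dl_mul (Dl_mul ?_ ?_) (o_mem_Dl hnM)
    · refine conj_bd P t1 (St_mem_Dl hδ₁) ?_
      rw [hMd]
      nlinarith
    · refine conj_bd P t2 hδ₂ ?_
      rw [hMd]
      nlinarith
  have key : St (δ₁ * o (s.q y1)) * o u * (δ₂ * o (s.q y2))
      = (o (s.q y1)⁻¹ * St δ₁ * o ((s.q y1)⁻¹)⁻¹) *
      (o ((s.q y1)⁻¹ * u) * δ₂ * o ((s.q y1)⁻¹ * u)⁻¹) *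
      o ((s.q y1)⁻¹ * u * s.q y2 * (s.q y)⁻¹) * o (s.q y) := by
    rw [St_mul, St_o]
    simp only [mul_assoc]
    rw [← map_mul (o : G →* SA G) _ (s.q y)]
    rw [← map_mul (o : G →* SA G) ((s.q y1)⁻¹ * u)⁻¹]
    rw [← mul_assoc (o ((s.q y1)⁻¹)⁻¹) (o ((s.q y1)⁻¹ * u)), ← map_mul (o : G →* SA G)]
    congr 2
    have e1 : ((s.q y1)⁻¹)⁻¹ * ((s.q y1)⁻¹ * u) = u := by group
    have e2 : ((s.q y1)⁻¹ * u)⁻¹ * ((s.q y1)⁻¹ * (u * (s.q y2 * (s.q y)⁻¹)) * s.q y) = s.q y2 := by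
      group
    rw [e1, e2]
  rw [key]
  exact mk_Gd P hm hyL

/-- the whole derivative instead of its components, `θ` instead of a group element -/
theorem gd1' (P : Par s) {w w' : List (Fin s.d)} (hw : w ∈ P.LL) (hw' : w' ∈ P.LL)
    (j l : Fin s.d) : St (s.D w j) * s.θ j l * s.D w' l ∈ P.Gd := by
  obtain ⟨F, hF⟩ := sum_comp s.N (s.D w j)
  obtain ⟨F', hF'⟩ := sum_comp s.N (s.D w' l)
  have hu : ∀ u ∈ s.T 2, St (s.D w j) * o u * s.D w' l ∈ P.Gd := by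
    intro u hu
    rw [← hF F le_rfl, ← hF' F' le_rfl, map_sum, Finset.sum_mul, Finset.sum_mul]
    refine P.Gd.sum_mem fun h₁ _ => ?_
    rw [Finset.mul_sum]
    exact P.Gd.sum_mem fun h₂ _ => gd1 P hw hw' j l h₁ h₂ hu
  have hθ := s.theta_mem_Sp j l
  unfold Sp at hθ
  generalize s.θ j l = θ at hθ ⊢
  induction hθ using Submodule.span_induction with
  | mem x hx =>
    obtain ⟨u, hu', rfl⟩ := hx
    exact hu u hu'
  | zero => rw [mul_zero, zero_mul]; exact P.Gd.zero_mem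
  | add x y _ _ hx hy => rw [mul_add, add_mul]; exact P.Gd.add_mem hx hy
  | smul c x _ hx => rw [mul_smul_comm, smul_mul_assoc]; exact smul_add_mem c hx

private theorem Sp_comp {m : SA G} (hm : m ∈ Sp (s.N : Set G)) (k : G ⧸ s.N) :
    comp s.N k m = m ∨ comp s.N k m = 0 := by
  classical
  by_cases hk : k = 1
  · left
    unfold Sp at hm
    induction hm using Submodule.span_induction with
    | mem x hx =>
      obtain ⟨u, hu', rfl⟩ := hx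
      have hu1 : (u : G ⧸ s.N) = k := by rw [hk, QuotientGroup.eq_one_iff]; exact hu'
      rw [comp_o, if_pos hu1]
    | zero => rw [map_zero]
    | add x y _ _ hx hy => rw [map_add, hx, hy]
    | smul c x _ hx =>
      rcases zm c with rfl | rfl
      · rw [zero_smul, map_zero]
      · rw [one_smul]; exact hx
  · right
    unfold Sp at hm
    induction hm using Submodule.span_induction with
    | mem x hx =>
      obtain ⟨u, hu', rfl⟩ := hx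
      have hu1 : (u : G ⧸ s.N) = 1 := by rw [QuotientGroup.eq_one_iff]; exact hu'
      rw [comp_o, if_neg]
      rw [hu1]
      exact fun h => hk h.symm
    | zero => rw [map_zero]
    | add x y _ _ hx hy => rw [map_add, hx, hy, add_zero]
    | smul c x _ hx =>
      rcases zm c with rfl | rfl
      · rw [zero_smul, map_zero]
      · rw [one_smul]; exact hx

private theorem Dl_Sp {K : Subgroup G} {n : ℕ} {m : SA G} (hm : m ∈ Dl K n) :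
    m ∈ Sp (K : Set G) := by
  have h := Dl_anti K (Nat.zero_le n) hm
  unfold Dl at h
  rwa [pow_zero, one_mul] at h

private theorem comp_Gd (P : Par s) {c : SA G} (hc : c ∈ P.Gd) (h : G ⧸ s.N) :
    comp s.N h c ∈ P.Gd := by
  unfold Par.Gd at hc
  induction hc using AddSubgroup.closure_induction with
  | mem x hx =>
    obtain ⟨m, hm, y, hy, rfl⟩ := hx
    rw [comp_mul_o]
    have hmN : m ∈ Sp (s.N : Set G) := Sp_mono (s.Nb_le P.M) (Dl_Sp hm)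
    rcases Sp_comp hmN (h * (s.q y : G ⧸ s.N)⁻¹) with h1 | h1
    · rw [h1]; exact mk_Gd P hm hy
    · rw [h1, zero_mul]; exact P.Gd.zero_mem
  | zero => rw [map_zero]; exact P.Gd.zero_mem
  | add x y _ _ hx hy => rw [map_add]; exact P.Gd.add_mem hx hy
  | neg x _ hx => rw [map_neg]; exact P.Gd.neg_mem hx

/-- components of good products are good -/
theorem gd1'' (P : Par s) {w w' : List (Fin s.d)} (hw : w ∈ P.LL) (hw' : w' ∈ P.LL)
    (j l : Fin s.d) (h : G ⧸ s.N) : comp s.N h (St (s.D w j) * s.θ j l * s.D w' l) ∈ P.Gd :=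
  comp_Gd P (gd1' P hw hw' j l) h

private theorem L0_le_L (P : Par s) {y : Fin s.d → ℤ} (hy : ∀ i, |y i| ≤ (P.L0 : ℤ)) (i : Fin s.d) :
    |y i| ≤ (P.L : ℤ) := by
  refine (hy i).trans ?_
  unfold Par.L
  push_cast
  have : (0 : ℤ) ≤ P.L0 := Int.natCast_nonneg _
  linarith

theorem gd2 (P : Par s) {h : G ⧸ s.N} (hh : h ∈ P.I) :
    o (s.q (P.y h)) + o (s.q (P.y h))⁻¹ ∈ P.Gd := by
  have hy := P.ylen h hh
  have hq := P.hy h hh
  have hh2 := ((P.mI h).1 hh).2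
  have t1 : (s.q (P.y h))⁻¹ * (s.q (P.y h))⁻¹ ∈ s.T (s.d * P.L0 + s.d * P.L0) :=
    s.mul_mem_T (s.inv_mem_T (s.q_mem_T hy)) (s.inv_mem_T (s.q_mem_T hy))
  have hn : (s.q (P.y h))⁻¹ * (s.q (P.y h))⁻¹ ∈ s.N := by
    rw [← QuotientGroup.eq_one_iff]
    show ((s.q (P.y h) : G ⧸ s.N))⁻¹ * ((s.q (P.y h) : G ⧸ s.N))⁻¹ = 1
    rw [hq, ← mul_inv_rev, hh2, inv_one]
  have hMd : P.M = 10 * (s.d * P.L0) + 10 * s.d + 10 * P.L0 + 10 := by
    unfold Par.M; ring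
  have hnM : (s.q (P.y h))⁻¹ * (s.q (P.y h))⁻¹ ∈ s.Nb P.M := by
    refine s.Nb_mono ?_ (s.mem_Nb hn t1)
    rw [hMd]
    nlinarith
  have key : o (s.q (P.y h)) + o (s.q (P.y h))⁻¹
      = (1 + o ((s.q (P.y h))⁻¹ * (s.q (P.y h))⁻¹)) * o (s.q (P.y h)) := by
    rw [add_mul, one_mul, ← map_mul (o : G →* SA G)]
    congr 2
    group
  rw [key]
  exact mk_Gd P (one_add_mem_Dl hnM) (L0_le_L P hy)

private theorem gd3_aux (P : Par s) {w : List (Fin s.d)} (hw : w ∈ P.LL) (h : G ⧸ s.N)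
    {y : Fin s.d → ℤ} (hy : ∀ i, |y i| ≤ (P.L0 : ℤ)) (hyh : (s.q y : G ⧸ s.N) = h) :
    comp s.N h (s.η w) + ε s h w • o (s.q y) ∈ P.Gd := by
  have hMd : P.M = 10 * (s.d * P.L0) + 10 * s.d + 10 * P.L0 + 10 := by
    unfold Par.M; ring
  have hq := s.q_mem_T hy
  have hlen := P.len w hw
  obtain ⟨R, hR⟩ : ∃ R, R = 2 * P.L0 + 2 + s.d * P.L0 := ⟨_, rfl⟩
  have h1 : comp s.N h (s.η w) ∈ Sp (s.T R ∩ {x | (x : G ⧸ s.N) = (s.q y : G ⧸ s.N)}) := by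
    rw [hyh]
    refine Sp_mono (Set.inter_subset_inter_left _ (s.T_mono ?_))
      (comp_mem_Sp s.N h (s.eta_mem_Sp w))
    rw [hR]
    have : 0 ≤ s.d * P.L0 := Nat.zero_le _
    omega
  have h2 : o (s.q y) ∈ Sp (s.T R ∩ {x | (x : G ⧸ s.N) = (s.q y : G ⧸ s.N)}) := by
    refine Submodule.subset_span ⟨s.q y, ⟨s.T_mono ?_ hq, rfl⟩, rfl⟩
    rw [hR]
    omega
  have h3 : comp s.N h (s.η w) + ε s h w • o (s.q y)
      ∈ Sp (s.T R ∩ {x | (x : G ⧸ s.N) = (s.q y : G ⧸ s.N)}) :=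
    Submodule.add_mem _ h1 (Submodule.smul_mem _ _ h2)
  have h4 : aug (comp s.N h (s.η w) + ε s h w • o (s.q y)) = 0 := by
    rw [map_add, map_smul, aug_o, smul_eq_mul, mul_one]
    unfold ε
    generalize (aug (comp s.N h (s.η w)) : ZMod 2) = c
    revert c
    decide
  obtain ⟨δ, hδ, he⟩ := s.factor hq h3 h4
  rw [he]
  refine mk_Gd P (Dl_mono (s.Nb_mono ?_) 1 hδ) (L0_le_L P hy)
  rw [hMd, hR]
  nlinarith

theorem gd3 (P : Par s) {w : List (Fin s.d)} (hw : w ∈ P.LL) {h : G ⧸ s.N} (hh : h ∈ P.I) :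
    comp s.N h (s.η w) + ε s h w • o (s.q (P.y h)) ∈ P.Gd :=
  gd3_aux P hw h (P.ylen h hh) (P.hy h hh)

theorem gd3' (P : Par s) {w : List (Fin s.d)} (hw : w ∈ P.LL) :
    comp s.N 1 (s.η w) + ε s 1 w • (1 : SA G) ∈ P.Gd := by
  have h := gd3_aux P hw 1 (y := 0) (fun i => by simp) (by rw [s.q_zero]; rfl)
  rw [s.q_zero, map_one] at h
  exact h

end Pool.Agent.Lib.MP_c7b0ca_fe
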