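import Pool.Agent.Lib.MP_c7b0ca_fe.B0

/-!
ROW ID: the identity `η(w) + η(w)* = Σ D_j(w)* θ_{jl} D_l(w) + 1 + ev(w)⁻¹` (characteristic 2).

PROOF. Both by induction on `w`; `SA_two : a + a = 0`.
`sum_D`: for `x :: w` the sum changes by `(1 + g_x) ev w = ev w + g_x ev w`.
`eta_add_St`: put `W = o (ev w)`, `W' = o (ev w)⁻¹`, `h = g_x`. Facts about `θ`:
 `θ_{xj} + St θ_{jx} = (1 + o h⁻¹) (1 + o g_j)` for all `j` (cases `j < x`, `j = x`, `x < j`).
 The step: `η` changes by `Σ_j St(D_j) θ_{jx} W`, so the left side changes by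
 `Σ_j St(D_j) θ_{jx} W + Σ_j W' St(θ_{jx}) D_j`. The double sum changes by
 `Σ_j St(D_j) θ_{jx} W + Σ_l W' θ_{xl} D_l + W' θ_{xx} W`, and `1 + W'` becomes `1 + W' o h⁻¹`.
 The difference of both changes is
 `Σ_j W' (θ_{xj} + St θ_{jx}) D_j + W' θ_{xx} W + W' + W' o h⁻¹`
 `= W' (1 + o h⁻¹) (1 + W) + W' (1 + o h⁻¹) W + W' + W' o h⁻¹ = 0` by `sum_D`.
-/

open scoped Pointwise commutatorElement

namespace Pool.Agent.Lib.MP_c7b0ca_fe

namespace Setup

variable {G V : Type*} [Group G] [AddCommGroup V] [Module (ZMod 2) V] (s : Setup G V)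

theorem sum_D (w : List (Fin s.d)) : ∑ j, (1 + o (s.g j)) * s.D w j = 1 + o (s.ev w) := by
  induction w with
  | nil => simp [D, SA_two]
  | cons x w ih =>
    simp only [D, mul_add, Finset.sum_add_distrib, ih, mul_ite, mul_zero, Finset.sum_ite_eq',
      Finset.mem_univ, if_true, ev_cons, map_mul]
    rw [add_mul, one_mul]
    calc (1 : SA G) + o (s.ev w) + (o (s.ev w) + o (s.g x) * o (s.ev w))
        = 1 + o (s.g x) * o (s.ev w) + (o (s.ev w) + o (s.ev w)) := by abel
      _ = _ := by rw [SA_two, add_zero]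

private theorem id_θ_St (x j : Fin s.d) :
    s.θ x j + St (s.θ j x) = (1 + o (s.g x)⁻¹) * (1 + o (s.g j)) := by
  rcases lt_trichotomy j x with h | h | h
  · simp only [θ, if_pos h, if_neg (not_lt.mpr h.le), if_neg (ne_of_gt h), map_zero, add_zero]
  · subst h
    simp only [θ, lt_irrefl, if_false, if_true, map_add, St_one, St_o, inv_inv, mul_add, add_mul,
      mul_one, one_mul, ← map_mul, inv_mul_cancel, map_one]
    abel
  · simp only [θ, if_pos h, if_neg (not_lt.mpr h.le), if_neg (ne_of_gt h), zero_add, St_mul,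
      map_add, St_one, St_o, inv_inv]

theorem eta_add_St (w : List (Fin s.d)) :
    s.η w + St (s.η w) =
      (∑ j, ∑ l, St (s.D w j) * s.θ j l * s.D w l) + (1 + o (s.ev w)⁻¹) := by
  induction w with
  | nil => simp [D, η, SA_two]
  | cons x w ih =>
    have hS : ∑ j, ∑ l, St (s.D (x :: w) j) * s.θ j l * s.D (x :: w) l =
        ∑ j, ∑ l, St (s.D w j) * s.θ j l * s.D w l +
        ∑ j, St (s.D w j) * s.θ j x * o (s.ev w) +
        ∑ l, o (s.ev w)⁻¹ * s.θ x l * s.D w l +
        o (s.ev w)⁻¹ * s.θ x x * o (s.ev w) := by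
      have h1 : ∀ j l, St (s.D (x :: w) j) * s.θ j l * s.D (x :: w) l =
          St (s.D w j) * s.θ j l * s.D w l +
          (if l = x then St (s.D w j) * s.θ j l * o (s.ev w) else 0) +
          (if j = x then o (s.ev w)⁻¹ * s.θ j l * s.D w l else 0) +
          (if j = x then (if l = x then o (s.ev w)⁻¹ * s.θ j l * o (s.ev w) else 0) else 0) := by
        intro j l
        simp only [D]
        by_cases hj : j = x <;> by_cases hl : l = x
        · simp only [if_pos hj, if_pos hl, map_add, St_o, mul_add, add_mul]; abel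
        · simp only [if_pos hj, if_neg hl, map_add, St_o, mul_add, add_mul, add_zero]
        · simp only [if_neg hj, if_pos hl, map_add, St_o, mul_add, add_mul, add_zero]
        · simp only [if_neg hj, if_neg hl, add_zero]
      simp only [h1, Finset.sum_add_distrib, Finset.sum_ite_eq', Finset.mem_univ, if_true]
      congr 1
      · congr 1
        rw [Finset.sum_comm]
        simp
      · rw [Finset.sum_comm]
        simp
    have hη : s.η (x :: w) = s.η w + ∑ j, St (s.D w j) * s.θ j x * o (s.ev w) := rfl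
    have hη' : St (s.η (x :: w)) = St (s.η w) +
        ∑ j, o (s.ev w)⁻¹ * St (s.θ j x) * s.D w j := by
      rw [hη, map_add, map_sum]
      congr 1
      refine Finset.sum_congr rfl fun j _ => ?_
      rw [St_mul, St_mul, St_St, St_o, mul_assoc]
    have hBC : ∑ j, o (s.ev w)⁻¹ * St (s.θ j x) * s.D w j +
        ∑ l, o (s.ev w)⁻¹ * s.θ x l * s.D w l =
        o (s.ev w)⁻¹ * ((1 + o (s.g x)⁻¹) * (1 + o (s.ev w))) := by
      rw [← s.sum_D w, ← Finset.sum_add_distrib, Finset.mul_sum, Finset.mul_sum]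
      refine Finset.sum_congr rfl fun j _ => ?_
      rw [← mul_assoc (1 + o (s.g x)⁻¹), ← id_θ_St]
      noncomm_ring
    have hxx : s.θ x x = 1 + o (s.g x)⁻¹ := by simp [θ]
    have hinv : (o (s.ev (x :: w))⁻¹ : SA G) = o (s.ev w)⁻¹ * o (s.g x)⁻¹ := by
      rw [ev_cons, mul_inv_rev, map_mul]
    rw [hη', hη, hS, hxx, hinv]
    generalize ∑ j, ∑ l, St (s.D w j) * s.θ j l * s.D w l = S at ih ⊢
    generalize ∑ j, St (s.D w j) * s.θ j x * o (s.ev w) = A at *
    generalize ∑ j, o (s.ev w)⁻¹ * St (s.θ j x) * s.D w j = B at *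
    generalize ∑ l, o (s.ev w)⁻¹ * s.θ x l * s.D w l = C at *
    have hB : B = o (s.ev w)⁻¹ * ((1 + o (s.g x)⁻¹) * (1 + o (s.ev w))) + C := by
      rw [← hBC, add_assoc, SA_two, add_zero]
    rw [hB]
    generalize o (s.ev w)⁻¹ = W' at *
    generalize o (s.ev w) = W at *
    generalize o (s.g x)⁻¹ = h at *
    calc s.η w + A + (St (s.η w) + (W' * ((1 + h) * (1 + W)) + C))
        = (s.η w + St (s.η w)) + A + (W' * ((1 + h) * (1 + W)) + C) := by abel
      _ = (S + (1 + W')) + A + (W' * ((1 + h) * (1 + W)) + C) := by rw [ih]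
      _ = S + A + C + W' * (1 + h) * W + (1 + W' * h) + (W' + W') := by noncomm_ring
      _ = _ := by rw [SA_two, add_zero]

end Setup

end Pool.Agent.Lib.MP_c7b0ca_fe
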