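import Pool.Agent.Lib.MP_c7b0ca_fe.Defs

/-!
ROW N1: nilpotency of the augmentation ideal of a nilpotent 2-group of finite exponent, with a bound
which is polynomial in the number of generators.

PROOF. Induction on `c`, for all `K`, `U`. `c = 0`: `K` is trivial, `π x + 1 = 1 + 1 = 0`, the length is at
least `1`. `c + 1`: `Z = lcN ⊤ c` (`lcN ⊤ (c+1) = ⁅Z, ⊤⁆ = ⊥`, so `Z` is central).
(1) `Z` is generated by at most `(D+1)^(c+1)` elements: by induction on `i`,
 `lcN ⊤ i = closure X_i ⊔ lcN ⊤ (i+1)` with `card X_i ≤ D^(i+1)` (the commutators `⁅x, y⁆`, `x ∈ X_{i-1}`, `y ∈ X`: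
 modulo `lcN ⊤ (i+1)` the commutator is bimultiplicative on `lcN ⊤ (i-1) × ⊤`).
(2) `U₁ = span {π z u + u : z ∈ Z, u}` is `K`-invariant; the quotient group `K ⧸ Z` acts on `U ⧸ U₁`, is
 generated by `≤ D` elements, has `lcN ⊤ c = ⊥` and exponent dividing `2^a`. So every product of
 `n₁ = (2^a (D+1)^c)^c` factors `π x + 1` maps `U` into `U₁`.
(3) `Z` is central, so by (2) a product of `n₁ * k` factors maps `U` into the span of all
 `∏_{i<k} (π z_i + 1) u`, `z_i ∈ Z`. (Induction on `k`; alternatively apply (2) to the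
 subrepresentations.) `π(z z') + 1 = (π z + 1) π z' + (π z' + 1)`: one may take the `z_i` in the generating
 set of `Z`; they commute and `(π z + 1)^(2^a) = π (z^(2^a)) + 1 = 0` (char 2, Frobenius, `add_pow_char_pow` in the
 commutative subalgebra or `Commute.add_pow_..`). So this vanishes for `k = 2^a (D+1)^(c+1)` (pigeonhole).
(4) `n₁ * k ≤ (2^a (D+1)^(c+1))^(c+1)`.
Alternatively one can work in the group algebra of `K`.
-/

open scoped Pointwise commutatorElement

namespace Pool.Agent.Lib.MP_c7b0ca_fe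

/-! ### group theory -/

private theorem n1_normal {K : Type*} [Group K] (i : ℕ) : (lcN (⊤ : Subgroup K) i).Normal := by
  induction i with
  | zero => exact inferInstanceAs (⊤ : Subgroup K).Normal
  | succ i ih =>
    change (⁅lcN (⊤ : Subgroup K) i, ⊤⁆ : Subgroup K).Normal
    infer_instance

private theorem n1_map {K K' : Type*} [Group K] [Group K'] (f : K →* K')
    (hf : Function.Surjective f) (i : ℕ) :
    lcN (⊤ : Subgroup K') i = (lcN (⊤ : Subgroup K) i).map f := by
  induction i with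
  | zero => exact (Subgroup.map_top_of_surjective f hf).symm
  | succ i ih =>
    change ⁅lcN (⊤ : Subgroup K') i, ⊤⁆ = (⁅lcN (⊤ : Subgroup K) i, ⊤⁆ : Subgroup K).map f
    rw [Subgroup.map_commutator, ih, Subgroup.map_top_of_surjective f hf]

private theorem n1_comm_mem {K : Type*} [Group K] {i : ℕ} {u : K}
    (hu : u ∈ lcN (⊤ : Subgroup K) i) (v : K) : ⁅u, v⁆ ∈ lcN (⊤ : Subgroup K) (i + 1) :=
  Subgroup.commutator_mem_commutator hu (Subgroup.mem_top v)

private theorem n1_comm_mem' {K : Type*} [Group K] {i : ℕ} {u : K}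
    (hu : u ∈ lcN (⊤ : Subgroup K) i) (v : K) : ⁅v, u⁆ ∈ lcN (⊤ : Subgroup K) (i + 1) := by
  rw [← commutatorElement_inv]
  exact Subgroup.inv_mem _ (n1_comm_mem hu v)

private theorem n1_gen {K : Type*} [Group K] (X : Finset K)
    (hX : Subgroup.closure (X : Set K) = ⊤) (i : ℕ) :
    ∃ Y : Finset K, Y.card ≤ X.card ^ (i + 1) ∧ (∀ y ∈ Y, y ∈ lcN (⊤ : Subgroup K) i) ∧
      lcN (⊤ : Subgroup K) i ≤ Subgroup.closure (Y : Set K) ⊔ lcN (⊤ : Subgroup K) (i + 1) := by
  classical
  induction i with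
  | zero =>
    refine ⟨X, by simp, fun y _ => Subgroup.mem_top y, ?_⟩
    rw [hX]
    exact le_top.trans le_sup_left
  | succ i ih =>
    obtain ⟨Y, hY1, hY2, hY3⟩ := ih
    refine ⟨Finset.image₂ (fun y x => ⁅y, x⁆) Y X, ?_, ?_, ?_⟩
    · refine (Finset.card_image₂_le _ _ _).trans ?_
      rw [pow_succ X.card (i + 1)]
      exact Nat.mul_le_mul_right _ hY1
    · intro z hz
      obtain ⟨y, hy, x, hx, rfl⟩ := Finset.mem_image₂.1 hz
      exact n1_comm_mem (hY2 y hy) x
    · obtain ⟨H, hH⟩ : ∃ H : Subgroup K, H = Subgroup.closure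
        ((Finset.image₂ (fun y x => ⁅y, x⁆) Y X : Finset K) : Set K) ⊔
          lcN (⊤ : Subgroup K) (i + 1 + 1) := ⟨_, rfl⟩
      rw [← hH]
      have hH2 : lcN (⊤ : Subgroup K) (i + 1 + 1) ≤ H := hH ▸ le_sup_right
      have hH1 : ∀ y ∈ Y, ∀ x ∈ X, ⁅y, x⁆ ∈ H := by
        intro y hy x hx
        rw [hH]
        refine le_sup_left (α := Subgroup K) (Subgroup.subset_closure ?_)
        exact Finset.mem_coe.2 (Finset.mem_image₂_of_mem hy hx)
      -- closure in the first variable
      have h1 : ∀ x ∈ X, ∀ u ∈ lcN (⊤ : Subgroup K) i, ⁅u, x⁆ ∈ H := by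
        intro x hx
        obtain ⟨C, hC⟩ : ∃ C : Subgroup K, ∀ u, u ∈ C ↔ u ∈ lcN (⊤ : Subgroup K) i ∧ ⁅u, x⁆ ∈ H := by
          refine ⟨{ carrier := {u | u ∈ lcN (⊤ : Subgroup K) i ∧ ⁅u, x⁆ ∈ H},
                    mul_mem' := ?_, one_mem' := ?_, inv_mem' := ?_ }, fun u => Iff.rfl⟩
          · rintro u u' ⟨hu, hu2⟩ ⟨hu', hu2'⟩
            refine ⟨Subgroup.mul_mem _ hu hu', ?_⟩
            have h3 : ⁅u * u', x⁆ = ⁅u, ⁅u', x⁆⁆ * ⁅u', x⁆ * ⁅u, x⁆ := by
              simp only [commutatorElement_def]; group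
            rw [h3]
            exact H.mul_mem (H.mul_mem (hH2 (n1_comm_mem' (n1_comm_mem hu' x) u)) hu2') hu2
          · exact ⟨Subgroup.one_mem _, by rw [commutatorElement_one_left]; exact H.one_mem⟩
          · rintro u ⟨hu, hu2⟩
            refine ⟨Subgroup.inv_mem _ hu, ?_⟩
            have h3 : ⁅u⁻¹, x⁆ = ⁅u⁻¹, ⁅u, x⁆⁻¹⁆ * ⁅u, x⁆⁻¹ := by
              simp only [commutatorElement_def]; group
            rw [h3]
            exact H.mul_mem (hH2 (n1_comm_mem' (Subgroup.inv_mem _ (n1_comm_mem hu x)) _))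
              (H.inv_mem hu2)
        have h4 : lcN (⊤ : Subgroup K) i ≤ C := by
          refine hY3.trans (sup_le ?_ ?_)
          · rw [Subgroup.closure_le]
            intro y hy
            exact (hC y).2 ⟨hY2 y hy, hH1 y hy x hx⟩
          · intro u hu
            refine (hC u).2 ⟨?_, hH2 (n1_comm_mem hu x)⟩
            have h5 : lcN (⊤ : Subgroup K) (i + 1) ≤ lcN (⊤ : Subgroup K) i := by
              change ⁅lcN (⊤ : Subgroup K) i, ⊤⁆ ≤ _
              have := n1_normal (K := K) i
              exact Subgroup.commutator_le_left _ _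
            exact h5 hu
        intro u hu
        exact ((hC u).1 (h4 hu)).2
      -- closure in the second variable
      have h2 : ∀ v : K, ∀ u ∈ lcN (⊤ : Subgroup K) i, ⁅u, v⁆ ∈ H := by
        intro v
        have hv : v ∈ Subgroup.closure (X : Set K) := hX ▸ Subgroup.mem_top v
        induction hv using Subgroup.closure_induction with
        | mem x hx => exact h1 x hx
        | one => intro u _; rw [commutatorElement_one_right]; exact H.one_mem
        | mul v v' _ _ hv hv' =>
          intro u hu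
          have h3 : ⁅u, v * v'⁆ = ⁅u, v⁆ * ⁅v, ⁅u, v'⁆⁆ * ⁅u, v'⁆ := by
            simp only [commutatorElement_def]; group
          rw [h3]
          exact H.mul_mem (H.mul_mem (hv u hu) (hH2 (n1_comm_mem' (n1_comm_mem hu v') v)))
            (hv' u hu)
        | inv v _ hv =>
          intro u hu
          have h3 : ⁅u, v⁻¹⁆ = ⁅v⁻¹, ⁅u, v⁆⁻¹⁆ * ⁅u, v⁆⁻¹ := by
            simp only [commutatorElement_def]; group
          rw [h3]
          exact H.mul_mem (hH2 (n1_comm_mem' (Subgroup.inv_mem _ (n1_comm_mem hu v)) _))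
            (H.inv_mem (hv u hu))
      change ⁅lcN (⊤ : Subgroup K) i, ⊤⁆ ≤ H
      rw [Subgroup.commutator_le]
      intro u hu v _
      exact h2 v u hu

/-! ### ring theory -/

private theorem n1_two {K : Type*} [Group K] (a : SA K) : a + a = 0 := by
  have h : (2 : ZMod 2) • a = a + a := two_smul _ a
  rw [← h, show (2 : ZMod 2) = 0 from by decide, zero_smul]

private theorem n1_pow {K : Type*} [Group K] (a : ℕ) (z : K) :
    (o z + 1) ^ (2 ^ a) = (o (z ^ (2 ^ a)) + 1 : SA K) := by
  induction a generalizing z with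
  | zero => simp
  | succ a ih =>
    rw [pow_succ', pow_mul, pow_mul]
    have h1 : (o z + 1) ^ 2 = (o (z ^ 2) + 1 : SA K) := by
      rw [pow_two, add_mul, mul_add, one_mul, mul_one, map_pow, pow_two]
      have h2 := n1_two (o z)
      calc o z * o z + o z + (o z + 1) = o z * o z + (o z + o z) + 1 := by abel
        _ = _ := by rw [h2, add_zero]
    rw [h1, ih]

private theorem n1_central {K : Type*} [Group K] {z : K} (hz : ∀ x : K, z * x = x * z)
    (a : SA K) : o z * a = a * o z := by
  induction a using MonoidAlgebra.induction_on with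
  | of x =>
    change o z * o x = o x * o z
    rw [← map_mul, ← map_mul, hz]
  | add a b ha hb => rw [mul_add, add_mul, ha, hb]
  | smul r a ha => rw [mul_smul_comm, smul_mul_assoc, ha]

private theorem n1_central_prod {K : Type*} [Group K] {Y : Finset K}
    (hY : ∀ y ∈ Y, ∀ x : K, y * x = x * y) (L : List K) (hL : ∀ z ∈ L, z ∈ Y) (a : SA K) :
    (L.map fun z => o z + 1).prod * a = a * (L.map fun z => o z + 1).prod := by
  induction L generalizing a with
  | nil => simp
  | cons z L ih =>
    have h1 := ih (fun y hy => hL y (List.mem_cons_of_mem _ hy))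
    have h2 : (o z + 1) * a = a * (o z + 1) := by
      rw [add_mul, mul_add, one_mul, mul_one, n1_central (hY z (hL z List.mem_cons_self))]
    rw [List.map_cons, List.prod_cons, mul_assoc, h1, ← mul_assoc, h2, mul_assoc]

private noncomputable def n1J {K : Type*} [Group K] (Y : Finset K) (k : ℕ) : Ideal (SA K) :=
  Ideal.span {c | ∃ L : List K, L.length = k ∧ (∀ z ∈ L, z ∈ Y) ∧
    c = (L.map fun z => o z + 1).prod}

private theorem n1_twosided {K : Type*} [Group K] {Y : Finset K}
    (hY : ∀ y ∈ Y, ∀ x : K, y * x = x * y) (k : ℕ) : (n1J Y k).IsTwoSided := by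
  refine ⟨fun {a} b ha => ?_⟩
  unfold n1J at ha ⊢
  induction ha using Submodule.span_induction with
  | mem x hx =>
    obtain ⟨L, hL1, hL2, rfl⟩ := hx
    rw [n1_central_prod hY L hL2]
    exact Ideal.mul_mem_left _ _ (Ideal.subset_span ⟨L, hL1, hL2, rfl⟩)
  | zero => rw [zero_mul]; exact Submodule.zero_mem _
  | add x y _ _ hx hy => rw [add_mul]; exact Submodule.add_mem _ hx hy
  | smul r x _ hx => rw [smul_eq_mul, mul_assoc]; exact Ideal.mul_mem_left _ _ hx

private theorem n1_mul {K : Type*} [Group K] {Y : Finset K}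
    (hY : ∀ y ∈ Y, ∀ x : K, y * x = x * y) {k m : ℕ} {a b : SA K} (ha : a ∈ n1J Y k)
    (hb : b ∈ n1J Y m) : a * b ∈ n1J Y (k + m) := by
  have h2 := n1_twosided hY (k + m)
  have key : ∀ L : List K, L.length = k → (∀ z ∈ L, z ∈ Y) →
      (L.map fun z => o z + 1).prod * b ∈ n1J Y (k + m) := by
    intro L hL1 hL2
    unfold n1J at hb
    induction hb using Submodule.span_induction with
    | mem x hx =>
      obtain ⟨L', hL1', hL2', rfl⟩ := hx
      refine Ideal.subset_span ⟨L ++ L', by rw [List.length_append, hL1, hL1'], ?_, by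
        rw [List.map_append, List.prod_append]⟩
      intro z hz
      rcases List.mem_append.1 hz with hz | hz
      · exact hL2 z hz
      · exact hL2' z hz
    | zero => rw [mul_zero]; exact Submodule.zero_mem _
    | add x y _ _ hx hy => rw [mul_add]; exact Submodule.add_mem _ hx hy
    | smul r x _ hx =>
      rw [smul_eq_mul, ← mul_assoc, n1_central_prod hY L hL2, mul_assoc]
      exact Ideal.mul_mem_left _ _ hx
  unfold n1J at ha
  induction ha using Submodule.span_induction with
  | mem x hx =>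
    obtain ⟨L, hL1, hL2, rfl⟩ := hx
    exact key L hL1 hL2
  | zero => rw [zero_mul]; exact Submodule.zero_mem _
  | add x y _ _ hx hy => rw [add_mul]; exact Submodule.add_mem _ hx hy
  | smul r x _ hx => rw [smul_eq_mul, mul_assoc]; exact Ideal.mul_mem_left _ _ hx

private theorem n1_extract {K : Type*} [Group K] [DecidableEq K] {z : K}
    (hz : ∀ x : K, z * x = x * z) (L : List K) (n : ℕ) (hn : n ≤ L.count z) :
    ∃ s : SA K, (L.map fun z => o z + 1).prod = (o z + 1) ^ n * s := by
  have hc : ∀ a : SA K, a * (o z + 1) = (o z + 1) * a := fun a => by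
    rw [add_mul, mul_add, one_mul, mul_one, n1_central hz]
  have hcp : ∀ (n : ℕ) (a : SA K), a * (o z + 1) ^ n = (o z + 1) ^ n * a := by
    intro n
    induction n with
    | zero => intro a; simp
    | succ n ih => intro a; rw [pow_succ, ← mul_assoc, ih, mul_assoc, hc, ← mul_assoc]
  induction L generalizing n with
  | nil =>
    simp at hn
    exact ⟨1, by simp [hn]⟩
  | cons y L ih =>
    rw [List.map_cons, List.prod_cons]
    by_cases hyz : y = z
    · subst hyz
      rcases n with _ | n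
      · exact ⟨_, by rw [pow_zero, one_mul]⟩
      · rw [List.count_cons_self] at hn
        obtain ⟨s, hs⟩ := ih n (by omega)
        exact ⟨s, by rw [hs, pow_succ', mul_assoc]⟩
    · rw [List.count_cons_of_ne hyz] at hn
      obtain ⟨s, hs⟩ := ih n hn
      exact ⟨(o y + 1) * s, by rw [hs, ← mul_assoc, hcp, mul_assoc]⟩

private theorem n1_J_bot {K : Type*} [Group K] {Y : Finset K}
    (hY : ∀ y ∈ Y, ∀ x : K, y * x = x * y) {a : ℕ} (ha : ∀ x : K, x ^ (2 ^ a) = 1) {k : ℕ}
    (hk : Y.card * (2 ^ a - 1) < k) : n1J Y k = ⊥ := by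
  classical
  unfold n1J
  rw [Ideal.span_eq_bot]
  rintro c ⟨L, hL1, hL2, rfl⟩
  have h1 : ∑ z ∈ Y, L.count z = k := by
    have := Multiset.sum_count_eq_card (s := Y) (m := (L : Multiset K)) (by simpa using hL2)
    simpa [hL1] using this
  obtain ⟨z, hzY, hz⟩ : ∃ z ∈ Y, 2 ^ a - 1 < L.count z := by
    by_contra hcon
    push Not at hcon
    have h2 : ∑ z ∈ Y, L.count z ≤ ∑ z ∈ Y, (2 ^ a - 1) := Finset.sum_le_sum hcon
    rw [h1, Finset.sum_const, smul_eq_mul] at h2
    omega
  obtain ⟨s, hs⟩ := n1_extract (hY z hzY) L (2 ^ a) (by omega)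
  rw [hs, n1_pow, ha, map_one, n1_two, zero_mul]

/-- The statement in the group algebra. -/
private theorem n1_main (c : ℕ) : ∀ (K : Type _) [Group K] (a D : ℕ) (X : Finset K)
    (_ : Subgroup.closure (X : Set K) = ⊤) (_ : X.card ≤ D)
    (_ : lcN (⊤ : Subgroup K) c = ⊥) (_ : ∀ x : K, x ^ (2 ^ a) = 1)
    (l : List K) (_ : (2 ^ a * (D + 1) ^ c) ^ c ≤ l.length),
    (l.map fun x => (o x + 1 : SA K)).prod = 0 := by
  classical
  induction c with
  | zero =>
    intro K _ a D X hX hD hc ha l hl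
    have htriv : ∀ x : K, x = 1 := fun x => by
      have : x ∈ lcN (⊤ : Subgroup K) 0 := Subgroup.mem_top x
      rw [hc] at this
      exact Subgroup.mem_bot.1 this
    rcases l with _ | ⟨x, l⟩
    · simp at hl
    · rw [List.map_cons, List.prod_cons, htriv x, map_one, n1_two, zero_mul]
  | succ c ih =>
    intro K _ a D X hX hD hc ha l hl
    -- the central subgroup
    obtain ⟨Y, hYc, hYm, hYg⟩ := n1_gen X hX c
    rw [hc, sup_bot_eq] at hYg
    have hZ : lcN (⊤ : Subgroup K) c = Subgroup.closure (Y : Set K) :=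
      le_antisymm hYg ((Subgroup.closure_le _).2 hYm)
    have hYcen : ∀ y ∈ Y, ∀ x : K, y * x = x * y := by
      intro y hy x
      have h1 := n1_comm_mem (hYm y hy) x
      rw [hc, Subgroup.mem_bot, commutatorElement_eq_one_iff_mul_comm] at h1
      exact h1
    have hn := n1_normal (K := K) c
    have h2 := n1_twosided hYcen 1
    -- the homomorphism from the group algebra of the quotient
    obtain ⟨φ, hφ⟩ : ∃ φ : K →* (SA K ⧸ n1J Y 1), ∀ x, φ x = Ideal.Quotient.mk (n1J Y 1) (o x) :=
      ⟨((Ideal.Quotient.mk (n1J Y 1) : SA K →+* _) : SA K →* _).comp o, fun x => rfl⟩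
    have hφY : ∀ y ∈ Y, φ y = 1 := by
      intro y hy
      have h3 : (o y + 1 : SA K) ∈ n1J Y 1 := by
        refine Ideal.subset_span ⟨[y], rfl, by simpa using hy, by simp⟩
      have h4 := Ideal.Quotient.eq_zero_iff_mem.2 h3
      have h5 : φ y = φ y + ((Ideal.Quotient.mk (n1J Y 1)) (1 + 1 : SA K)) := by
        rw [n1_two, map_zero, add_zero]
      rw [h5, map_add, ← add_assoc, hφ, ← map_add, h4, zero_add, map_one]
    have hφZ : lcN (⊤ : Subgroup K) c ≤ φ.ker := by
      rw [hZ, Subgroup.closure_le]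
      intro y hy
      exact hφY y hy
    obtain ⟨ψ, hψ⟩ : ∃ ψ : (K ⧸ lcN (⊤ : Subgroup K) c) →* (SA K ⧸ n1J Y 1),
        ∀ x : K, ψ (x : K ⧸ lcN (⊤ : Subgroup K) c) = φ x :=
      ⟨QuotientGroup.lift _ φ hφZ, fun x => QuotientGroup.lift_mk _ _ _⟩
    obtain ⟨Φ, hΦ⟩ : ∃ Φ : SA (K ⧸ lcN (⊤ : Subgroup K) c) →ₐ[ZMod 2] (SA K ⧸ n1J Y 1),
        ∀ x, Φ (o x) = ψ x :=
      ⟨MonoidAlgebra.lift (ZMod 2) _ _ ψ, fun x => MonoidAlgebra.lift_of ..⟩
    -- products of n₁ factors are in J 1
    obtain ⟨n₁, hn₁⟩ : ∃ n₁, n₁ = (2 ^ a * (D + 1) ^ c) ^ c := ⟨_, rfl⟩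
    have hJ1 : ∀ l : List K, n₁ ≤ l.length → (l.map fun x => (o x + 1 : SA K)).prod ∈ n1J Y 1 := by
      intro l hl
      have h3 := ih (K ⧸ lcN (⊤ : Subgroup K) c) a D
        (X.image (QuotientGroup.mk' (lcN (⊤ : Subgroup K) c))) (by
          rw [Finset.coe_image, ← MonoidHom.map_closure, hX]
          exact Subgroup.map_top_of_surjective _ (QuotientGroup.mk'_surjective _))
        (Finset.card_image_le.trans hD) (by
          rw [n1_map (QuotientGroup.mk' _) (QuotientGroup.mk'_surjective _) c]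
          rw [Subgroup.map_eq_bot_iff, QuotientGroup.ker_mk'])
        (by
          intro x
          obtain ⟨y, rfl⟩ := QuotientGroup.mk'_surjective _ x
          rw [← map_pow, ha, map_one])
        (l.map (QuotientGroup.mk' (lcN (⊤ : Subgroup K) c))) (by
          rw [List.length_map, ← hn₁]; exact hl)
      have h4 := congrArg Φ h3
      rw [map_zero, map_list_prod, List.map_map, List.map_map] at h4
      rw [← Ideal.Quotient.eq_zero_iff_mem, map_list_prod, List.map_map]
      rw [← h4]
      congr 1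
      refine List.map_congr_left fun x _ => ?_
      simp only [Function.comp_apply, map_add, map_one]
      rw [hΦ]
      change _ = ψ ((x : K) : K ⧸ lcN (⊤ : Subgroup K) c) + 1
      rw [hψ, hφ]
    -- products of n₁ * k factors are in J k
    have hJk : ∀ k : ℕ, ∀ l : List K, n₁ * k ≤ l.length →
        (l.map fun x => (o x + 1 : SA K)).prod ∈ n1J Y k := by
      intro k
      induction k with
      | zero =>
        intro l _
        have h3 : (1 : SA K) ∈ n1J Y 0 := Ideal.subset_span ⟨[], rfl, by simp, by simp⟩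
        rw [← mul_one (l.map fun x => (o x + 1 : SA K)).prod]
        exact Ideal.mul_mem_left _ _ h3
      | succ k ihk =>
        intro l hl
        rw [← List.take_append_drop n₁ l, List.map_append, List.prod_append, add_comm k 1]
        have h5 : n₁ ≤ l.length := by
          refine le_trans ?_ hl
          rw [mul_add, mul_one]
          exact Nat.le_add_left _ _
        refine n1_mul hYcen (hJ1 _ ?_) (ihk _ ?_)
        · rw [List.length_take]
          exact le_min le_rfl h5
        · rw [List.length_drop]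
          rw [mul_add, mul_one] at hl
          exact Nat.le_sub_of_add_le hl
    -- conclusion
    obtain ⟨k, hk⟩ : ∃ k, k = 2 ^ a * (D + 1) ^ (c + 1) := ⟨_, rfl⟩
    have hlen : n₁ * k ≤ l.length := by
      refine le_trans ?_ hl
      rw [hn₁, ← hk, pow_succ]
      refine Nat.mul_le_mul_right _ (Nat.pow_le_pow_left ?_ _)
      rw [hk]
      exact Nat.mul_le_mul_left _ (Nat.pow_le_pow_right (Nat.succ_pos _) (Nat.le_succ _))
    have h6 := hJk k l hlen
    rw [n1_J_bot hYcen ha] at h6
    · simpa using h6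
    · have h7 : Y.card ≤ (D + 1) ^ (c + 1) :=
        hYc.trans (Nat.pow_le_pow_left (hD.trans (Nat.le_succ _)) _)
      have h8 : 0 < 2 ^ a := by positivity
      have h9 : 0 < (D + 1) ^ (c + 1) := by positivity
      calc Y.card * (2 ^ a - 1) ≤ (D + 1) ^ (c + 1) * (2 ^ a - 1) := Nat.mul_le_mul_right _ h7
        _ < (D + 1) ^ (c + 1) * 2 ^ a := Nat.mul_lt_mul_of_pos_left (by omega) h9
        _ = k := by rw [hk, mul_comm]

theorem aug_nilpotent {K U : Type*} [Group K] [AddCommGroup U] [Module (ZMod 2) U]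
    (π : K →* Module.End (ZMod 2) U) (c a D : ℕ) (X : Finset K)
    (hX : Subgroup.closure (X : Set K) = ⊤) (hD : X.card ≤ D)
    (hc : lcN (⊤ : Subgroup K) c = ⊥) (ha : ∀ x : K, x ^ (2 ^ a) = 1)
    (l : List K) (hl : (2 ^ a * (D + 1) ^ c) ^ c ≤ l.length) :
    (l.map fun x => π x + 1).prod = 0 := by
  have h1 := n1_main c K a D X hX hD hc ha l hl
  have h2 := congrArg (MonoidAlgebra.lift (ZMod 2) (Module.End (ZMod 2) U) K π) h1
  rw [map_zero, map_list_prod, List.map_map] at h2
  rw [← h2]
  congr 1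
  refine List.map_congr_left fun x _ => ?_
  simp [o]

end Pool.Agent.Lib.MP_c7b0ca_fe
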