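import Pool.Agent.Lib.MP_c7b0ca_fe.N1
import Pool.Agent.Lib.MP_c7b0ca_al.Main

/-!
ROW N2: the same with an odd part.

PROOF. `K` is finite (`finite_of_torsion` in `Pool.Agent.Lib.MP_c7b0ca_al.Main`, or by induction on the class: a
finitely generated nilpotent torsion group is finite) and nilpotent, so it is the direct product of
its Sylow subgroups (`Sylow.directProductOfNormal`, `Group.isNilpotent_of_finite_tfae`); let `O` be the normal subgroup
of the elements of odd order (kernel of the projection to the Sylow 2-subgroup; or the product of the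
others). `card O` is odd, every `x^(2^a)` has odd order, so `x^(2^a) ∈ O`. `E = Σ_{t ∈ F} π t` satisfies
`π t * E = E * π t = E` for `t ∈ O` and commutes with all `π x` (`O` normal). So `K ⧸ O` acts on the range of `E`
(`LinearMap.range E`, `π x (E u) = E (π x u)`); apply `aug_nilpotent` to this representation and the image of `X`:
`(∏ (π x + 1)) (E u) = 0`, and `E` commutes with the product.
-/

open scoped Pointwise commutatorElement

namespace Pool.Agent.Lib.MP_c7b0ca_fe

private theorem n2_map_lcN {K K' : Type*} [Group K] [Group K'] (f : K →* K') (N : Subgroup K)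
    (n : ℕ) : (lcN N n).map f = lcN (N.map f) n := by
  induction n with
  | zero => rfl
  | succ n ih => rw [lcN, Subgroup.map_commutator, ih, lcN]

private theorem n2_dser_le {K : Type*} [Group K] (n : ℕ) :
    MP_c7b0ca_al.dser (⊤ : Subgroup K) n ≤ lcN (⊤ : Subgroup K) n := by
  induction n with
  | zero => exact le_rfl
  | succ n ih =>
    rw [MP_c7b0ca_al.dser_succ, lcN]
    exact Subgroup.commutator_mono ih le_top

private theorem n2_nil {K : Type*} [Group K] {c : ℕ} (hc : lcN (⊤ : Subgroup K) c = ⊥) :
    Group.IsNilpotent K := by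
  have h : ∀ n : ℕ, (⊤ : Subgroup K).lowerCentralSeries n = lcN (⊤ : Subgroup K) n := by
    intro n
    induction n with
    | zero => rfl
    | succ n ih => rw [lcN, ← ih]; rfl
  exact Subgroup.nilpotent_iff_lowerCentralSeries.2 ⟨c, by rw [h, hc]⟩

private theorem n2_finite {K : Type*} [Group K] {c n : ℕ} (hn : 0 < n) {X : Finset K}
    (hX : Subgroup.closure (X : Set K) = ⊤) (hc : lcN (⊤ : Subgroup K) c = ⊥)
    (ha : ∀ x : K, x ^ n = 1) : Finite K := by
  have : Group.FG K := ⟨⟨X, hX⟩⟩
  refine MP_c7b0ca_al.finite_of_torsion c K (fun g => ⟨n, hn, ha g⟩) ⊤ ?_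
  exact le_bot_iff.1 (hc ▸ n2_dser_le c)

private theorem n2_pgroup {P : Type*} [Group P] {p q k : ℕ} (hp : p.Prime) (hP : IsPGroup p P)
    (hq : Nat.Coprime p q) (x : P) (hx : x ^ (p ^ k * q) = 1) : x ^ (p ^ k) = 1 := by
  have : Fact p.Prime := ⟨hp⟩
  obtain ⟨j, hj⟩ := IsPGroup.iff_orderOf.1 hP x
  have h1 : p ^ j ∣ p ^ k * q := by
    rw [← hj]
    exact orderOf_dvd_of_pow_eq_one hx
  have h2 : p ^ j ∣ p ^ k := (Nat.Coprime.pow_left j hq).dvd_of_dvd_mul_right h1
  rw [← hj] at h2
  exact orderOf_dvd_iff_pow_eq_one.1 h2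

private theorem n2_odd {K : Type*} [Group K] [Finite K] (hnil : Group.IsNilpotent K) {a m : ℕ}
    (hm : Odd m) (ha : ∀ x : K, x ^ (2 ^ a * m) = 1) :
    ∃ O : Subgroup K, O.Normal ∧ Odd (Nat.card O) ∧ ∀ x : K, x ^ (2 ^ a) ∈ O := by
  classical
  by_cases h2 : 2 ∈ (Nat.card K).primeFactors
  · obtain ⟨e⟩ := (Group.isNilpotent_of_finite_tfae (G := K)).out 0 4 |>.1 hnil
    let φ : K →* (∀ P : Sylow 2 K, P) :=
      (Pi.evalMonoidHom (fun p : (Nat.card K).primeFactors => ∀ P : Sylow p K, (P : Subgroup K))
        ⟨2, h2⟩).comp e.symm.toMonoidHom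
    refine ⟨φ.ker, inferInstance, ?_, ?_⟩
    · by_contra hodd
      rw [Nat.not_odd_iff_even, even_iff_two_dvd] at hodd
      have : Fact (Nat.Prime 2) := ⟨Nat.prime_two⟩
      obtain ⟨t, ht⟩ := exists_prime_orderOf_dvd_card' 2 hodd
      have ht2 : (t : K) ^ 2 = 1 := by
        have h := pow_orderOf_eq_one t
        rw [ht] at h
        rw [← Subgroup.coe_pow, h, Subgroup.coe_one]
      have ht1 : (t : K) ≠ 1 := by
        intro h
        have : t = 1 := Subtype.ext h
        rw [this, orderOf_one] at ht
        exact absurd ht (by norm_num)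
      apply ht1
      have h3 : e.symm (t : K) = 1 := by
        funext p P
        have hpp : (p : ℕ).Prime := Nat.prime_of_mem_primeFactors p.2
        have : Fact (p : ℕ).Prime := ⟨hpp⟩
        by_cases hp2 : p = ⟨2, h2⟩
        · subst hp2
          have h4 : φ (t : K) = 1 := t.2
          exact congrFun h4 P
        · have hne : (p : ℕ) ≠ 2 := fun h => hp2 (Subtype.ext h)
          have h5 : (e.symm (t : K) p P) ^ 2 = 1 := by
            have h6 : (e.symm (t : K)) ^ 2 = 1 := by rw [← map_pow, ht2, map_one]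
            exact congrFun (congrFun h6 p) P
          have h7 := n2_pgroup (k := 0) (q := 2) hpp P.isPGroup'
            ((Nat.coprime_primes hpp Nat.prime_two).2 hne) (e.symm (t : K) p P)
            (by rw [pow_zero, one_mul]; exact h5)
          rw [pow_zero, pow_one] at h7
          exact h7
      have h8 : e (e.symm (t : K)) = e 1 := by rw [h3]
      rwa [MulEquiv.apply_symm_apply, map_one] at h8
    · intro x
      rw [MonoidHom.mem_ker]
      funext P
      have h5 : (φ x P) ^ (2 ^ a * m) = 1 := by
        have h6 : (φ x) ^ (2 ^ a * m) = 1 := by rw [← map_pow, ha, map_one]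
        exact congrFun h6 P
      have h7 := n2_pgroup Nat.prime_two P.isPGroup' (Nat.coprime_two_left.2 hm) (φ x P) h5
      rw [map_pow]
      exact h7
  · refine ⟨⊤, inferInstance, ?_, fun x => Subgroup.mem_top _⟩
    rw [Subgroup.card_top]
    by_contra hodd
    rw [Nat.not_odd_iff_even, even_iff_two_dvd] at hodd
    exact h2 (Nat.mem_primeFactors.2 ⟨Nat.prime_two, hodd, Nat.card_pos.ne'⟩)

private theorem n2_prod_restrict {K U : Type*} [Group K] [AddCommGroup U] [Module (ZMod 2) U]
    (π : K →* Module.End (ZMod 2) U) (W : Submodule (ZMod 2) U)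
    (σ : K → Module.End (ZMod 2) W) (hσ : ∀ x (w : W), ((σ x w : W) : U) = π x w)
    (l : List K) (w : W) :
    (l.map fun x => π x + 1).prod (w : U) = (((l.map fun x => σ x + 1).prod w : W) : U) := by
  induction l with
  | nil => simp
  | cons x l ih =>
    rw [List.map_cons, List.prod_cons, List.map_cons, List.prod_cons, Module.End.mul_apply,
      Module.End.mul_apply, ih]
    simp only [LinearMap.add_apply, Module.End.one_apply, Submodule.coe_add, hσ]

theorem odd_part {K U : Type*} [Group K] [AddCommGroup U] [Module (ZMod 2) U]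
    (π : K →* Module.End (ZMod 2) U) (c a D m : ℕ) (hm : Odd m) (X : Finset K)
    (hX : Subgroup.closure (X : Set K) = ⊤) (hD : X.card ≤ D)
    (hc : lcN (⊤ : Subgroup K) c = ⊥) (ha : ∀ x : K, x ^ (2 ^ a * m) = 1) :
    ∃ (O : Subgroup K) (F : Finset K), (F : Set K) = O ∧ Odd F.card ∧
      ∀ l : List K, (2 ^ a * (D + 1) ^ c) ^ c ≤ l.length →
        (∑ t ∈ F, π t) * (l.map fun x => π x + 1).prod = 0 := by
  classical
  have hfin : Finite K := n2_finite (Nat.mul_pos (by positivity) hm.pos) hX hc ha
  obtain ⟨O, hON, hOodd, hOpow⟩ := n2_odd (n2_nil hc) hm ha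
  have hOfin : (O : Set K).Finite := Set.toFinite _
  refine ⟨O, hOfin.toFinset, hOfin.coe_toFinset, ?_, ?_⟩
  · have : hOfin.toFinset.card = Nat.card O := by
      rw [← Set.ncard_eq_toFinset_card (O : Set K) hOfin]
      rfl
    rw [this]
    exact hOodd
  intro l hl
  set F := hOfin.toFinset with hF
  have hmem : ∀ t, t ∈ F ↔ t ∈ O := fun t => by
    rw [hF, Set.Finite.mem_toFinset]
    exact Iff.rfl
  set E : Module.End (ZMod 2) U := ∑ t ∈ F, π t with hE
  have hEt : ∀ t ∈ O, π t * E = E := by
    intro t ht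
    rw [hE, Finset.mul_sum]
    refine Finset.sum_bij' (fun s _ => t * s) (fun s _ => t⁻¹ * s) ?_ ?_ ?_ ?_ ?_
    · intro s hs
      rw [hmem] at hs ⊢
      exact O.mul_mem ht hs
    · intro s hs
      rw [hmem] at hs ⊢
      exact O.mul_mem (O.inv_mem ht) hs
    · intro s _
      group
    · intro s _
      group
    · intro s _
      rw [map_mul]
  have hEx : ∀ x : K, π x * E = E * π x := by
    intro x
    rw [hE, Finset.mul_sum, Finset.sum_mul]
    refine Finset.sum_bij' (fun s _ => x * s * x⁻¹) (fun s _ => x⁻¹ * s * x) ?_ ?_ ?_ ?_ ?_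
    · intro s hs
      rw [hmem] at hs ⊢
      exact hON.conj_mem s hs x
    · intro s hs
      rw [hmem] at hs ⊢
      have := hON.conj_mem s hs x⁻¹
      rwa [inv_inv] at this
    · intro s _
      group
    · intro s _
      group
    · intro s _
      rw [← map_mul, ← map_mul]
      congr 1
      group
  have hEl : ∀ l : List K, (l.map fun x => π x + 1).prod * E = E * (l.map fun x => π x + 1).prod := by
    intro l
    induction l with
    | nil => simp
    | cons x l ih =>
      rw [List.map_cons, List.prod_cons, mul_assoc, ih, ← mul_assoc, ← mul_assoc, add_mul, mul_add,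
        hEx, one_mul, mul_one]
  -- the representation on the range of `E`
  set W : Submodule (ZMod 2) U := LinearMap.range E with hW
  have hinv : ∀ (x : K) (w : U), w ∈ W → π x w ∈ W := by
    rintro x _ ⟨u, rfl⟩
    refine ⟨π x u, ?_⟩
    rw [← Module.End.mul_apply, ← Module.End.mul_apply, hEx]
  let σ : K →* Module.End (ZMod 2) W :=
    { toFun := fun x => (π x).restrict (hinv x)
      map_one' := by
        ext w
        simp
      map_mul' := by
        intro x y
        ext w
        simp }
  have hσ : ∀ x (w : W), ((σ x w : W) : U) = π x w := fun x w => rfl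
  have hker : O ≤ σ.ker := by
    intro t ht
    rw [MonoidHom.mem_ker]
    apply LinearMap.ext
    rintro ⟨_, u, rfl⟩
    apply Subtype.ext
    rw [hσ]
    change π t (E u) = E u
    rw [← Module.End.mul_apply, hEt t ht]
  let τ : K ⧸ O →* Module.End (ZMod 2) W := QuotientGroup.lift O σ hker
  have hτ : ∀ x : K, τ (x : K ⧸ O) = σ x := fun x => rfl
  have h1 := aug_nilpotent τ c a D (X.image (QuotientGroup.mk' O)) (by
      rw [Finset.coe_image, ← MonoidHom.map_closure, hX,
        Subgroup.map_top_of_surjective _ (QuotientGroup.mk'_surjective O)])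
    (Finset.card_image_le.trans hD) (by
      have h2 := n2_map_lcN (QuotientGroup.mk' O) ⊤ c
      rw [hc, Subgroup.map_bot,
        Subgroup.map_top_of_surjective _ (QuotientGroup.mk'_surjective O)] at h2
      exact h2.symm)
    (by
      intro y
      obtain ⟨x, rfl⟩ := QuotientGroup.mk'_surjective O y
      rw [← map_pow]
      exact (QuotientGroup.eq_one_iff _).2 (hOpow x))
    (l.map (QuotientGroup.mk' O)) (by rwa [List.length_map])
  rw [List.map_map] at h1
  have h3 : (l.map fun x => σ x + 1).prod = 0 := h1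
  rw [← hEl]
  apply LinearMap.ext
  intro u
  rw [Module.End.mul_apply]
  have h4 := n2_prod_restrict π W σ hσ l ⟨E u, u, rfl⟩
  rw [h3] at h4
  exact h4

end Pool.Agent.Lib.MP_c7b0ca_fe
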