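import Pool.Agent.Lib.MP_c7b0ca_fe.EX
import Pool.Agent.Lib.MP_c7b0ca_al.Main

/-!
ROW O1: in a nilpotent group finitely many elements of odd order generate a finite group of odd
order.
-/

open scoped Pointwise commutatorElement

namespace Pool.Agent.Lib.MP_c7b0ca_fe

private theorem lcN_mono' {K : Type*} [Group K] {H L : Subgroup K} (h : H ≤ L) (i : ℕ) :
    lcN H i ≤ lcN L i := by
  induction i with
  | zero => exact h
  | succ i ih => exact Subgroup.commutator_mono ih h

private theorem lcN_map' {K Q : Type*} [Group K] [Group Q] (f : K →* Q) (H : Subgroup K) (i : ℕ) :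
    (lcN H i).map f = lcN (H.map f) i := by
  induction i with
  | zero => rfl
  | succ i ih =>
    show (⁅lcN H i, H⁆ : Subgroup K).map f = (⁅lcN (H.map f) i, H.map f⁆ : Subgroup Q)
    rw [Subgroup.map_commutator, ih]

theorem odd_closure {K : Type*} [Group K] (c : ℕ) (hc : lcN (⊤ : Subgroup K) c = ⊥) (X : Set K)
    (hfin : X.Finite) (hX : ∀ x ∈ X, ∃ n, Odd n ∧ x ^ n = 1) :
    Finite (Subgroup.closure X) ∧ Odd (Nat.card (Subgroup.closure X)) := by
  classical
  -- the subgroup is nilpotent
  have h1 : lcN (⊤ : Subgroup (Subgroup.closure X)) c = ⊥ := by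
    have h2 : (lcN (⊤ : Subgroup (Subgroup.closure X)) c).map (Subgroup.closure X).subtype ≤ ⊥ := by
      rw [lcN_map', ← hc]
      exact lcN_mono' le_top c
    have h3 := le_bot_iff.1 h2
    rwa [Subgroup.map_eq_bot_iff_of_injective _ (Subgroup.subtype_injective _)] at h3
  have hder : ∀ l : ℕ, MP_c7b0ca_al.dser (⊤ : Subgroup (Subgroup.closure X)) l ≤
      lcN (⊤ : Subgroup (Subgroup.closure X)) l := by
    intro l
    induction l with
    | zero => exact le_rfl
    | succ l ih =>
      rw [MP_c7b0ca_al.dser_succ]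
      exact Subgroup.commutator_mono ih le_top
  -- the exponent
  choose! f hf1 hf2 using hX
  set e : ℕ := ∏ x ∈ hfin.toFinset, f x with he
  have heodd : Odd e := by
    rw [he]
    exact Finset.prod_induction f Odd (fun a b ha hb => ha.mul hb) odd_one
      (fun x hx => hf1 x (hfin.mem_toFinset.1 hx))
  have hexp : ∀ y : Subgroup.closure X, y ^ (e ^ c) = 1 := by
    intro y
    refine nilpotent_exponent c e ((Subtype.val) ⁻¹' X) ?_ ?_ h1 y
    · exact Subgroup.closure_closure_coe_preimage
    · intro x hx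
      have hx' : (x : K) ∈ X := hx
      apply Subtype.ext
      have hdvd : f (x : K) ∣ e := Finset.dvd_prod_of_mem f (hfin.mem_toFinset.2 hx')
      obtain ⟨m, hm⟩ := hdvd
      rw [Subgroup.coe_pow, hm, pow_mul, hf2 _ hx', one_pow]
      rfl
  have hpos : 0 < e ^ c := by
    obtain ⟨m, hm⟩ := heodd
    exact Nat.pow_pos (by omega)
  have : Finite X := hfin
  have : Group.FG (Subgroup.closure X) := Group.closure_finite_fg X
  have hfinite : Finite (Subgroup.closure X) :=
    MP_c7b0ca_al.finite_of_torsion c (Subgroup.closure X) (fun g => ⟨e ^ c, hpos, hexp g⟩) ⊤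
      (le_bot_iff.1 (h1 ▸ hder c))
  refine ⟨hfinite, ?_⟩
  rw [← Nat.not_even_iff_odd]
  intro heven
  have h2 : Fact (Nat.Prime 2) := ⟨Nat.prime_two⟩
  obtain ⟨y, hy⟩ := exists_prime_orderOf_dvd_card' 2 (even_iff_two_dvd.1 heven)
  have h3 : orderOf y ∣ e ^ c := orderOf_dvd_of_pow_eq_one (hexp y)
  rw [hy] at h3
  have h4 : Odd (e ^ c) := heodd.pow
  exact (Nat.not_even_iff_odd.2 h4) (even_iff_two_dvd.2 h3)

end Pool.Agent.Lib.MP_c7b0ca_fe
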