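import Pool.Agent.Lib.MP_c7b0ca_fe.B0

/-!
ROW PS: the collecting function `Ψ` takes values which are products of `d` commutators.

PROOF. For `r : Fin d → R` put `Φ r = ∏_j ⁅r_j, g_j⁆ : G` (ordered product, `List.ofFn`).
Commutators of elements of `R` are central (they are values of `b`, see `b_clx`), and
`⁅a b, g⁆ = ⁅a, ⁅b, g⁆⁆ * ⁅b, g⁆ * ⁅a, g⁆`. Write `β(X,Y) : G` for the central element
`(s.β X Y).toMul` (`X, Y : Fin d → V`).
(1) `Φ (r * r') = Φ r * Φ r' * β (cl r, cl r')` for all `r r' : Fin d → R`. In `V` (additively, char 2)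
 the class of `⁅b, g⁆` is `cl b + ρ g (cl b)`. Factor `j`: `⁅r_j r'_j, g_j⁆ = ⁅r_j, a'_j⁆ a'_j a_j`
 `= ⁅r_j, a'_j⁆ ⁅a'_j, a_j⁆ a_j a'_j` with `a_j = ⁅r_j, g_j⁆`, `a'_j = ⁅r'_j, g_j⁆`; contribution
 `b(X_j, (1+g_j) Y_j) + b((1+g_j) X_j, (1+g_j) Y_j) = b(g_j X_j, (1+g_j) Y_j) = b(X_j, (g_j⁻¹+1) Y_j)`
 (`b_ρ`, `b_act`); moving `a_j` to the left of `a'_l`, `l < j`: `b((1+g_j) X_j, (1+g_l) Y_l)`.
 Together this is `Σ_{j,l} b(X_j, θ_{jl} Y_l) = β(X,Y)`.
 (Convenient induction: over lists of indices, or prove it for `List.ofFn` by `List.ofFn_succ`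
 for an arbitrary family `g : Fin n → G` with the corresponding `θ`.)
(2) For a word `w` and `t ∈ R` define `vec t [] = 1`,
 `vec t (x :: w) = vec t w * Pi.mulSingle x (ev w * t * (ev w)⁻¹)`. Since
 `⁅t, g_x * ev w⁆ = ⁅t, ev w⁆ * ⁅ev w * t * (ev w)⁻¹, g_x⁆`, (1) gives by induction on `w`
 `Φ (vec t w) = ⁅t, ev w⁆ * (b (cl t) (act (η w) (cl t)))`, and the class of `(vec t w)_j` is
 `act (D w j) (cl t)`. Here
 `Σ_j b(D_j(w) v, θ_{jx} ev(w) v) = b(v, Σ_j St(D_j(w)) θ_{jx} ev(w) v)` (`b_act`).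
(3) For `L` with all `ev p.2 ∈ R` choose `t_p ∈ R` with `clx t_p = p.1` (`clx_surj`). By induction on `L`,
 `Φ (∏_p vec t_p p.2) = (Ψ L).toMul`, using (1), (2) and `b_clx`. `Φ` is a product of `d`
 commutators. `(commutatorSet G) ^ d` is the pointwise power of a set.
-/

open scoped Pointwise commutatorElement

namespace Pool.Agent.Lib.MP_c7b0ca_fe

namespace Setup

variable {G V : Type*} [Group G] [AddCommGroup V] [Module (ZMod 2) V] (s : Setup G V)

/-- central elements in the group -/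
private def psκ (c : WA G) : G := ((c.toMul : Subgroup.center G) : G)

private theorem psκ_add (a c : WA G) : psκ (a + c) = psκ a * psκ c := by
  simp [psκ]

private theorem psκ_zero : psκ (0 : WA G) = 1 := by
  simp [psκ]

private theorem psκ_comm (c : WA G) (x : G) : x * psκ c = psκ c * x :=
  Subgroup.mem_center_iff.mp (c.toMul : Subgroup.center G).2 x

private theorem ps_swap {x y : G} (hx : x ∈ s.R) (hy : y ∈ s.R) :
    x * y = psκ (s.b (s.clx x) (s.clx y)) * (y * x) := by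
  have h := s.b_clx hx hy
  unfold psκ
  rw [h, commutatorElement_def]
  group

private theorem ps_comm_mem {x : G} (hx : x ∈ s.R) (g : G) : ⁅x, g⁆ ∈ s.R := by
  rw [commutatorElement_def, mul_assoc, mul_assoc]
  refine s.R.mul_mem hx ?_
  have := s.hR.conj_mem x⁻¹ (s.R.inv_mem hx) g
  rwa [mul_assoc] at this

private theorem ps_clx_comm {x : G} (hx : x ∈ s.R) (g : G) :
    s.clx ⁅x, g⁆ = s.act (1 + o g) (s.clx x) := by
  have h1 : ⁅x, g⁆ = x * (g * x⁻¹ * g⁻¹) := by
    rw [commutatorElement_def]; group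
  have h2 := s.hR.conj_mem x⁻¹ (s.R.inv_mem hx) g
  rw [h1, s.clx_mul hx h2, s.clx_conj g (s.R.inv_mem hx), s.clx_inv hx, map_add, map_one, act_o]
  rfl

/-- one commutator -/
private theorem ps_one {r r' : G} (hr : r ∈ s.R) (hr' : r' ∈ s.R) (g : G) :
    ⁅r * r', g⁆ = psκ (s.b (s.clx r) (s.act (1 + o g⁻¹) (s.clx r'))) * (⁅r, g⁆ * ⁅r', g⁆) := by
  have ha := s.ps_comm_mem hr g
  have ha' := s.ps_comm_mem hr' g
  have h1 : ⁅r * r', g⁆ = (r * ⁅r', g⁆) * r⁻¹ * ⁅r, g⁆ := by
    simp only [commutatorElement_def]; group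
  have h2 := s.ps_swap hr ha'
  have h3 := s.ps_swap ha' ha
  have h4 : s.b (s.clx r) (s.clx ⁅r', g⁆) + s.b (s.clx ⁅r', g⁆) (s.clx ⁅r, g⁆)
      = s.b (s.clx r) (s.act (1 + o g⁻¹) (s.clx r')) := by
    have a1 : ∀ (x : G) (v : V), s.act (1 + o x) v = v + s.ρ x v := by
      intro x v
      rw [map_add, map_one, act_o, LinearMap.add_apply, Module.End.one_apply]
    rw [s.b_symm (s.clx ⁅r', g⁆) (s.clx ⁅r, g⁆), ← AddMonoidHom.add_apply, ← map_add,
      s.ps_clx_comm hr, s.ps_clx_comm hr', a1, a1, a1]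
    have e1 : s.clx r + (s.clx r + s.ρ g (s.clx r)) = s.ρ g (s.clx r) := by
      rw [← add_assoc, V_two, zero_add]
    rw [e1]
    have e2 : s.clx r' + s.ρ g (s.clx r') = s.ρ g (s.clx r' + s.ρ g⁻¹ (s.clx r')) := by
      rw [map_add (s.ρ g), ← Module.End.mul_apply (s.ρ g) (s.ρ g⁻¹), ← map_mul, mul_inv_cancel,
        map_one, Module.End.one_apply, add_comm]
    rw [e2, b_ρ]
  rw [h1, h2, ← h4, psκ_add]
  calc psκ (s.b (s.clx r) (s.clx ⁅r', g⁆)) * (⁅r', g⁆ * r) * r⁻¹ * ⁅r, g⁆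
      = psκ (s.b (s.clx r) (s.clx ⁅r', g⁆)) * (⁅r', g⁆ * ⁅r, g⁆) := by group
    _ = _ := by rw [h3]; group

private def psΦ (is : List (Fin s.d)) (r : Fin s.d → G) : G :=
  (is.map fun j => ⁅r j, s.g j⁆).prod

private noncomputable def psβ (is : List (Fin s.d)) (X Y : Fin s.d → V) : WA G :=
  (is.map fun j => (is.map fun l => s.b (X j) (s.act (s.θ j l) (Y l))).sum).sum

private theorem psΦ_mem (is : List (Fin s.d)) {r : Fin s.d → G} (hr : ∀ j, r j ∈ s.R) :
    s.psΦ is r ∈ s.R := by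
  induction is with
  | nil => simp [psΦ]
  | cons j is ih =>
    have : s.psΦ (j :: is) r = ⁅r j, s.g j⁆ * s.psΦ is r := by simp [psΦ]
    rw [this]
    exact s.R.mul_mem (s.ps_comm_mem (hr j) _) ih

private theorem psΦ_clx (is : List (Fin s.d)) {r : Fin s.d → G} (hr : ∀ j, r j ∈ s.R) :
    s.clx (s.psΦ is r) = (is.map fun j => s.act (1 + o (s.g j)) (s.clx (r j))).sum := by
  induction is with
  | nil => simp [psΦ, clx_one]
  | cons j is ih =>
    have : s.psΦ (j :: is) r = ⁅r j, s.g j⁆ * s.psΦ is r := by simp [psΦ]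
    rw [this, s.clx_mul (s.ps_comm_mem (hr j) _) (s.psΦ_mem is hr), ih, s.ps_clx_comm (hr j)]
    simp

private theorem ps_b_sum (v : V) (L : List V) : s.b v L.sum = (L.map fun x => s.b v x).sum := by
  rw [map_list_sum]

private theorem psβ_cons (j : Fin s.d) (is : List (Fin s.d)) (hj : ∀ l ∈ is, j < l)
    (X Y : Fin s.d → V) :
    s.psβ (j :: is) X Y = s.b (X j) (s.act (1 + o (s.g j)⁻¹) (Y j)) + s.psβ is X Y +
      s.b (s.act (1 + o (s.g j)) (Y j)) (is.map fun l => s.act (1 + o (s.g l)) (X l)).sum := by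
  have e1 : (is.map fun l => s.b (X j) (s.act (s.θ j l) (Y l))) = is.map fun _ => (0 : WA G) := by
    apply List.map_congr_left
    intro l hl
    have h := hj l hl
    have : s.θ j l = 0 := by
      simp [θ, not_lt.mpr h.le, ne_of_gt h]
    rw [this, map_zero]
    simp
  have e2 : s.θ j j = 1 + o (s.g j)⁻¹ := by simp [θ]
  have e3 : (is.map fun l => s.b (X l) (s.act (s.θ l j) (Y j))) =
      is.map fun l => s.b (s.act (1 + o (s.g j)) (Y j)) (s.act (1 + o (s.g l)) (X l)) := by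
    apply List.map_congr_left
    intro l hl
    have h := hj l hl
    have : s.θ l j = St (1 + o (s.g l)) * (1 + o (s.g j)) := by
      simp [θ, h]
    rw [this, act_mul_apply, ← b_act, b_symm]
  unfold psβ
  rw [List.map_cons, List.sum_cons, List.map_cons, List.sum_cons, e1, e2, ps_b_sum, List.map_map]
  simp only [List.map_cons, List.sum_cons]
  rw [List.sum_map_add, e3]
  simp only [List.map_const', List.sum_replicate, smul_zero, add_zero]
  rw [add_assoc, add_comm (List.sum _) (List.sum _)]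
  rfl

private theorem psΦ_mul (is : List (Fin s.d)) (his : is.Pairwise (· < ·))
    {r r' : Fin s.d → G} (hr : ∀ j, r j ∈ s.R) (hr' : ∀ j, r' j ∈ s.R) :
    s.psΦ is (r * r') =
      psκ (s.psβ is (fun j => s.clx (r j)) (fun j => s.clx (r' j))) *
        (s.psΦ is r * s.psΦ is r') := by
  induction is with
  | nil => simp [psΦ, psβ, psκ_zero]
  | cons j is ih =>
    rw [List.pairwise_cons] at his
    have ih := ih his.2
    have c1 : ∀ r : Fin s.d → G, s.psΦ (j :: is) r = ⁅r j, s.g j⁆ * s.psΦ is r := by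
      intro r; simp [psΦ]
    rw [c1, c1, c1, Pi.mul_apply, s.ps_one (hr j) (hr' j), ih, s.psβ_cons j is his.1,
      ← s.ps_clx_comm (hr' j) (s.g j), ← s.psΦ_clx is hr, psκ_add, psκ_add]
    have h := s.ps_swap (s.ps_comm_mem (hr' j) (s.g j)) (s.psΦ_mem is hr)
    generalize psκ (s.b (s.clx (r j)) (s.act (1 + o (s.g j)⁻¹) (s.clx (r' j)))) = k1
    generalize hk2 : psκ (s.psβ is (fun j => s.clx (r j)) (fun j => s.clx (r' j))) = k2
    generalize hk3 : psκ (s.b (s.clx ⁅r' j, s.g j⁆) (s.clx (s.psΦ is r))) = k3 at h ⊢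
    have hc2 : ∀ x, x * k2 = k2 * x := by intro x; rw [← hk2]; exact psκ_comm _ x
    have hc3 : ∀ x, x * k3 = k3 * x := by intro x; rw [← hk3]; exact psκ_comm _ x
    calc k1 * (⁅r j, s.g j⁆ * ⁅r' j, s.g j⁆) * (k2 * (s.psΦ is r * s.psΦ is r'))
        = k1 * ((⁅r j, s.g j⁆ * ⁅r' j, s.g j⁆) * k2) * (s.psΦ is r * s.psΦ is r') := by group
      _ = k1 * k2 * ⁅r j, s.g j⁆ * (⁅r' j, s.g j⁆ * s.psΦ is r) * s.psΦ is r' := by
          rw [hc2]; group
      _ = k1 * k2 * (⁅r j, s.g j⁆ * k3) * s.psΦ is r * ⁅r' j, s.g j⁆ * s.psΦ is r' := by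
          rw [h]; group
      _ = _ := by rw [hc3]; group

private theorem psβ_eq (X Y : Fin s.d → V) : s.psβ (List.finRange s.d) X Y = s.β X Y := by
  unfold psβ β
  rw [← List.ofFn_eq_map, List.sum_ofFn]
  refine Finset.sum_congr rfl fun j _ => ?_
  rw [← List.ofFn_eq_map, List.sum_ofFn]

/-- the vector of a word -/
private def psvec (t : G) : List (Fin s.d) → Fin s.d → G
  | [] => 1
  | x :: w => psvec t w * Pi.mulSingle x (s.ev w * t * (s.ev w)⁻¹)

private theorem ps_single_mem (x : Fin s.d) {y : G} (hy : y ∈ s.R) (j : Fin s.d) :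
    (Pi.mulSingle x y : Fin s.d → G) j ∈ s.R := by
  by_cases h : j = x
  · subst h; simpa using hy
  · rw [Pi.mulSingle_eq_of_ne h]; exact s.R.one_mem

private theorem psvec_mem {t : G} (ht : t ∈ s.R) (w : List (Fin s.d)) (j : Fin s.d) :
    s.psvec t w j ∈ s.R := by
  induction w with
  | nil => simp [psvec]
  | cons x w ih =>
    simp only [psvec, Pi.mul_apply]
    exact s.R.mul_mem ih (s.ps_single_mem x (s.hR.conj_mem t ht (s.ev w)) j)

private theorem psvec_clx {t : G} (ht : t ∈ s.R) (w : List (Fin s.d)) (j : Fin s.d) :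
    s.clx (s.psvec t w j) = s.act (s.D w j) (s.clx t) := by
  induction w with
  | nil => simp [psvec, D, clx_one]
  | cons x w ih =>
    simp only [psvec, Pi.mul_apply, D]
    rw [s.clx_mul (s.psvec_mem ht w j)
      (s.ps_single_mem x (s.hR.conj_mem t ht (s.ev w)) j), ih, map_add, LinearMap.add_apply]
    congr 1
    by_cases h : j = x
    · subst h
      simp [s.clx_conj (s.ev w) ht]
    · rw [Pi.mulSingle_eq_of_ne h, if_neg h, clx_one, map_zero]
      simp

private theorem psΦ_single (is : List (Fin s.d)) (hn : is.Nodup) (x : Fin s.d) (hx : x ∈ is)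
    (y : G) : s.psΦ is (Pi.mulSingle x y) = ⁅y, s.g x⁆ := by
  induction is with
  | nil => simp at hx
  | cons j is ih =>
    rw [List.nodup_cons] at hn
    have c1 : s.psΦ (j :: is) (Pi.mulSingle x y) =
        ⁅(Pi.mulSingle x y : Fin s.d → G) j, s.g j⁆ * s.psΦ is (Pi.mulSingle x y) := by
      simp [psΦ]
    rw [c1]
    by_cases h : j = x
    · subst h
      have : s.psΦ is (Pi.mulSingle j y) = 1 := by
        unfold psΦ
        apply List.prod_eq_one
        intro z hz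
        rw [List.mem_map] at hz
        obtain ⟨l, hl, rfl⟩ := hz
        have : l ≠ j := fun h => hn.1 (h ▸ hl)
        rw [Pi.mulSingle_eq_of_ne this]
        simp
      rw [this, mul_one, Pi.mulSingle_eq_same]
    · have hx' : x ∈ is := by
        rcases List.mem_cons.mp hx with h' | h'
        · exact absurd h'.symm h
        · exact h'
      rw [ih hn.2 hx', Pi.mulSingle_eq_of_ne h]
      simp

private theorem psΦ_vec {t : G} (ht : t ∈ s.R) (w : List (Fin s.d)) :
    s.psΦ (List.finRange s.d) (s.psvec t w) =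
      ⁅t, s.ev w⁆ * psκ (s.b (s.clx t) (s.act (s.η w) (s.clx t))) := by
  induction w with
  | nil =>
    have : s.psΦ (List.finRange s.d) (s.psvec t []) = 1 := by
      unfold psΦ
      apply List.prod_eq_one
      intro z hz
      rw [List.mem_map] at hz
      obtain ⟨l, hl, rfl⟩ := hz
      simp [psvec]
    rw [this]
    simp [η, psκ_zero]
  | cons x w ih =>
    have hc := s.hR.conj_mem t ht (s.ev w)
    have h1 : s.psvec t (x :: w) =
      s.psvec t w * Pi.mulSingle x (s.ev w * t * (s.ev w)⁻¹) := rfl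
    rw [h1, s.psΦ_mul _ (List.pairwise_lt_finRange s.d) (s.psvec_mem ht w)
      (s.ps_single_mem x hc), ih,
      s.psΦ_single _ (List.nodup_finRange s.d) x (List.mem_finRange x), psβ_eq]
    have h2 : s.β (fun j => s.clx (s.psvec t w j))
        (fun j => s.clx ((Pi.mulSingle x (s.ev w * t * (s.ev w)⁻¹) : Fin s.d → G) j)) =
        s.b (s.clx t) (s.act (∑ j, St (s.D w j) * s.θ j x * o (s.ev w)) (s.clx t)) := by
      unfold β
      rw [map_sum, LinearMap.sum_apply, map_sum]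
      refine Finset.sum_congr rfl fun j _ => ?_
      rw [Finset.sum_eq_single x]
      · beta_reduce
        rw [Pi.mulSingle_eq_same, s.clx_conj (s.ev w) ht, s.psvec_clx ht, b_act, ← act_o,
          ← act_mul_apply, ← act_mul_apply, mul_assoc]
      · intro l _ hl
        beta_reduce
        rw [Pi.mulSingle_eq_of_ne hl, clx_one, map_zero, map_zero]
      · intro h; exact absurd (Finset.mem_univ x) h
    have h3 : s.b (s.clx t) (s.act (s.η (x :: w)) (s.clx t)) =
        s.b (s.clx t) (s.act (s.η w) (s.clx t)) +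
        s.b (s.clx t) (s.act (∑ j, St (s.D w j) * s.θ j x * o (s.ev w)) (s.clx t)) := by
      rw [η, map_add, LinearMap.add_apply, map_add]
    rw [h2, h3, psκ_add, ev_cons]
    have h4 : ⁅t, s.g x * s.ev w⁆ = ⁅t, s.ev w⁆ * ⁅s.ev w * t * (s.ev w)⁻¹, s.g x⁆ := by
      simp only [commutatorElement_def]; group
    rw [h4]
    generalize hk1 : psκ (s.b (s.clx t) (s.act (s.η w) (s.clx t))) = k1
    generalize hk2 : psκ (s.b (s.clx t)
      (s.act (∑ j, St (s.D w j) * s.θ j x * o (s.ev w)) (s.clx t))) = k2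
    have hc1 : ∀ x, x * k1 = k1 * x := by intro x; rw [← hk1]; exact psκ_comm _ x
    have hc2 : ∀ x, x * k2 = k2 * x := by intro x; rw [← hk2]; exact psκ_comm _ x
    generalize ⁅t, s.ev w⁆ = y1
    generalize ⁅s.ev w * t * (s.ev w)⁻¹, s.g x⁆ = y2
    calc k2 * (y1 * k1 * y2) = k2 * (y1 * (k1 * y2)) := by group
      _ = k2 * (y1 * (y2 * k1)) := by rw [hc1 y2]
      _ = (y1 * (y2 * k1)) * k2 := by rw [hc2]
      _ = y1 * y2 * (k1 * k2) := by group

private theorem ps_exists (L : List (V × List (Fin s.d))) (hL : ∀ p ∈ L, s.ev p.2 ∈ s.R) :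
    ∃ r : Fin s.d → G, (∀ j, r j ∈ s.R) ∧ (∀ j, s.clx (r j) = s.vc L j) ∧
      s.psΦ (List.finRange s.d) r = psκ (s.Ψ L) := by
  induction L with
  | nil =>
    refine ⟨1, fun j => s.R.one_mem, fun j => by simp [vc, clx_one], ?_⟩
    have : s.psΦ (List.finRange s.d) 1 = 1 := by
      unfold psΦ
      apply List.prod_eq_one
      intro z hz
      rw [List.mem_map] at hz
      obtain ⟨l, hl, rfl⟩ := hz
      simp
    rw [this, Ψ, psκ_zero]
  | cons p L ih =>
    obtain ⟨r, hr, hv, hΦ⟩ := ih fun q hq => hL q (List.mem_cons_of_mem _ hq)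
    obtain ⟨t, ht, hp⟩ := s.clx_surj p.1
    have hw := hL p List.mem_cons_self
    refine ⟨s.psvec t p.2 * r, fun j => s.R.mul_mem (s.psvec_mem ht p.2 j) (hr j), ?_, ?_⟩
    · intro j
      rw [Pi.mul_apply, s.clx_mul (s.psvec_mem ht p.2 j) (hr j), hv, s.psvec_clx ht, hp, vc,
        add_comm]
    · rw [s.psΦ_mul _ (List.pairwise_lt_finRange s.d) (s.psvec_mem ht p.2) hr, psβ_eq, hΦ,
        s.psΦ_vec ht, Ψ, psκ_add, psκ_add, psκ_add]
      have h1 : (fun j => s.clx (s.psvec t p.2 j)) = fun j => s.act (s.D p.2 j) p.1 := by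
        funext j; rw [s.psvec_clx ht, hp]
      have h2 : (fun j => s.clx (r j)) = s.vc L := by
        funext j; rw [hv]
      have h3 : ⁅t, s.ev p.2⁆ = psκ (s.b p.1 (s.clw p.2)) := by
        unfold psκ clw
        rw [← hp, s.b_clx ht hw]
      rw [h1, h2, h3, hp]
      rw [psκ_comm (s.β _ _), psκ_comm (s.Ψ L), mul_assoc]

theorem Psi_mem (L : List (V × List (Fin s.d))) (hL : ∀ p ∈ L, s.ev p.2 ∈ s.R) :
    ((s.Ψ L).toMul : G) ∈ (commutatorSet G) ^ s.d := by
  obtain ⟨r, hr, hv, hΦ⟩ := s.ps_exists L hL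
  change psκ (s.Ψ L) ∈ _
  rw [← hΦ, Set.mem_pow]
  refine ⟨fun j => ⟨⁅r j, s.g j⁆, ⟨r j, s.g j, rfl⟩⟩, ?_⟩
  unfold psΦ
  rw [← List.ofFn_eq_map]

end Setup

end Pool.Agent.Lib.MP_c7b0ca_fe
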