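import Pool.Agent.Lib.MP_c7b0ca_fe.CO
import Pool.Agent.Lib.MP_c7b0ca_fe.GD
import Pool.Agent.Lib.MP_c7b0ca_fe.ID

/-!
ROW SE (self interaction of an element).

PROOF. Write `v = e.v`, `w = e.w`, `Z = ZZ P (· = e.n + e.n)`, `F h = b (v, comp h (η w) v)`.
`b (v, η v) = Σ_{h ∈ S} F h` for every large finite set `S` of cosets (`sum_comp`; take `S ⊇ P.I`, `1 ∈ S`,
`S` closed under inversion). By `core` with `e' = e`, `b (v, c v) ∈ Z` for `c ∈ P.Gd`.
* `h = 1`: `b (v, v) = 0`, so `F 1 = b (v, (comp 1 η + ε • 1) v) ∈ Z` by `gd3'`.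
* `h ∈ P.I`: `F h + ε h w • b (v, q_{y h} v) ∈ Z` by `gd3`.
* `h ≠ h⁻¹`: `b (v, c v) = b (v, St c v)`, so `F h + F h⁻¹ = b (v, (comp h η + St (comp h⁻¹ η)) v)`
 `= b (v, comp h (η + St η) v)` (`comp_St`) `= b (v, comp h (Σ St D θ D + (1 + o (ev w)⁻¹)) v)` (`eta_add_St`);
 for `h ≠ 1` the component of `1 + o (ev w)⁻¹` is 0 because `ev w ∈ R ≤ N`. So it is in `Z` by `gd1''`.
* In the quotient `WA G ⧸ Z` the sum over `{h ∈ S | h ≠ h⁻¹}` vanishes: `Finset.sum_involution`.
-/

open scoped Pointwise commutatorElement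

namespace Pool.Agent.Lib.MP_c7b0ca_fe

variable {G V : Type*} [Group G] [AddCommGroup V] [Module (ZMod 2) V] {s : Setup G V}

private theorem zmod2_cases (c : ZMod 2) : c = 0 ∨ c = 1 := by
  fin_cases c
  · exact Or.inl rfl
  · exact Or.inr rfl

private theorem pair_mem (P : Par s) (e : Elt P) {h : G ⧸ s.N} (hne : h ≠ h⁻¹) :
    s.b e.v (s.act (comp s.N h (s.η e.w)) e.v) + s.b e.v (s.act (comp s.N h⁻¹ (s.η e.w)) e.v) ∈
      ZZ P (fun m => m = e.n + e.n) := by
  have h1 : s.b e.v (s.act (comp s.N h⁻¹ (s.η e.w)) e.v) =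
      s.b e.v (s.act (comp s.N h (St (s.η e.w))) e.v) := by
    rw [comp_St, s.b_act', s.b_symm]
  have hh : (1 : G ⧸ s.N) ≠ h := by
    rintro rfl
    exact hne inv_one.symm
  have hR : s.ev e.w ∈ s.N := s.le (P.evR e.w e.hw)
  have h2 : comp s.N h (1 + o (s.ev e.w)⁻¹) = 0 := by
    rw [map_add, ← map_one (o (G := G)), comp_o, comp_o, QuotientGroup.mk_one, if_neg hh]
    have h3 : (((s.ev e.w)⁻¹ : G) : G ⧸ s.N) = 1 := by
      rw [QuotientGroup.eq_one_iff]
      exact inv_mem hR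
    rw [h3, if_neg hh, add_zero]
  rw [h1, ← map_add (s.b e.v), ← LinearMap.add_apply, ← map_add s.act, ← map_add (comp s.N h),
    s.eta_add_St, map_add (comp s.N h), h2, add_zero]
  apply core P e e rfl
  rw [map_sum]
  refine sum_mem fun j _ => ?_
  rw [map_sum]
  exact sum_mem fun l _ => gd1'' P e.hw e.hw j l h

theorem self_mem (P : Par s) (e : Elt P) :
    s.b e.v (s.act (s.η e.w) e.v) +
      ∑ h ∈ P.I, s.b (ε s h e.w • e.v) (s.ρ (s.q (P.y h)) (ε s h e.w • e.v)) ∈
        ZZ P (fun m => m = e.n + e.n) := by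
  classical
  obtain ⟨F0, hF0⟩ := sum_comp s.N (s.η e.w)
  set F : G ⧸ s.N → WA G := fun h => s.b e.v (s.act (comp s.N h (s.η e.w)) e.v) with hF
  set S : Finset (G ⧸ s.N) := (F0 ∪ F0.image (fun h => h⁻¹)) ∪ insert 1 P.I with hS
  have hSinv : ∀ h ∈ S, h⁻¹ ∈ S := by
    intro h hh
    rcases Finset.mem_union.1 hh with hh | hh
    · refine Finset.mem_union_left _ ?_
      rcases Finset.mem_union.1 hh with hh | hh
      · exact Finset.mem_union_right _ (Finset.mem_image_of_mem _ hh)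
      · obtain ⟨k, hk, rfl⟩ := Finset.mem_image.1 hh
        exact Finset.mem_union_left _ (by rw [inv_inv]; exact hk)
    · refine Finset.mem_union_right _ ?_
      rcases Finset.mem_insert.1 hh with rfl | hh
      · rw [inv_one]; exact Finset.mem_insert_self _ _
      · have h1 := ((P.mI h).1 hh).2
        rw [inv_eq_of_mul_eq_one_right h1]
        exact Finset.mem_insert_of_mem hh
  have hsum : s.b e.v (s.act (s.η e.w) e.v) = ∑ h ∈ S, F h := by
    have h1 := hF0 S (Finset.subset_union_left.trans Finset.subset_union_left)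
    conv_lhs => rw [← h1]
    rw [map_sum, LinearMap.sum_apply, map_sum]
  -- splitting of `S`
  have h1I : (1 : G ⧸ s.N) ∉ P.I := fun h => ((P.mI 1).1 h).1 rfl
  have hsplit : ∑ h ∈ S, F h = (∑ h ∈ S.filter (fun h => h ≠ h⁻¹), F h) +
      (F 1 + ∑ h ∈ P.I, F h) := by
    rw [← Finset.sum_insert h1I, ← Finset.sum_filter_add_sum_filter_not S (fun h => h ≠ h⁻¹)]
    congr 1
    apply Finset.sum_congr _ fun _ _ => rfl
    ext h
    rw [Finset.mem_filter, Finset.mem_insert, not_not]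
    constructor
    · rintro ⟨-, h2⟩
      by_cases h3 : h = 1
      · exact Or.inl h3
      · refine Or.inr ((P.mI h).2 ⟨h3, ?_⟩)
        conv_lhs => rw [h2]
        exact inv_mul_cancel h ▸ (by rw [← h2])
    · intro h2
      refine ⟨Finset.mem_union_right _ (Finset.mem_insert.2 h2), ?_⟩
      rcases h2 with rfl | h2
      · exact inv_one.symm
      · exact (inv_eq_of_mul_eq_one_right ((P.mI h).1 h2).2).symm
  -- the three parts
  have hp1 : F 1 ∈ ZZ P (fun m => m = e.n + e.n) := by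
    have h2 : F 1 = s.b e.v (s.act (comp s.N 1 (s.η e.w) + ε s 1 e.w • (1 : SA G)) e.v) := by
      rcases zmod2_cases (ε s 1 e.w) with h3 | h3
      · rw [h3, zero_smul, add_zero]
      · rw [h3, one_smul, map_add, LinearMap.add_apply, map_add, map_one]
        show F 1 = F 1 + s.b e.v e.v
        rw [s.b_self, add_zero]
    rw [h2]
    exact core P e e rfl (gd3' P e.hw)
  have hp2 : ∀ h ∈ P.I, F h + s.b (ε s h e.w • e.v) (s.ρ (s.q (P.y h)) (ε s h e.w • e.v)) ∈
      ZZ P (fun m => m = e.n + e.n) := by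
    intro h hh
    have h2 : F h + s.b (ε s h e.w • e.v) (s.ρ (s.q (P.y h)) (ε s h e.w • e.v)) =
        s.b e.v (s.act (comp s.N h (s.η e.w) + ε s h e.w • o (s.q (P.y h))) e.v) := by
      rcases zmod2_cases (ε s h e.w) with h3 | h3
      · rw [h3, zero_smul, zero_smul, add_zero, map_zero (s.b), AddMonoidHom.zero_apply, add_zero]
      · rw [h3, one_smul, one_smul, map_add s.act, LinearMap.add_apply, map_add, s.act_o]
    rw [h2]
    exact core P e e rfl (gd3 P e.hw hh)
  have hp3 : ∑ h ∈ S.filter (fun h => h ≠ h⁻¹), F h ∈ ZZ P (fun m => m = e.n + e.n) := by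
    rw [← QuotientAddGroup.eq_zero_iff, ← QuotientAddGroup.mk'_apply, map_sum]
    apply Finset.sum_involution (fun h _ => h⁻¹)
    · intro h hh
      rw [← map_add, QuotientAddGroup.mk'_apply, QuotientAddGroup.eq_zero_iff]
      exact pair_mem P e (Finset.mem_filter.1 hh).2
    · intro h hh _
      exact fun h2 => (Finset.mem_filter.1 hh).2 h2.symm
    · intro h hh
      exact inv_inv h
    · intro h hh
      obtain ⟨h2, h3⟩ := Finset.mem_filter.1 hh
      refine Finset.mem_filter.2 ⟨hSinv h h2, fun h4 => h3 ?_⟩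
      rw [inv_inv] at h4
      exact h4.symm
  rw [hsum, hsplit]
  have hfin : (∑ h ∈ S.filter (fun h => h ≠ h⁻¹), F h) + (F 1 + ∑ h ∈ P.I, F h) +
      ∑ h ∈ P.I, s.b (ε s h e.w • e.v) (s.ρ (s.q (P.y h)) (ε s h e.w • e.v)) =
      (∑ h ∈ S.filter (fun h => h ≠ h⁻¹), F h) + F 1 +
      ∑ h ∈ P.I, (F h + s.b (ε s h e.w • e.v) (s.ρ (s.q (P.y h)) (ε s h e.w • e.v))) := by
    rw [Finset.sum_add_distrib]
    abel
  rw [hfin]
  exact add_mem (add_mem hp3 hp1) (sum_mem hp2)

end Pool.Agent.Lib.MP_c7b0ca_fe
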