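import Pool.Agent.Lib.MP_c7b0ca_fe.SE

/-!
ROW SR: the recursion of the bounded function `SS` when one element is added.

PROOF. Only the summand `χ = e.lb` changes. In it `Ψ (p :: L') + Ψ L'` (with `p = (e.v, e.w)`,
`L' = (L.filter (lb = χ)).map ..`) is `b (e.v, clw e.w) + b (e.v, η e.v) + β(D e.w _ e.v, vc L')`.
* `b (e.v, clw e.w) = e.z` (`b_act`, `St_St`).
* `vc L' j` is a sum of `act (D e'.w j) e'.v` over `e' ∈ L` of the same label, and
 `β (D e.w _ e.v, D e'.w _ e'.v) = Σ_{j,l} b (e.v, St (D e.w j) θ_{jl} (D e'.w l) e'.v)` is in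
 `ZZ (· = e.n + e'.n)` by `gd1'` and `core`.
* the involution terms: with `X = Σ_{e'} ε h e'.w • e'.v`, `Y = ε h e.w • e.v`, `u = q (P.y h)`:
 `b (Y+X, u (Y+X)) + b (X, u X) = b (Y, u Y) + b (Y, u X) + b (X, u Y)` and
 `b (X, u Y) = b (Y, u⁻¹ X)`, so the cross terms are sums of `b (e.v, (u + u⁻¹) e'.v)`: `gd2`, `core`.
* `b (e.v, η e.v) + Σ_h b (Y, u Y)` is `self_mem`.
Degrees: `e.n < e.n + e'.n < 2 M` (`Elt.hn`). `WA` values of `b` have exponent 2 (`b_two`); prove first
`SS P L + SS P L = 0` (this is part of the row), because `SS` is a sum of values of `b`.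
-/

open scoped Pointwise commutatorElement

namespace Pool.Agent.Lib.MP_c7b0ca_fe

variable {G V : Type*} [Group G] [AddCommGroup V] [Module (ZMod 2) V] {s : Setup G V}

private theorem ZZ_mono (P : Par s) {p p' : ℕ → Prop} (h : ∀ m, p m → p' m) : ZZ P p ≤ ZZ P p' := by
  unfold ZZ
  refine AddSubgroup.closure_mono ?_
  rintro t ⟨e, he, rfl⟩
  exact ⟨e, h _ he, rfl⟩

private theorem β_two (X Y : Fin s.d → V) : s.β X Y + s.β X Y = 0 := by
  unfold Setup.β
  rw [← Finset.sum_add_distrib]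
  refine Finset.sum_eq_zero fun j _ => ?_
  rw [← Finset.sum_add_distrib]
  exact Finset.sum_eq_zero fun l _ => s.b_two _ _

private theorem Ψ_two (L : List (V × List (Fin s.d))) : s.Ψ L + s.Ψ L = 0 := by
  induction L with
  | nil => simp [Setup.Ψ]
  | cons p L ih =>
    simp only [Setup.Ψ]
    have h1 := s.b_two p.1 (s.clw p.2)
    have h2 := s.b_two p.1 (s.act (s.η p.2) p.1)
    have h3 := β_two (s := s) (fun j => s.act (s.D p.2 j) p.1) (s.vc L)
    generalize s.Ψ L = a at *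
    generalize s.b p.1 (s.clw p.2) = b at *
    generalize s.b p.1 (s.act (s.η p.2) p.1) = c at *
    generalize s.β (fun j => s.act (s.D p.2 j) p.1) (s.vc L) = d at *
    have : a + b + c + d + (a + b + c + d) = (a + a) + (b + b) + (c + c) + (d + d) := by abel
    rw [this, ih, h1, h2, h3]
    simp

/-- the vector of the involution terms -/
private noncomputable def XX (P : Par s) (h : G ⧸ s.N) (L : List (Elt P)) : V :=
  (L.map (fun e => ε s h e.w • e.v)).sum

/-- one summand of `SS` -/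
private noncomputable def sm (P : Par s) (L : List (Elt P)) : WA G :=
  s.Ψ (L.map (fun e => (e.v, e.w))) +
    ∑ h ∈ P.I, s.b (XX P h L) (s.ρ (s.q (P.y h)) (XX P h L))

open Classical in
private theorem SS_eq (P : Par s) (L : List (Elt P)) :
    SS P L = ∑ χ : Fin s.d → Fin 3, sm P (L.filter (fun e => e.lb = χ)) := rfl

private theorem sm_two (P : Par s) (L : List (Elt P)) : sm P L + sm P L = 0 := by
  unfold sm
  have h1 := Ψ_two (s := s) (L.map (fun e => (e.v, e.w)))
  have h2 : (∑ h ∈ P.I, s.b (XX P h L) (s.ρ (s.q (P.y h)) (XX P h L))) +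
      ∑ h ∈ P.I, s.b (XX P h L) (s.ρ (s.q (P.y h)) (XX P h L)) = 0 := by
    rw [← Finset.sum_add_distrib]
    exact Finset.sum_eq_zero fun h _ => s.b_two _ _
  generalize (∑ h ∈ P.I, s.b (XX P h L) (s.ρ (s.q (P.y h)) (XX P h L))) = b at *
  generalize s.Ψ (L.map (fun e => (e.v, e.w))) = a at *
  have : a + b + (a + b) = (a + a) + (b + b) := by abel
  rw [this, h1, h2, add_zero]

theorem SS_two (P : Par s) (L : List (Elt P)) : SS P L + SS P L = 0 := by
  classical
  rw [SS_eq, ← Finset.sum_add_distrib]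
  exact Finset.sum_eq_zero fun χ _ => sm_two P _

theorem SS_nil (P : Par s) : SS P [] = 0 := by
  classical
  rw [SS_eq]
  refine Finset.sum_eq_zero fun χ _ => ?_
  simp [sm, XX, Setup.Ψ]

private theorem z_eq {P : Par s} (e : Elt P) : s.b e.v (s.clw e.w) = e.z := by
  unfold Elt.v Elt.z
  rw [s.b_act, St_St]

private theorem β_add (X Y Z : Fin s.d → V) : s.β X (fun l => Y l + Z l) = s.β X Y + s.β X Z := by
  unfold Setup.β
  rw [← Finset.sum_add_distrib]
  refine Finset.sum_congr rfl fun j _ => ?_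
  rw [← Finset.sum_add_distrib]
  refine Finset.sum_congr rfl fun l _ => ?_
  rw [map_add, map_add]

private theorem β_zero (X : Fin s.d → V) : s.β X (fun _ => 0) = 0 := by
  unfold Setup.β
  refine Finset.sum_eq_zero fun j _ => ?_
  refine Finset.sum_eq_zero fun l _ => ?_
  rw [map_zero, map_zero]

private theorem β_mem (P : Par s) (e e' : Elt P) (h : e.lb = e'.lb) :
    s.β (fun j => s.act (s.D e.w j) e.v) (fun l => s.act (s.D e'.w l) e'.v) ∈
      ZZ P (fun m => m = e.n + e'.n) := by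
  unfold Setup.β
  refine AddSubgroup.sum_mem _ fun j _ => AddSubgroup.sum_mem _ fun l _ => ?_
  have h1 : s.b (s.act (s.D e.w j) e.v) (s.act (s.θ j l) (s.act (s.D e'.w l) e'.v)) =
      s.b e.v (s.act (St (s.D e.w j) * s.θ j l * s.D e'.w l) e'.v) := by
    rw [s.b_act, s.act_mul_apply, s.act_mul_apply]
  rw [h1]
  exact core P e e' h (gd1' P e.hw e'.hw j l)

private theorem vc_mem (P : Par s) (e : Elt P) (M : ℕ) (he : e.n < M) (L : List (Elt P))
    (hL : ∀ e' ∈ L, e.lb = e'.lb ∧ e'.n < M) :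
    s.β (fun j => s.act (s.D e.w j) e.v) (s.vc (L.map (fun e => (e.v, e.w)))) ∈
      ZZ P (fun m => e.n < m ∧ m < 2 * M) := by
  induction L with
  | nil =>
    have h1 : s.vc (([] : List (Elt P)).map (fun e => (e.v, e.w))) = fun _ => 0 := by
      funext l
      simp [Setup.vc]
    rw [h1, β_zero]
    exact AddSubgroup.zero_mem _
  | cons e' L ih =>
    have h1 : s.vc ((e' :: L).map (fun e => (e.v, e.w))) =
        fun l => s.vc (L.map (fun e => (e.v, e.w))) l + s.act (s.D e'.w l) e'.v := by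
      funext l
      simp [Setup.vc]
    rw [h1, β_add]
    refine AddSubgroup.add_mem _ (ih fun e'' h => hL e'' (List.mem_cons_of_mem _ h)) ?_
    have h2 := hL e' List.mem_cons_self
    have h3 := e'.hn
    refine ZZ_mono P ?_ (β_mem P e e' h2.1)
    rintro m rfl
    omega

private theorem cross_mem (P : Par s) (e : Elt P) (M : ℕ) (he : e.n < M) {h : G ⧸ s.N} (hh : h ∈ P.I)
    (L : List (Elt P)) (hL : ∀ e' ∈ L, e.lb = e'.lb ∧ e'.n < M) :
    s.b (ε s h e.w • e.v) (s.act (o (s.q (P.y h)) + o (s.q (P.y h))⁻¹) (XX P h L)) ∈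
      ZZ P (fun m => e.n < m ∧ m < 2 * M) := by
  induction L with
  | nil =>
    simp only [XX, List.map_nil, List.sum_nil, map_zero]
    exact AddSubgroup.zero_mem _
  | cons e' L ih =>
    have h1 : XX P h (e' :: L) = ε s h e'.w • e'.v + XX P h L := by
      simp [XX]
    rw [h1, map_add, map_add]
    refine AddSubgroup.add_mem _ ?_ (ih fun e'' h => hL e'' (List.mem_cons_of_mem _ h))
    have h2 := hL e' List.mem_cons_self
    have h3 := e'.hn
    -- the coefficients are 0 or 1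
    have h4 : ∀ x : ZMod 2, x = 0 ∨ x = 1 := by decide
    rcases h4 (ε s h e.w) with k1 | k1
    · rw [k1, zero_smul, map_zero]
      exact AddSubgroup.zero_mem _
    rcases h4 (ε s h e'.w) with k2 | k2
    · rw [k2, zero_smul, map_zero, map_zero]
      exact AddSubgroup.zero_mem _
    rw [k1, k2, one_smul, one_smul]
    refine ZZ_mono P ?_ (core P e e' h2.1 (gd2 P hh))
    rintro m rfl
    omega

private theorem inv_step (u : G) (X Y : V) :
    s.b (Y + X) (s.ρ u (Y + X)) + s.b X (s.ρ u X) =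
      s.b Y (s.ρ u Y) + s.b Y (s.act (o u + o u⁻¹) X) := by
  have h1 : s.b X (s.ρ u Y) = s.b Y (s.ρ u⁻¹ X) := by
    have h2 := s.b_ρ u⁻¹ X (s.ρ u Y)
    rw [← h2, s.b_symm]
    congr 1
    rw [← Module.End.mul_apply, ← map_mul, inv_mul_cancel, map_one]
    rfl
  have h3 := s.b_two X (s.ρ u X)
  rw [map_add (s.ρ u), map_add s.b, AddMonoidHom.add_apply, map_add, map_add, map_add s.act,
    LinearMap.add_apply, map_add, s.act_o, s.act_o, h1]
  generalize s.b X (s.ρ u X) = a at *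
  generalize s.b Y (s.ρ u Y) = b at *
  generalize s.b Y (s.ρ u X) = c at *
  generalize s.b Y (s.ρ u⁻¹ X) = d at *
  have : b + c + (d + a) + a = b + (c + d) + (a + a) := by abel
  rw [this, h3, add_zero]

private theorem sm_cons (P : Par s) (e : Elt P) (M : ℕ) (he : e.n < M) (L : List (Elt P))
    (hL : ∀ e' ∈ L, e.lb = e'.lb ∧ e'.n < M) :
    sm P (e :: L) + sm P L + e.z ∈ ZZ P (fun m => e.n < m ∧ m < 2 * M) := by
  have hself := self_mem P e
  have hv := vc_mem P e M he L hL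
  have hc : ∑ h ∈ P.I, s.b (ε s h e.w • e.v)
      (s.act (o (s.q (P.y h)) + o (s.q (P.y h))⁻¹) (XX P h L)) ∈
        ZZ P (fun m => e.n < m ∧ m < 2 * M) :=
    AddSubgroup.sum_mem _ fun h hh => cross_mem P e M he hh L hL
  have hself' := ZZ_mono P (p' := fun m => e.n < m ∧ m < 2 * M) (by
    have := e.hn
    rintro m rfl
    omega) hself
  have hΨ := Ψ_two (s := s) (L.map (fun e => (e.v, e.w)))
  have e1 : sm P (e :: L) = s.Ψ (L.map (fun e => (e.v, e.w))) + e.z +
      s.b e.v (s.act (s.η e.w) e.v) +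
      s.β (fun j => s.act (s.D e.w j) e.v) (s.vc (L.map (fun e => (e.v, e.w)))) +
      ∑ h ∈ P.I, s.b (ε s h e.w • e.v + XX P h L)
        (s.ρ (s.q (P.y h)) (ε s h e.w • e.v + XX P h L)) := by
    unfold sm
    rw [List.map_cons]
    simp only [Setup.Ψ]
    rw [z_eq]
    congr 1
  have e2 : (∑ h ∈ P.I, s.b (ε s h e.w • e.v + XX P h L)
        (s.ρ (s.q (P.y h)) (ε s h e.w • e.v + XX P h L))) +
      ∑ h ∈ P.I, s.b (XX P h L) (s.ρ (s.q (P.y h)) (XX P h L)) =
      (∑ h ∈ P.I, s.b (ε s h e.w • e.v) (s.ρ (s.q (P.y h)) (ε s h e.w • e.v))) +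
      ∑ h ∈ P.I, s.b (ε s h e.w • e.v)
        (s.act (o (s.q (P.y h)) + o (s.q (P.y h))⁻¹) (XX P h L)) := by
    rw [← Finset.sum_add_distrib, ← Finset.sum_add_distrib]
    exact Finset.sum_congr rfl fun h _ => inv_step _ _ _
  have ez : e.z + e.z = 0 := by
    rw [← z_eq]; exact s.b_two _ _
  rw [e1]
  have e3 : sm P L = s.Ψ (L.map (fun e => (e.v, e.w))) +
    ∑ h ∈ P.I, s.b (XX P h L) (s.ρ (s.q (P.y h)) (XX P h L)) := rfl
  rw [e3]
  generalize s.Ψ (L.map (fun e => (e.v, e.w))) = a at *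
  generalize e.z = z at *
  generalize s.b e.v (s.act (s.η e.w) e.v) = η at *
  generalize s.β (fun j => s.act (s.D e.w j) e.v) (s.vc (L.map (fun e => (e.v, e.w)))) = β at *
  generalize (∑ h ∈ P.I, s.b (ε s h e.w • e.v + XX P h L)
        (s.ρ (s.q (P.y h)) (ε s h e.w • e.v + XX P h L))) = S1 at *
  generalize (∑ h ∈ P.I, s.b (XX P h L) (s.ρ (s.q (P.y h)) (XX P h L))) = S2 at *
  generalize (∑ h ∈ P.I, s.b (ε s h e.w • e.v) (s.ρ (s.q (P.y h)) (ε s h e.w • e.v))) = S3 at *
  generalize (∑ h ∈ P.I, s.b (ε s h e.w • e.v)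
        (s.act (o (s.q (P.y h)) + o (s.q (P.y h))⁻¹) (XX P h L))) = S4 at *
  have h5 : a + z + η + β + S1 + (a + S2) + z = (a + a) + (z + z) + (η + S3) + β + S4 := by
    have : a + z + η + β + S1 + (a + S2) + z = (a + a) + (z + z) + η + β + (S1 + S2) := by abel
    rw [this, e2]
    abel
  rw [h5, hΨ, ez, zero_add, zero_add]
  exact AddSubgroup.add_mem _ (AddSubgroup.add_mem _ hself' hv) hc

theorem SS_cons (P : Par s) (e : Elt P) (L : List (Elt P)) (M : ℕ)
    (hM : ∀ e' ∈ e :: L, e'.n < M) :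
    SS P (e :: L) + SS P L + e.z ∈ ZZ P (fun m => e.n < m ∧ m < 2 * M) := by
  classical
  rw [SS_eq, SS_eq, ← Finset.sum_add_distrib]
  have h1 : ∀ χ : Fin s.d → Fin 3, χ ≠ e.lb →
      sm P ((e :: L).filter (fun e => e.lb = χ)) + sm P (L.filter (fun e => e.lb = χ)) = 0 := by
    intro χ hχ
    rw [List.filter_cons_of_neg]
    · exact sm_two P _
    · simp only [decide_eq_true_eq]
      exact fun h => hχ h.symm
  rw [Finset.sum_eq_single e.lb (fun χ _ hχ => h1 χ hχ) (fun h => absurd (Finset.mem_univ _) h)]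
  rw [List.filter_cons_of_pos (by simp)]
  refine sm_cons P e M (hM e List.mem_cons_self) _ fun e' he' => ?_
  rw [List.mem_filter] at he'
  have h2 := he'.2
  simp only [decide_eq_true_eq] at h2
  exact ⟨h2.symm, hM e' (List.mem_cons_of_mem _ he'.1)⟩

end Pool.Agent.Lib.MP_c7b0ca_fe
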